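import Pool.Agent.Y771.JQ.Main

/-!
# Values of `J`, `D J`, `D² J` at nomes in a number field

Let `k` be a number field with an embedding `σ : k → ℂ` and `K` a compact subset of the punctured
open unit disc.  The `n`-tuples `(q_1, ..., q_n)` of elements of `k` of height at most `T`, with
`σ q_l ∈ K`, for which `π` and the `3 n` numbers `J (q_l)`, `D J (q_l)`, `D² J (q_l)` satisfy a
relation (even an approximate one) of degree at most `d` in each variable, with coefficients in `k`
of height at most `T ^ A`, lie on at most `C T ^ ε` hypersurfaces of degree at most `D`, and there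
are at most `C T ^ ε N (T) ^ (n - 1)` of them.  The tuples with `q_1 = q_2` are exceptional.

Proof: the general theorem of helper124 over number fields (`Pool.Agent.Y771.KF.stdK`) and the
algebraic independence of `q`, `J (q)`, `D J (q)`, `D² J (q)` as functions (Mahler,
`Pool.Agent.TH21.MS.Mahler`).
-/

set_option autoImplicit false

namespace Pool.Agent.Q138.AJ.R151840

/-- the normalised Eisenstein series of weight `4` as a function of the nome -/
noncomputable def E4 (q : ℂ) : ℂ :=
  1 + 240 * ∑' m : ℕ, ((ArithmeticFunction.sigma 3 (m + 1) : ℕ) : ℂ) * q ^ (m + 1)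

/-- the normalised Eisenstein series of weight `6` as a function of the nome -/
noncomputable def E6 (q : ℂ) : ℂ :=
  1 - 504 * ∑' m : ℕ, ((ArithmeticFunction.sigma 5 (m + 1) : ℕ) : ℂ) * q ^ (m + 1)

/-- the function `J (q) = q⁻¹ + 744 + 196884 q + ⋯` on the punctured unit disc -/
noncomputable def J (q : ℂ) : ℂ := 1728 * E4 q ^ 3 / (E4 q ^ 3 - E6 q ^ 2)

/-- `J (q)`, `D J (q)`, `D² J (q)`, where `D = q d/dq` -/
noncomputable def three (q : ℂ) : Fin 3 → ℂ :=
  ![J q, q * deriv J q, q * deriv (fun u => u * deriv J u) q]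

/-- the `3 n + 1` numbers `π` and `J (q_l)`, `D J (q_l)`, `D² J (q_l)` -/
noncomputable def numbers {k : Type} [Field k] (σ : k →+* ℂ) {n : ℕ} (q : Fin n → k) (i : Option (Fin n × Fin 3)) : ℂ :=
  i.elim (Real.pi : ℂ) fun c => three (σ (q c.1)) c.2

/-- The `n`-tuples `q` of elements of `k`, of height at most `T` and with `σ q_l ∈ K`, for which some nonzero polynomial
in `3 n + 1` variables with coefficients in `k` of height at most `T ^ A`, of degree at most `d` in each variable, takes at
the `3 n + 1` numbers a value of absolute value at most `T ^ (-B)`. -/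
def Exceptional {k : Type} [Field k] [NumberField k] (σ : k →+* ℂ) (n d : ℕ) (K : Set ℂ) (A B T : ℝ) :
    Set (Fin n → k) :=
  {q | (∀ l, σ (q l) ∈ K ∧ Height.mulHeight₁ (q l) ≤ T) ∧
    ∃ P : MvPolynomial (Option (Fin n × Fin 3)) k, P ≠ 0 ∧ (∀ i, P.degreeOf i ≤ d) ∧
      (∀ e, Height.mulHeight₁ (P.coeff e) ≤ T ^ A) ∧ ‖MvPolynomial.eval₂ σ (numbers σ q) P‖ ≤ T ^ (-B)}

/-- For every `ε > 0` there are `D`, `B` and `C` such that for all `T ≥ 1` the exceptional `n`-tuples are zeros of at most
`C T ^ ε` nonzero polynomials of degree at most `D`, and their number is at most `C T ^ ε N (T) ^ (n - 1)`, where `N (T)`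
is the number of elements of `k` of height at most `T`. -/
theorem result (k : Type) [Field k] [NumberField k] (σ : k →+* ℂ) (n d : ℕ) (hn : 1 ≤ n) (K : Set ℂ) (hK : IsCompact K)
    (hKS : ∀ q ∈ K, q ≠ 0 ∧ ‖q‖ < 1) (A ε : ℝ) (hε : 0 < ε) :
    ∃ (D : ℕ) (B C : ℝ), ∀ T : ℝ, 1 ≤ T →
      (∃ Φ : Finset (MvPolynomial (Fin n) k), (Φ.card : ℝ) ≤ C * T ^ ε ∧ (∀ Q ∈ Φ, Q ≠ 0 ∧ Q.totalDegree ≤ D) ∧
        ∀ q ∈ Exceptional σ n d K A B T, ∃ Q ∈ Φ, MvPolynomial.eval q Q = 0) ∧
      (Exceptional σ n d K A B T).Finite ∧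
      ((Exceptional σ n d K A B T).ncard : ℝ) ≤
        C * T ^ ε * ({x : k | Height.mulHeight₁ x ≤ T}.ncard : ℝ) ^ (n - 1) :=
  Pool.Agent.Y771.JQ.main σ n d hn K hK hKS A ε hε

end Pool.Agent.Q138.AJ.R151840
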