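import Pool.Agent.Y921.PX.Fin

/-!
# Singular matrices of `p`-adic logarithms: power saving for tuples of integers, and windows in residue classes

Question Q2 for the spaces spanned, over a number field `K` in `ℂ_p`, by an arbitrary space `V` for which the
assertion is true and by the `p`-adic logarithms of `k` integers.
-/

set_option autoImplicit false

namespace Pool.Agent.Q138.AJ.R1f047cb

open Module

/-- `L` is Iwasawa's `p`-adic logarithm on `ℂ_p` (its value at `0` is irrelevant). -/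
def IsIwasawaLog (p : ℕ) [Fact p.Prime] (L : ℂ_[p] → ℂ_[p]) : Prop :=
  (∀ x y : ℂ_[p], x ≠ 0 → y ≠ 0 → L (x * y) = L x + L y) ∧
  L ((p : ℕ) : ℂ_[p]) = 0 ∧
  ∀ z : ℂ_[p], ‖z‖ < 1 →
    HasSum (fun n : ℕ => (-1 : ℂ_[p]) ^ n * z ^ (n + 1) / ((n : ℂ_[p]) + 1)) (L (1 + z))

/-- The assertion of Q2 over `K` for all matrices with entries in `V`: every singular square matrix with entries in
`V` has a zero coefficient after a change of bases over `K`. -/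
def Q2Holds {K A : Type} [Field K] [Field A] [Algebra K A] (V : Submodule K A) : Prop :=
  ∀ n : ℕ, 1 ≤ n → ∀ M : Matrix (Fin n) (Fin n) A, (∀ i j, M i j ∈ V) → M.det = 0 →
    ∃ w v : Fin n → K, w ≠ 0 ∧ v ≠ 0 ∧ ∑ i, ∑ j, (w i * v j) • M i j = 0

/-- The `l i` are linearly independent modulo `V`, and Q2 holds over `K` for `V + span l`. -/
def Extends {K A : Type} [Field K] [Field A] [Algebra K A] (V : Submodule K A) {k : ℕ} (l : Fin k → A) : Prop :=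
  finrank K (V ⊔ Submodule.span K (Set.range l) : Submodule K A) = finrank K V + k ∧
    Q2Holds (V ⊔ Submodule.span K (Set.range l))

/-- **Main result.** -/
theorem result :
    (∀ k d m : ℕ, ∃ c : ℝ, 0 < c ∧ ∃ C : ℝ, ∀ (p : ℕ) [Fact p.Prime] (L : ℂ_[p] → ℂ_[p]), IsIwasawaLog p L →
      ∀ K : IntermediateField ℚ ℂ_[p], FiniteDimensional ℚ K → finrank ℚ K ≤ d →
      ∀ V : Submodule K ℂ_[p], Module.Finite K V → finrank K V ≤ m → (finrank K V ≤ 1 ∨ Q2Holds V) →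
      ∀ T : ℕ, 1 ≤ T → ∃ B : Finset (Fin k → ℕ), (B.card : ℝ) ≤ C * p * (T : ℝ) ^ ((k : ℝ) - c) ∧
        ∀ n : Fin k → ℕ, (∀ i, 1 ≤ n i ∧ n i ≤ T) → n ∉ B → Extends V (fun i => L (n i : ℂ_[p]))) ∧
    (∀ r d m : ℕ, ∃ E : ℕ, ∀ (p : ℕ) [Fact p.Prime] (L : ℂ_[p] → ℂ_[p]), IsIwasawaLog p L →
      ∀ H e v : ℕ, (H + 2) ^ E ≤ p ^ e → ¬ p ∣ v → v ≤ p ^ e →
      ∀ K : IntermediateField ℚ ℂ_[p], FiniteDimensional ℚ K → finrank ℚ K ≤ d →
      ∀ V : Submodule K ℂ_[p], Module.Finite K V → finrank K V ≤ m → (finrank K V ≤ 1 ∨ Q2Holds V) →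
      ∃ S : Finset ℕ, S.card ≤ m + 1 ∧ ∀ g : Fin r → ℕ, Function.Injective g →
        (∀ i, 1 ≤ g i ∧ g i ≤ H ∧ g i ∉ S) → Extends V (fun i => L ((v + g i * p ^ e : ℕ) : ℂ_[p]))) := by
  refine ⟨fun k d m => ?_, fun r d m => ?_⟩
  · obtain ⟨c, hc, C, -, h⟩ := Pool.Agent.Y921.PX.tuples_zero k d m
    refine ⟨c, hc, C, fun p _ L hL K hK hKd V hV hVm hV0 T hT => ?_⟩
    exact h p ℂ_[p] L ⟨hL.1, hL.2.1, hL.2.2⟩ K hK hKd V hV hVm
      (hV0.elim (fun h1 => Pool.Agent.Y921.SR.zeroProp_small V h1) fun h1 => h1) T hT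
  · obtain ⟨E, h⟩ := Pool.Agent.Y921.PX.window_zero r d m
    refine ⟨E, fun p _ L hL H e v hHe hv hve K hK hKd V hV hVm hV0 => ?_⟩
    exact h p ℂ_[p] L ⟨hL.1, hL.2.1, hL.2.2⟩ H e v hHe hv hve K hK hKd V hV hVm
      (hV0.elim (fun h1 => Pool.Agent.Y921.SR.zeroProp_small V h1) fun h1 => h1)

end Pool.Agent.Q138.AJ.R1f047cb
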