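import Pool.Agent.H322R2.YFin3

/-!
Among all `F ∈ ℤ[x, y]` of degree `d ≥ 4` and height at most `H`, irreducible over `ℚ`, with
squarefree leading form, all but `N(d) (2H+1)^(4d-2)` have all their integer zeros bounded by
an explicit power of their own height.
-/

open Polynomial Finset

namespace Pool.Agent.Q138.AJ.R2d259ba

open Pool.Agent.H322R2

/-- **An explicit polynomial bound for the integer points of all but very few plane curves.**
Let `d ≥ 4`. There are `(2H+1)^((d+1)(d+2)/2)` polynomials `F ∈ ℤ[x, y]` of total degree at most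
`d` with coefficients in `[-H, H]`. Among those that have degree `d`, are irreducible over `ℚ` and
have a squarefree leading form, only at most `10^9 36^d (d+1)^8 (2H+1)^(4d-2)` have an integer zero
`(x, y)` with `max(|x|, |y|) > ((d+1) h(F))^C`, `C = 10^11 36^d (d+1)^13`, where `h(F)` is the sum
of the absolute values of the coefficients of `F`. -/
theorem result (d : ℕ) (hd : 4 ≤ d) (H : ℕ) :
    Set.ncard {F : MvPolynomial (Fin 2) ℤ | F.totalDegree ≤ d ∧ ∀ m, |F.coeff m| ≤ (H : ℤ)}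
      = (2 * H + 1) ^ ((d + 1) * (d + 2) / 2) ∧
    Set.ncard {F : MvPolynomial (Fin 2) ℤ | (F.totalDegree = d ∧ ∀ m, |F.coeff m| ≤ (H : ℤ)) ∧
      Irreducible (MvPolynomial.map (Int.castRingHom ℚ) F) ∧
      Squarefree (MvPolynomial.map (Int.castRingHom ℚ) (MvPolynomial.homogeneousComponent d F)) ∧
      ∃ x y : ℤ, MvPolynomial.eval ![x, y] F = 0 ∧
        ((d + 1) * ∑ m ∈ F.support, (F.coeff m).natAbs) ^ (10 ^ 11 * 36 ^ d * (d + 1) ^ 13)
          < max x.natAbs y.natAbs}
      ≤ 10 ^ 9 * 36 ^ d * (d + 1) ^ 8 * (2 * H + 1) ^ (4 * d - 2) := by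
  classical
  have h1 : {F : MvPolynomial (Fin 2) ℤ | F.totalDegree ≤ d ∧ ∀ m, |F.coeff m| ≤ (H : ℤ)}
      = (((Bx ↥(Ix d) H).image FM : Finset (MvPolynomial (Fin 2) ℤ)) : Set _) := by
    ext F
    rw [Set.mem_ofPred_eq, FM_memV, Finset.mem_coe, Finset.mem_image]
  constructor
  · rw [h1, Set.ncard_coe_finset, Finset.card_image_of_injective _ FM_injectiveV, card_Bx,
      Fintype.card_coe, card_Ix]
  · obtain ⟨W, hW⟩ : ∃ W, W = {F : MvPolynomial (Fin 2) ℤ |
      (F.totalDegree = d ∧ ∀ m, |F.coeff m| ≤ (H : ℤ)) ∧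
      Irreducible (MvPolynomial.map (Int.castRingHom ℚ) F) ∧
      Squarefree (MvPolynomial.map (Int.castRingHom ℚ) (MvPolynomial.homogeneousComponent d F)) ∧
      ∃ x y : ℤ, MvPolynomial.eval ![x, y] F = 0 ∧
        ((d + 1) * ∑ m ∈ F.support, (F.coeff m).natAbs) ^ (10 ^ 11 * 36 ^ d * (d + 1) ^ 13)
          < max x.natAbs y.natAbs} := ⟨_, rfl⟩
    rw [← hW]
    have hfin : W.Finite := by
      apply Set.Finite.subset (Finset.finite_toSet ((Bx ↥(Ix d) H).image FM))
      rw [← h1]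
      intro F hF
      rw [hW] at hF
      exact ⟨hF.1.1.le, hF.1.2⟩
    rw [Set.ncard_eq_toFinset_card W hfin]
    have h2 := Y_main hd H hfin.toFinset (by
      intro F hF
      rw [Set.Finite.mem_toFinset, hW] at hF
      obtain ⟨⟨g1, g2⟩, g3, g4, g5⟩ := hF
      refine ⟨g1, g2, g3, by rw [g1]; exact g4, g5⟩)
    refine h2.trans ?_
    calc 2 * (NY d * (2 * H + 1) ^ (4 * d - 2)) = (2 * NY d) * (2 * H + 1) ^ (4 * d - 2) := by ring
      _ ≤ _ := Nat.mul_le_mul_right _ (two_NY_le d)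

end Pool.Agent.Q138.AJ.R2d259ba
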