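import Pool.Agent.H322R2.AsmE

/-!
# The integer points of almost all plane curves through given points

Let `S` be a finite set of integer points of the plane and `d ≥ 2 |S| + 4`.  Among all
`F ∈ ℤ[x, y]` of degree at most `d` with coefficients in `[-H, H]` which vanish on `S`, all but a
proportion `K H ^ (-1 / (10 ^ 4 d))`, with an explicit constant `K`, have no integer zero
outside `S`.  The family is large.
-/

open Finset

namespace Pool.Agent.Q138.AJ.R2d259bb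

open Pool.Agent.H322R2

/-- the polynomials of degree at most `d` with coefficients in `[-H, H]` which vanish on `S` -/
def Fam (d H : ℕ) (S : Finset (ℤ × ℤ)) : Set (MvPolynomial (Fin 2) ℤ) :=
  {F | F.totalDegree ≤ d ∧ (∀ m, |F.coeff m| ≤ (H : ℤ)) ∧
    ∀ p ∈ S, MvPolynomial.eval ![p.1, p.2] F = 0}

/-- the members of the family with an integer zero outside `S` -/
def Exc (d H : ℕ) (S : Finset (ℤ × ℤ)) : Set (MvPolynomial (Fin 2) ℤ) :=
  {F | F ∈ Fam d H S ∧ ∃ x y : ℤ, (x, y) ∉ S ∧ MvPolynomial.eval ![x, y] F = 0}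

/-- the constant -/
noncomputable def K (d B s : ℕ) : ℝ :=
  10 ^ 15 * 2 ^ (d ^ 2 + 6 * d) * ((d : ℝ) + 1) ^ (d + 13) +
    1000 * 2 ^ d * (2 * (d : ℝ) + 4) ^ ((d + 1) * (d + 2) / 2) * ((B : ℝ) + 1) ^ (s * (d + 1))

/-- the exchange of the two coordinates -/
def sw (S : Finset (ℤ × ℤ)) : Finset (ℤ × ℤ) := S.map (Equiv.prodComm ℤ ℤ).toEmbedding

lemma mem_sw {S : Finset (ℤ × ℤ)} {x y : ℤ} : (x, y) ∈ sw S ↔ (y, x) ∈ S := by
  unfold sw
  rw [Finset.mem_map]
  constructor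
  · rintro ⟨⟨a, b⟩, h, h2⟩
    simp only [Equiv.coe_toEmbedding, Equiv.prodComm_apply, Prod.swap_prod_mk, Prod.mk.injEq] at h2
    rw [← h2.1, ← h2.2]
    exact h
  · intro h
    exact ⟨(y, x), h, rfl⟩

lemma card_sw (S : Finset (ℤ × ℤ)) : (sw S).card = S.card := Finset.card_map _

variable {d : ℕ}

lemma Fam_eq (H : ℕ) (S : Finset (ℤ × ℤ)) :
    Fam d H S = (((VB (Lam d (sw S)) H).image FM : Finset (MvPolynomial (Fin 2) ℤ)) : Set _) := by
  classical
  ext F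
  rw [Finset.mem_coe, Finset.mem_image]
  constructor
  · rintro ⟨h1, h2, h3⟩
    obtain ⟨c, hc, rfl⟩ := FM_memV.1 ⟨h1, h2⟩
    refine ⟨c, mem_VB.2 ⟨hc, ?_⟩, rfl⟩
    rw [mem_Lam]
    rintro ⟨x, y⟩ hp
    have := h3 (y, x) (mem_sw.1 hp)
    rw [eval_FMV] at this
    exact this
  · rintro ⟨c, hc, rfl⟩
    obtain ⟨h1, h2⟩ := mem_VB.1 hc
    obtain ⟨h3, h4⟩ := FM_memV.2 ⟨c, h1, rfl⟩
    refine ⟨h3, h4, ?_⟩
    rintro ⟨x, y⟩ hp
    rw [eval_FMV]
    rw [mem_Lam] at h2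
    exact h2 (y, x) (mem_sw.2 hp)

open Classical in
lemma Exc_eq (H : ℕ) (S : Finset (ℤ × ℤ)) :
    Exc d H S = (((Finset.filter (fun c : ↥(Ix d) → ℤ => ∃ p : ℤ × ℤ, p ∉ sw S ∧
      ev p.1 p.2 (PG c) = 0) (VB (Lam d (sw S)) H)).image FM :
        Finset (MvPolynomial (Fin 2) ℤ)) : Set _) := by
  ext F
  rw [Finset.mem_coe, Finset.mem_image]
  constructor
  · rintro ⟨h1, x, y, h2, h3⟩
    rw [Fam_eq, Finset.mem_coe, Finset.mem_image] at h1
    obtain ⟨c, hc, rfl⟩ := h1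
    refine ⟨c, Finset.mem_filter.2 ⟨hc, (y, x), fun h => h2 (mem_sw.1 h), ?_⟩, rfl⟩
    rw [eval_FMV] at h3
    exact h3
  · rintro ⟨c, hc, rfl⟩
    obtain ⟨h1, ⟨y, x⟩, h2, h3⟩ := Finset.mem_filter.1 hc
    refine ⟨?_, x, y, fun h => h2 (mem_sw.2 h), ?_⟩
    · rw [Fam_eq, Finset.mem_coe, Finset.mem_image]
      exact ⟨c, h1, rfl⟩
    · rw [eval_FMV]
      exact h3

lemma Fam_finite (H : ℕ) (S : Finset (ℤ × ℤ)) : (Fam d H S).Finite := by
  classical
  rw [Fam_eq]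
  exact Finset.finite_toSet _

lemma ncard_Fam (H : ℕ) (S : Finset (ℤ × ℤ)) :
    (Fam d H S).ncard = (VB (Lam d (sw S)) H).card := by
  classical
  rw [Fam_eq, Set.ncard_coe_finset, Finset.card_image_of_injective _ FM_injectiveV]

lemma eval_FM_abs {H B : ℕ} {x y : ℤ} (hx : |x| ≤ (B : ℤ)) (hy : |y| ≤ (B : ℤ))
    {c : ↥(Ix d) → ℤ} (hc : ∀ i, |c i| ≤ (H : ℤ)) :
    |ev x y (PG c)| ≤ (((Ix d).card * H * (B + 1) ^ d : ℕ) : ℤ) := by
  rw [← eval_FMV, FM, map_sum]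
  refine (Finset.abs_sum_le_sum_abs _ _).trans ?_
  have h1 : ∀ p ∈ (Finset.univ : Finset ↥(Ix d)),
      |MvPolynomial.eval ![y, x] (MvPolynomial.monomial
        (Finsupp.single 0 p.1.1 + Finsupp.single 1 p.1.2) (c p))| ≤
        ((H * (B + 1) ^ d : ℕ) : ℤ) := by
    intro p _
    rw [MvPolynomial.eval_monomial, Finsupp.prod_fintype _ _ (by simp), Fin.prod_univ_two]
    have e1 : ((Finsupp.single 0 p.1.1 + Finsupp.single 1 p.1.2 : Fin 2 →₀ ℕ)) 0 = p.1.1 := by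
      simp
    have e2 : ((Finsupp.single 0 p.1.1 + Finsupp.single 1 p.1.2 : Fin 2 →₀ ℕ)) 1 = p.1.2 := by
      simp
    rw [e1, e2]
    simp only [Matrix.cons_val_zero, Matrix.cons_val_one]
    rw [abs_mul, abs_mul, abs_pow, abs_pow]
    have hB : (0 : ℤ) ≤ B := by positivity
    have h2 : |y| ^ p.1.1 ≤ ((B : ℤ) + 1) ^ p.1.1 :=
      pow_le_pow_left₀ (abs_nonneg _) (by linarith) _
    have h3 : |x| ^ p.1.2 ≤ ((B : ℤ) + 1) ^ p.1.2 :=
      pow_le_pow_left₀ (abs_nonneg _) (by linarith) _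
    have h4 : |y| ^ p.1.1 * |x| ^ p.1.2 ≤ ((B : ℤ) + 1) ^ d := by
      calc |y| ^ p.1.1 * |x| ^ p.1.2 ≤ ((B : ℤ) + 1) ^ p.1.1 * ((B : ℤ) + 1) ^ p.1.2 :=
            mul_le_mul h2 h3 (by positivity) (by positivity)
        _ = ((B : ℤ) + 1) ^ (p.1.1 + p.1.2) := by rw [pow_add]
        _ ≤ ((B : ℤ) + 1) ^ d := pow_le_pow_right₀ (by linarith) (mem_Ix.1 p.2)
    push_cast
    exact mul_le_mul (hc p) h4 (by positivity) (by positivity)
  refine (Finset.sum_le_card_nsmul _ _ _ h1).trans ?_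
  rw [Finset.card_univ, Fintype.card_coe, nsmul_eq_mul]
  push_cast
  rw [mul_assoc]

/-- the family is large (pigeonhole principle) -/
lemma Fam_large (H B : ℕ) (S : Finset (ℤ × ℤ))
    (hB : ∀ p ∈ S, |p.1| ≤ (B : ℤ) ∧ |p.2| ≤ (B : ℤ)) :
    (H + 1) ^ ((d + 1) * (d + 2) / 2) ≤
      (2 * (((d + 1) * (d + 2) / 2) * H * (B + 1) ^ d) + 1) ^ S.card * (Fam d H S).ncard := by
  classical
  obtain ⟨N, hN⟩ : ∃ N, N = (d + 1) * (d + 2) / 2 := ⟨_, rfl⟩
  obtain ⟨M, hM⟩ : ∃ M, M = N * H * (B + 1) ^ d := ⟨_, rfl⟩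
  rw [ncard_Fam, ← hN, ← hM]
  have hB' : ∀ p ∈ sw S, |p.1| ≤ (B : ℤ) ∧ |p.2| ≤ (B : ℤ) := by
    rintro ⟨x, y⟩ hp
    have := hB (y, x) (mem_sw.1 hp)
    exact ⟨this.2, this.1⟩
  obtain ⟨Q, hQ⟩ : ∃ Q : Finset (↥(Ix d) → ℤ),
      Q = Fintype.piFinset (fun _ => Finset.Icc (0 : ℤ) H) := ⟨_, rfl⟩
  have hQc : Q.card = (H + 1) ^ N := by
    rw [hQ, Fintype.card_piFinset]
    simp only [Int.card_Icc, sub_zero, Finset.prod_const, Finset.card_univ, Fintype.card_coe]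
    rw [card_Ix, ← hN]
    congr 1
  have hQm : ∀ c ∈ Q, ∀ i, 0 ≤ c i ∧ c i ≤ (H : ℤ) := by
    intro c hc i
    rw [hQ, Fintype.mem_piFinset] at hc
    exact Finset.mem_Icc.1 (hc i)
  obtain ⟨f, hf⟩ : ∃ f : (↥(Ix d) → ℤ) → (↥(sw S) → ℤ),
      f = fun c p => ev p.1.1 p.1.2 (PG c) := ⟨_, rfl⟩
  have him : (Q.image f).card ≤ (2 * M + 1) ^ S.card := by
    have h1 : Q.image f ⊆ Bx ↥(sw S) M := by
      intro g hg
      rw [Finset.mem_image] at hg
      obtain ⟨c, hc, rfl⟩ := hg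
      rw [mem_Bx]
      intro p
      rw [hf]
      have h2 := hB' p.1 p.2
      have h3 := eval_FM_abs (H := H) h2.1 h2.2 (c := c) (fun i => by
        have := hQm c hc i
        rw [abs_of_nonneg this.1]
        exact this.2)
      rw [card_Ix, ← hN, ← hM] at h3
      exact h3
    refine (Finset.card_le_card h1).trans ?_
    rw [card_Bx, Fintype.card_coe, card_sw]
  have hfib := Finset.card_le_mul_card_image (f := f) Q (VB (Lam d (sw S)) H).card (by
    intro b hb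
    rw [Finset.mem_image] at hb
    obtain ⟨c0, hc0, rfl⟩ := hb
    apply Finset.card_le_card_of_injOn (fun c => c - c0)
    · intro c hc
      rw [Finset.mem_coe, Finset.mem_filter] at hc
      rw [Finset.mem_coe, mem_VB]
      constructor
      · rw [mem_Bx]
        intro i
        have h1 := hQm c hc.1 i
        have h2 := hQm c0 hc0 i
        show |c i - c0 i| ≤ (H : ℤ)
        rw [abs_le]
        constructor <;> linarith
      · rw [mem_Lam]
        intro p hp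
        have h1 : PG (c - c0) = PG c - PG c0 := by
          ext j i
          simp only [coeff_PG, Polynomial.coeff_sub, cf]
          split_ifs
          · rfl
          · simp
        rw [h1, map_sub, sub_eq_zero]
        have h2 := congrFun hc.2 ⟨p, hp⟩
        rw [hf] at h2
        exact h2
    · intro c _ c' _ h
      exact sub_left_injective h)
  rw [← hQc]
  calc Q.card ≤ (VB (Lam d (sw S)) H).card * (Q.image f).card := hfib
    _ ≤ (VB (Lam d (sw S)) H).card * (2 * M + 1) ^ S.card := Nat.mul_le_mul_left _ him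
    _ = _ := Nat.mul_comm _ _

/-- **The integer points of almost all plane curves through given points.**  Let `S` be a finite
set of integer points with coordinates of absolute value at most `B`, let `d ≥ 2 |S| + 4` and
`H ≥ 1`.  The set of all `F ∈ ℤ[x, y]` of total degree at most `d`, with all coefficients in
`[-H, H]`, which vanish on `S`, is finite, it has at least
`(H + 1) ^ N / (2 N H (B + 1) ^ d + 1) ^ |S|` elements, `N = (d + 1) (d + 2) / 2`, and all but a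
proportion `K H ^ (-1 / (10 ^ 4 d))` of its elements have NO integer zero outside `S`. -/
theorem result (S : Finset (ℤ × ℤ)) (B d : ℕ) (hd : 2 * S.card + 4 ≤ d)
    (hB : ∀ p ∈ S, |p.1| ≤ (B : ℤ) ∧ |p.2| ≤ (B : ℤ)) (H : ℕ) (hH : 1 ≤ H) :
    (Fam d H S).Finite ∧
    (H + 1) ^ ((d + 1) * (d + 2) / 2) ≤
      (2 * (((d + 1) * (d + 2) / 2) * H * (B + 1) ^ d) + 1) ^ S.card * (Fam d H S).ncard ∧
    ((Exc d H S).ncard : ℝ) ≤
      K d B S.card * (H : ℝ) ^ (-(1 / (10 ^ 4 * (d : ℝ)))) * (Fam d H S).ncard := by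
  classical
  refine ⟨Fam_finite H S, Fam_large H B S hB, ?_⟩
  have h1 := vec_boundV (d := d) (sw S) (by rw [card_sw]; exact hd) (B := B) (by
    rintro ⟨x, y⟩ hp
    have := hB (y, x) (mem_sw.1 hp)
    exact ⟨this.2, this.1⟩) hH
  rw [card_sw] at h1
  rw [Exc_eq, Set.ncard_coe_finset, Finset.card_image_of_injective _ FM_injectiveV, ncard_Fam]
  unfold Cv Vo CC at h1
  unfold K
  convert h1 using 3

end Pool.Agent.Q138.AJ.R2d259bb
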