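import Pool.Agent.H674R3.CovF

/-!
Effective Siegel theorem in the fibres `F(x, y) = t` of a polynomial with squarefree leading form,
for ALL integers `t` outside the values of boundedly many polynomials of degree `d`.
-/

set_option autoImplicit false

namespace Pool.Agent.Q138.AJ.R2d259bc

/-- Let `F ∈ ℤ[x, y]` have degree `d ≥ 4` and a leading form that is squarefree over `ℚ`; let `h(F)`
be the sum of the absolute values of its coefficients. There are at most `10^9 36^d (d+1)^8`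
polynomials `U ∈ ℤ[k]`, each of degree exactly `d` or constant, such that for EVERY integer `t` that
is not a value `U(k)`, `k ∈ ℤ`, of one of them, all integer solutions of `F(x, y) = t` satisfy
`max(|x|, |y|) ≤ ((d+1) (h(F) + |t|))^C`, `C = 10^17 1296^d (d+1)^15`. In particular, for every
`m`, at most `10^9 36^d (d+1)^9 (2m+1)` integers `t` with `|t| ≤ m^d` violate this. -/
theorem result (d : ℕ) (hd : 4 ≤ d) (F : MvPolynomial (Fin 2) ℤ) (hF : F.totalDegree = d)
    (hsq : Squarefree (MvPolynomial.map (Int.castRingHom ℚ)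
      (MvPolynomial.homogeneousComponent d F))) :
    (∃ S : Finset (Polynomial ℤ), S.card ≤ 10 ^ 9 * 36 ^ d * (d + 1) ^ 8 ∧
      (∀ U ∈ S, U.natDegree = d ∨ U.natDegree = 0) ∧
      ∀ t : ℤ, (∀ U ∈ S, ∀ k : ℤ, U.eval k ≠ t) →
        ∀ x y : ℤ, MvPolynomial.eval ![x, y] F = t →
          max x.natAbs y.natAbs ≤ ((d + 1) * (∑ m ∈ F.support, (F.coeff m).natAbs + t.natAbs)) ^
            (10 ^ 17 * 1296 ^ d * (d + 1) ^ 15)) ∧
    ∀ m : ℕ, Set.encard {t : ℤ | |t| ≤ (m : ℤ) ^ d ∧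
      ∃ x y : ℤ, MvPolynomial.eval ![x, y] F = t ∧
        ((d + 1) * (∑ m ∈ F.support, (F.coeff m).natAbs + t.natAbs)) ^
          (10 ^ 17 * 1296 ^ d * (d + 1) ^ 15) < max x.natAbs y.natAbs}
      ≤ (10 ^ 9 * 36 ^ d * (d + 1) ^ 9 * (2 * m + 1) : ℕ) := by
  subst hF
  obtain ⟨S, h1, h2, h3, h4⟩ := Pool.Agent.H674R3.main9 F hd hsq
  refine ⟨⟨S, h1.trans (Pool.Agent.H674R3.kL_le _), h2, h3⟩, ?_⟩
  intro m
  refine (h4 m).trans ?_
  have h5 : Pool.Agent.H674R3.kL F.totalDegree * (F.totalDegree * (2 * m + 1))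
      ≤ 10 ^ 9 * 36 ^ F.totalDegree * (F.totalDegree + 1) ^ 9 * (2 * m + 1) := by
    calc Pool.Agent.H674R3.kL F.totalDegree * (F.totalDegree * (2 * m + 1))
        ≤ 10 ^ 9 * 36 ^ F.totalDegree * (F.totalDegree + 1) ^ 8
          * ((F.totalDegree + 1) * (2 * m + 1)) :=
          Nat.mul_le_mul (Pool.Agent.H674R3.kL_le _) (Nat.mul_le_mul_right _ (by omega))
      _ = _ := by ring
  exact_mod_cast h5

end Pool.Agent.Q138.AJ.R2d259bc
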