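import Pool.Agent.Y732.Main

/-!
# Schneider's conjecture: the canonical `p`-adic heights of marked integral points

`(A, x, y)` stands for the elliptic curve `E : y² = x³ + A x + B` through the integral point
`P = (x, y)`, `y ≠ 0`, `B = y² - x³ - A x`, and `Marked (A, x, y)` says that `P` is nonsingular
modulo all primes. In every box all of whose sides are at least `N`, at most the proportion
`8 p⁴ / N` of all triples consists of marked points which are ordinary at `p` and for which the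
`p`-adic height of `P` vanishes, or Schneider's conjecture at `p` fails although `E(ℚ)` has rank
one. On the other hand each residue class modulo `p` of good reduction contains at least the
proportion `1 / (64 p³)` of marked triples.
-/

set_option autoImplicit false

namespace Pool.Agent.Q138.AJ.R3550b5a

open Pool.Agent.Y732 Finset

open scoped Classical in
theorem result :
    (∀ (S : Finset ℕ), (∀ p ∈ S, p.Prime ∧ 5 ≤ p) →
      ∀ (N N₁ N₂ N₃ : ℕ) (a₁ a₂ a₃ : ℤ), N ≤ N₁ → N ≤ N₂ → N ≤ N₃ →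
        (((Ico a₁ (a₁ + N₁)) ×ˢ (Ico a₂ (a₂ + N₂)) ×ˢ (Ico a₃ (a₃ + N₃))).filter
          fun v : ℤ × ℤ × ℤ => Marked v ∧ ∃ p ∈ S, ∃ _ : Fact p.Prime,
            IsOrdinary p v.1 (Bf v.1 v.2.1 v.2.2) ∧ ¬ NonDeg p v).card * N ≤
          8 * (∑ p ∈ S, p ^ 4) * (N₁ * N₂ * N₃)) ∧
    (∀ p : ℕ, p.Prime → 5 ≤ p → ∀ A₀ x₀ y₀ : ℤ,
      ¬ (p : ℤ) ∣ 4 * A₀ ^ 3 + 27 * Bf A₀ x₀ y₀ ^ 2 →
      ∀ (N : ℕ) (a₁ a₂ : ℤ), 224 * p ^ 2 ≤ N →
        N ^ 3 ≤ 64 * p ^ 3 *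
          (((Ico a₁ (a₁ + N)) ×ˢ (Ico a₂ (a₂ + N)) ×ˢ (Ico (1 : ℤ) (1 + N))).filter
            fun v : ℤ × ℤ × ℤ => (v.1 ≡ A₀ [ZMOD p] ∧ v.2.1 ≡ x₀ [ZMOD p] ∧
              v.2.2 ≡ y₀ [ZMOD p]) ∧ Marked v).card) :=
  ⟨fun S hS _ _ _ _ _ _ _ h₁ h₂ h₃ => all_card S hS h₁ h₂ h₃,
    fun p hp hp5 A₀ x₀ y₀ hg N a₁ a₂ hN => fam_card a₁ a₂ N p hp5 hp hN A₀ x₀ y₀ hg⟩

end Pool.Agent.Q138.AJ.R3550b5a
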