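import Pool.Agent.Y732.FamCard
import Pool.Agent.Y732.LineFam

/-!
# Schneider's conjecture: `p`-adic regulators in families of elliptic curves with sections

A `Family d r` is a Weierstrass equation over `ℤ[t₁, …, t_d]` with sections `P 0 1, …, P 0 r`, all
homogeneous for some weights of the parameters; the sections and their differences
`P i j = P 0 j - P 0 i` are given by polynomials. `F.Marked v` says that at the parameter
`v ∈ ℤ^d` the member is an elliptic curve and the points `P i j` are in lowest terms and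
nonsingular modulo all primes. `F.K` is the height pairing of the sections over the function
field. If it is nondegenerate, then in every box with sides at least `N₀` at most the proportion
`2^d r |det K| p⁴ / N₀^(1/r)` of the parameters is marked, ordinary at `p` and such that the
`p`-adic regulator of the `r` points vanishes, or Schneider's conjecture at `p` fails although
the rank is `r`.

The family `lineFamily` consists of all curves `y² + a₁ x y + a₃ y = x (x - m) (x - n)`, with
`r = 2`, `P 0 1 = (0, 0)`, `P 1 2 = (m, 0)`, `P 0 2 = -(n, 0)`. Each residue class modulo `p` of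
good reduction contains at least the proportion `1 / (10368 p⁴)` of marked members.
-/

set_option autoImplicit false

namespace Pool.Agent.Q138.AJ.R3550b5b

open Pool.Agent.Y732 Finset

open scoped Classical in
theorem result :
    (∀ (d r : ℕ) (F : Family d r), 0 < r → F.K.det ≠ 0 →
      ∀ S : Finset ℕ, (∀ p ∈ S, p.Prime ∧ 5 ≤ p) →
      ∀ (c : Fin d → ℤ) (N : Fin d → ℕ) (N₀ : ℕ), (∀ l, N₀ ≤ N l) →
        (((Fintype.piFinset fun l => Ico (c l) (c l + N l)).filter fun v => F.Marked v ∧
          ∃ p ∈ S, ∃ _ : Fact p.Prime, IsOrdinaryW p (F.curve v) ∧ ¬ F.NonDeg v p).card : ℝ) *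
            (N₀ : ℝ) ^ ((1 : ℝ) / r) ≤
          2 ^ d * r * |(F.K.det : ℝ)| * (∑ p ∈ S, (p : ℝ) ^ 4) * ∏ l, (N l : ℝ)) ∧
    lineFamily.K.det = 3 ∧
    (∀ p : ℕ, p.Prime → 5 ≤ p → ∀ v₀ : Fin 4 → ℤ, ¬ (p : ℤ) ∣ (lineFamily.curve v₀).Δ →
      ∀ (N : ℕ) (a b : ℤ), 4608 * p ^ 2 ≤ N →
        N ^ 4 ≤ 10368 * p ^ 4 * ((Fintype.piFinset fun l =>
          Ico ((![a, 1, b, b] : Fin 4 → ℤ) l) ((![a, 1, b, b] : Fin 4 → ℤ) l + N)).filter
            fun v => (∀ l, v l ≡ v₀ l [ZMOD p]) ∧ lineFamily.Marked v).card) :=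
  ⟨fun _ _ F hr hK S hS c N N₀ hN => family_card F hr hK S hS c N N₀ hN, lineFamily_K,
    fun p hp hp5 v₀ hg N a b hN => line_card a b N p hp5 hp hN v₀ hg⟩

end Pool.Agent.Q138.AJ.R3550b5b
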