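import Pool.Agent.Y673.CB.Final

/-!
# MP_4a0cc8_nt: few curves are congruent to a given curve modulo some large number

Let `d ≥ 1` and `ε > 0`.  There is `n₀` such that for every number field `K` of degree `d` there are
`C`, `κ` with the following property.  For EVERY elliptic curve `E₀ : y² = x³ + A₀x + B₀` over `K`,
`A₀`, `B₀` integral, and every `X ≥ 1` there are at most `C |N(4A₀³ + 27B₀²)| ^ κ X ^ ε` elliptic curves
`E` over `K`, up to isomorphism over `K`, with `j(E)` of height at most `X` for which
`E[n] ≅ E₀[n]` for some integer `n ≥ n₀`.  (There are infinitely many curves with `j(E)` of height at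
most `X`; their invariants are the about `X²` elements of `K` of height at most `X`.)  Here `n` is
arbitrary, and `n₀` does not depend on `E₀`.

Proof.  A large `n` has a prime factor `p ≥ N`, or a large prime power factor `q^k`, `q < N`.  Let `v` be
a place not dividing `6`, the discriminant of `K`, the primes `q < N` and the discriminant of `E₀`.
(1) If `v(j(E)) < 0` then `p ∣ v(j(E))`, respectively `q^k ∣ 60 v(j(E))` (`FM.loc`, `FM.tameM`).
(2) If `v(j(E)) ≥ 0` then `12 ∣ v(4A³ + 27B²)`, that is, `E` has good reduction (`FM.locG`, `FM.tameG`).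
For `v ∣ p` these facts are not classical consequences of the criterion of Néron-Ogg-Shafarevich.  In
(1) one compares the ramification of points in the kernel of the reduction of `E₀` and of points over
the node of `E`; in (2) `E` is a twist, by a character of order dividing `12` of the inertia group, of a
curve with good reduction, and the action of the inertia group on `E₀[p]` is compared with that on
`E[p]`, by points not in the kernel of the reduction in the ordinary case, and by the group law on the
kernel and the transitivity of the inertia group in the supersingular case.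
By (1) there are few possibilities for the set of poles of `j`.  By (1) and (2) the field `F` of a point
of order two of `E` is ramified only at bad places of `E₀` and at poles of `j`, so its discriminant is
small, and by a bound of Schmidt's type there are few such fields `F`.  If `e` is a root of the cubic,
`ν = (3e² + A)/(3e² + 4A)` satisfies `j ν² = 256 (1 - ν)³` and is a unit outside the bad places and the
poles of `j`, and the number of such elements of `F` of bounded height is bounded uniformly in `F`.
Given `j`, the discriminant of `E` modulo twelfth powers has few possibilities by (2).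
-/

set_option autoImplicit false

open WeierstrassCurve NumberField
open scoped Classical

namespace Pool.Agent.Q138.AJ.R4a0cc8

section
variable {K : Type} [Field K]

/-- The curve `y² = x³ + Ax + B` over `K`. -/
def curve (A B : K) : WeierstrassCurve K := ⟨0, 0, 0, A, B⟩

/-- The group of its points over the algebraic closure of `K`. -/
abbrev Points (A B : K) : Type := ((curve A B).baseChange (AlgebraicClosure K)).toAffine.Point

/-- The action of a `K`-automorphism `σ` of the algebraic closure on the points. -/
noncomputable def galois (A B : K) (σ : AlgebraicClosure K ≃ₐ[K] AlgebraicClosure K) :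
    Points A B →+ Points A B :=
  WeierstrassCurve.Affine.Point.map (σ : AlgebraicClosure K →ₐ[K] AlgebraicClosure K)

/-- The `n`-torsion of `y² = x³ + Ax + B` and that of `y² = x³ + A'x + B'` are isomorphic as Galois
modules: some map between the groups of points restricts to a bijective additive map of the
`n`-torsion which commutes with the Galois group. -/
def Congruent (n : ℕ) (A B A' B' : K) : Prop :=
  ∃ f : Points A B → Points A' B', (∀ P Q, n • P = 0 → n • Q = 0 → f (P + Q) = f P + f Q) ∧
    Set.BijOn f {P | n • P = 0} {Q | n • Q = 0} ∧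
    ∀ (σ : AlgebraicClosure K ≃ₐ[K] AlgebraicClosure K) (P : Points A B), n • P = 0 →
      f (galois A B σ P) = galois A' B' σ (f P)

/-- The invariant of `y² = x³ + Ax + B`. -/
noncomputable def jInvariant (A B : K) : K := 6912 * A ^ 3 / (4 * A ^ 3 + 27 * B ^ 2)

/-- The curves `y² = x³ + Ax + B` and `y² = x³ + A'x + B'` are isomorphic over `K`. -/
def Isomorphic (A B A' B' : K) : Prop := ∃ t : K, t ≠ 0 ∧ A' = t ^ 4 * A ∧ B' = t ^ 6 * B

end

/-- **Few curves are congruent to a given curve modulo some `n ≥ n₀`.** -/
theorem result (d : ℕ) (ε : ℝ) (hε : 0 < ε) : ∃ n₀ : ℕ,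
    ∀ (K : Type) [Field K] [NumberField K], Module.finrank ℚ K = d → ∃ C κ : ℝ,
      ∀ A₀ B₀ : 𝓞 K, 4 * A₀ ^ 3 + 27 * B₀ ^ 2 ≠ 0 → ∀ X : ℝ, 1 ≤ X →
      -- any finite set of pairwise not isomorphic curves `y² = x³ + Ax + B`
      ∀ 𝓔 : Finset (K × K), (∀ e ∈ 𝓔, ∀ e' ∈ 𝓔, Isomorphic e.1 e.2 e'.1 e'.2 → e = e') →
        -- with `j` of height at most `X` and congruent to `E₀` modulo some `n ≥ n₀`
        (∀ e ∈ 𝓔, 4 * e.1 ^ 3 + 27 * e.2 ^ 2 ≠ 0 ∧
          Height.mulHeight₁ (jInvariant e.1 e.2) ≤ X ∧
          ∃ n : ℕ, n₀ ≤ n ∧ Congruent n e.1 e.2 (A₀ : K) (B₀ : K)) →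
        (𝓔.card : ℝ) ≤ C * |((Algebra.norm ℤ (4 * A₀ ^ 3 + 27 * B₀ ^ 2) : ℤ) : ℝ)| ^ κ *
          X ^ ε := by
  obtain ⟨n₀, h⟩ := Pool.Agent.Y673.CB.few_all d hε
  refine ⟨n₀, fun K _ _ hK => ?_⟩
  obtain ⟨C, κ, -, -, h'⟩ := h K hK
  refine ⟨C, κ, fun A₀ B₀ h0 X hX 𝓔 hiso hE => ?_⟩
  have h1 := h' A₀ B₀ h0 X hX 𝓔 (fun e he => by
    obtain ⟨h2, h3, n, h4, f, h5, h6, h7⟩ := hE e he
    exact ⟨h3, h2, n, h4, f, h5, h6, h7⟩) hiso
  rw [Nat.cast_natAbs, Int.cast_abs] at h1
  exact h1

end Pool.Agent.Q138.AJ.R4a0cc8
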