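import Mathlib
import Pool.Agent.H705R2.LW.Rat

namespace Pool.Agent.Q138.AJ.R4eb8d9a

open Finset

/-- the Lang-Waldschmidt inequality with constant `C = 1` fails for the rational number `L`, for
some exponent `1 + η`, `η ≥ 0`, in some representation `L = a₁^b₁ ⋯ aₘ^bₘ` (any `m`) by nonzero
integers: `|L - 1| < B / (|b₁| ⋯ |bₘ| |a₁| ⋯ |aₘ|) ^ (1 + η)`, `B = max |bᵢ|` -/
def Fails (L : ℚ) : Prop :=
  ∃ (η : ℝ) (m : ℕ) (a b : Fin m → ℤ), 0 ≤ η ∧ (∀ i, a i ≠ 0) ∧ (∀ i, b i ≠ 0) ∧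
    ∏ i, ((a i : ℚ) ^ (b i)) = L ∧
    |(L : ℝ) - 1| < ((univ.sup fun i => (b i).natAbs : ℕ) : ℝ) /
      ((∏ i, |((b i : ℤ) : ℝ)|) * (∏ i, |((a i : ℤ) : ℝ)|)) ^ (1 + η)

/-- the rational numbers `L ≠ 1` of height at most `X` for which the inequality fails -/
def Exceptional (X : ℕ) : Set ℚ := {L | L ≠ 1 ∧ L.num.natAbs ≤ X ∧ L.den ≤ X ∧ Fails L}

/-- For every `ε > 0` there is `C` such that for every `X ≥ 1` the Lang-Waldschmidt inequality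
with constant `1` fails for at most `C X ^ (1/2 + ε)` rational numbers of height at most `X`. -/
theorem result (ε : ℝ) (hε : 0 < ε) :
    ∃ C : ℝ, ∀ X : ℕ, 1 ≤ X →
      (Exceptional X).Finite ∧ ((Exceptional X).ncard : ℝ) ≤ C * (X : ℝ) ^ (1 / 2 + ε) := by
  obtain ⟨C, hC⟩ := Pool.Agent.H705R2.LW.count_rat ε hε
  refine ⟨C, fun X hX => hC X hX _ ?_⟩
  rintro L ⟨h1, hn, hd, η, m, a, b, hη, ha, hb, hL, hv⟩
  refine ⟨?_, h1, hn, hd, Pool.Agent.H705R2.LW.key_ineq a b ha hb L hL η hη hv⟩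
  rw [← hL]
  exact prod_ne_zero_iff.mpr fun i _ => zpow_ne_zero _ (by exact_mod_cast ha i)

end Pool.Agent.Q138.AJ.R4eb8d9a
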