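import Pool.Agent.TH818.AP.LW

/-!
# Polynomial lower bounds for `|a_1^{b_1} ⋯ a_m^{b_m} - 1|` for almost all `m`-tuples of integers
-/

set_option autoImplicit false

namespace Pool.Agent.Q138.AJ.R4eb8d9b

/-- The `m`-tuples `a` of integers in `[N, 2N]` for which there are integers `b_1, …, b_m`, not all zero and of absolute
value at most `N ^ κ`, with `|a_1 ^ b_1 ⋯ a_m ^ b_m - 1| ≤ N ^ (-E)`. -/
def Exceptional (m N : ℕ) (κ E : ℝ) : Set (Fin m → ℕ) :=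
  {a | (∀ j, N ≤ a j ∧ a j ≤ 2 * N) ∧
    ∃ b : Fin m → ℤ, b ≠ 0 ∧ (∀ j, |(b j : ℝ)| ≤ (N : ℝ) ^ κ) ∧ |∏ j, (a j : ℝ) ^ (b j) - 1| ≤ (N : ℝ) ^ (-E)}

theorem abs_log_le {x δ : ℝ} (hδ : δ ≤ 1 / 2) (h : |x - 1| ≤ δ) : |Real.log x| ≤ 2 * δ := by
  obtain ⟨h1, h2⟩ := abs_le.1 h
  have hx : 1 / 2 ≤ x := by linarith
  have hxp : 0 < x := by linarith
  have h3 := Real.log_le_sub_one_of_pos hxp
  have h4 := Real.one_sub_inv_le_log_of_pos hxp
  have hδ0 : 0 ≤ δ := (abs_nonneg _).trans h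
  have h5 : -(2 * δ) ≤ 1 - x⁻¹ := by
    have h6 : x⁻¹ ≤ 1 + 2 * δ := by
      rw [inv_le_iff_one_le_mul₀ hxp]
      nlinarith
    linarith
  rw [abs_le]
  constructor <;> linarith

/-- Let `m ≥ 1`, `κ ≥ 0` and `β > m / (m + 1)`. There are `E` and `C` such that for all `N ≥ 1` the number of exceptional
`m`-tuples is at most `C N^(m - 1 + β)`. -/
theorem result (m : ℕ) (hm : 1 ≤ m) (κ β : ℝ) (hκ : 0 ≤ κ) (hβ : (m : ℝ) / ((m : ℝ) + 1) < β) :
    ∃ E C : ℝ, ∀ N : ℕ, 1 ≤ N → (Exceptional m N κ E).Finite ∧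
      ((Exceptional m N κ E).ncard : ℝ) ≤ C * (N : ℝ) ^ ((m : ℝ) - 1 + β) := by
  classical
  obtain ⟨n, rfl⟩ : ∃ n, m = n + 1 := ⟨m - 1, by omega⟩
  have hβ0 : 0 < β := lt_of_le_of_lt (by positivity) hβ
  obtain ⟨B, C, T0, hC, hT0, h⟩ := TH818.AP.homW n κ β hκ (by
    refine lt_of_le_of_lt (le_of_eq ?_) hβ
    push_cast
    ring)
  set E : ℝ := max B 0 + 1 with hE
  set T1 : ℝ := max T0 2 with hT1
  have hfinbox : ∀ N : ℕ, Exceptional (n + 1) N κ E ⊆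
      (Fintype.piFinset fun _ : Fin (n + 1) => Finset.Icc N (2 * N) : Finset (Fin (n + 1) → ℕ)) :=
    fun N => TH818.AP.box_fin fun _ hx => hx.1
  refine ⟨E, C + (T1 + 1) ^ (n + 1), fun N hN => ?_⟩
  refine ⟨(Finset.finite_toSet _).subset (hfinbox N), ?_⟩
  have hN1 : (1 : ℝ) ≤ N := by exact_mod_cast hN
  have hone : 1 ≤ (N : ℝ) ^ (((n + 1 : ℕ) : ℝ) - 1 + β) := by
    refine Real.one_le_rpow hN1 ?_
    push_cast
    have : (0 : ℝ) ≤ n := by positivity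
    linarith
  have hT1' : (0 : ℝ) ≤ (T1 + 1) ^ (n + 1) := by positivity
  rcases le_or_gt T1 (N : ℝ) with hT | hT
  · have hN2 : (2 : ℝ) ≤ N := (le_max_right _ _).trans hT
    have hNp : (0 : ℝ) < N := by linarith
    have h1 := h N ((le_max_left _ _).trans hT)
    have hsub : Exceptional (n + 1) N κ E ⊆ {x : Fin (n + 1) → ℕ | (∀ j, N ≤ x j ∧ x j ≤ 2 * N) ∧
        ∃ c : Fin (n + 1) → ℤ, c ≠ 0 ∧ (∀ e, |(c e : ℝ)| ≤ (N : ℝ) ^ κ) ∧
          |∑ j, (c j : ℝ) * Real.log (x j)| ≤ (N : ℝ) ^ (-B)} := by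
      rintro x ⟨hx, c, hc0, hc, hcs⟩
      refine ⟨hx, c, hc0, hc, ?_⟩
      have hxp : ∀ j, (0 : ℝ) < x j := fun j => by
        have := (hx j).1
        have : 0 < x j := by omega
        exact_mod_cast this
      have hEN : (N : ℝ) ^ (-E) ≤ 1 / 2 := by
        calc (N : ℝ) ^ (-E) ≤ (N : ℝ) ^ (-1 : ℝ) :=
              Real.rpow_le_rpow_of_exponent_le hN1 (by rw [hE]; linarith [le_max_right B 0])
          _ = (N : ℝ)⁻¹ := Real.rpow_neg_one _
          _ ≤ 1 / 2 := by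
              rw [one_div]
              exact inv_anti₀ (by norm_num) hN2
      have h2 := abs_log_le hEN hcs
      rw [Real.log_prod (fun j _ => (zpow_pos (hxp j) _).ne')] at h2
      simp only [Real.log_zpow] at h2
      refine h2.trans ?_
      calc 2 * (N : ℝ) ^ (-E) ≤ (N : ℝ) ^ (1 : ℝ) * (N : ℝ) ^ (-E) := by
            rw [Real.rpow_one]
            gcongr
        _ = (N : ℝ) ^ (1 - E) := by
            rw [← Real.rpow_add hNp]
            ring_nf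
        _ ≤ (N : ℝ) ^ (-B) :=
            Real.rpow_le_rpow_of_exponent_le hN1 (by rw [hE]; linarith [le_max_left B 0])
    have hle : ((Exceptional (n + 1) N κ E).ncard : ℝ) ≤ C * (N : ℝ) ^ (((n + 1 : ℕ) : ℝ) - 1 + β) := by
      refine le_trans ?_ h1
      exact_mod_cast Set.ncard_le_ncard hsub
        ((Finset.finite_toSet _).subset (TH818.AP.box_fin fun _ hx => hx.1))
    nlinarith
  · have h2 := Set.ncard_le_ncard (hfinbox N) (Finset.finite_toSet _)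
    rw [Set.ncard_coe_finset, Fintype.card_piFinset, Finset.prod_const, Finset.card_univ, Fintype.card_fin,
      Nat.card_Icc] at h2
    have h3 : 2 * N + 1 - N = N + 1 := by omega
    rw [h3] at h2
    have h4 : ((Exceptional (n + 1) N κ E).ncard : ℝ) ≤ ((N : ℝ) + 1) ^ (n + 1) := by exact_mod_cast h2
    have h5 : ((N : ℝ) + 1) ^ (n + 1) ≤ (T1 + 1) ^ (n + 1) := pow_le_pow_left₀ (by positivity) (by linarith) _
    nlinarith

end Pool.Agent.Q138.AJ.R4eb8d9b
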