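import Mathlib
import Pool.Agent.Y913.Zm.Spc

/-!
# `A X + B Y = C Z` in products of bounded spread: all degrees

For all positive integers `A`, `B`, `C`, all `S`, `Q` and `ε > 0` there are `R` and `C₀` such that for
all `T ≥ 1`: the solutions of `A X + B Y = C Z` with `gcd (X, Y) ≤ Q * rad (gcd (X, Y))` in products
of spread at most `S`, of degrees at least `R` (no upper bound), with all factors at most `T`, have at
most `C₀ * T ^ ε` different ratios `X : Y : Z`; and at most `C₀ * T ^ ε` of these solutions have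
`gcd (X, Y) ≤ Q`.
-/

set_option autoImplicit false

namespace Pool.Agent.Q138.AJ.R4ffbf9

/-- `X` has a product representation of spread at most `S`, of degree at least `R`, with all
factors at most `T` -/
def IsProduct (S T R X : ℕ) : Prop :=
  ∃ l : List ℕ, l.prod = X ∧ R ≤ l.length ∧ (∀ a ∈ l, 1 ≤ a ∧ a ≤ T) ∧
    ∀ a ∈ l, ∀ a' ∈ l, a ≤ a' + S

/-- the solutions `(X, Y, Z)` -/
def Solutions (S Q T R A B C : ℕ) : Set (ℕ × ℕ × ℕ) :=
  {w | A * w.1 + B * w.2.1 = C * w.2.2 ∧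
    Nat.gcd w.1 w.2.1 ≤ Q * ∏ p ∈ (Nat.gcd w.1 w.2.1).primeFactors, p ∧
    IsProduct S T R w.1 ∧ IsProduct S T R w.2.1 ∧ IsProduct S T R w.2.2}

/-- the ratios `A X / (C Z)` of the solutions; two solutions have the same ratio if and only if they
are proportional -/
def Ratios (S Q T R A B C : ℕ) : Set ℚ :=
  {t | ∃ w ∈ Solutions S Q T R A B C, t = ((A * w.1 : ℕ) : ℚ) / ((C * w.2.2 : ℕ) : ℚ)}

open Pool.Agent.Y913 Pool.Agent.Y913.Zm

theorem list_rep (b S : ℕ) : ∀ l : List ℕ, (∀ a ∈ l, b ≤ a ∧ a ≤ b + S) →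
    ∃ k : Fin (S + 1) → ℕ, l.prod = ∏ t : Fin (S + 1), (b + (t : ℕ)) ^ k t ∧
      ∑ t, k t = l.length := by
  intro l
  induction l with
  | nil =>
    intro _
    exact ⟨fun _ => 0, by simp, by simp⟩
  | cons a l ih =>
    intro h
    obtain ⟨k, h1, h2⟩ := ih fun a' ha' => h a' (List.mem_cons_of_mem _ ha')
    obtain ⟨h3, h4⟩ := h a List.mem_cons_self
    obtain ⟨t0, ht0⟩ : ∃ t0 : Fin (S + 1), (t0 : ℕ) = a - b := ⟨⟨a - b, by omega⟩, rfl⟩
    refine ⟨fun t => (if t = t0 then 1 else 0) + k t, ?_, ?_⟩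
    · have h5 : ∀ t : Fin (S + 1), (b + (t : ℕ)) ^ ((if t = t0 then 1 else 0) + k t) =
          (if t = t0 then b + (t : ℕ) else 1) * (b + (t : ℕ)) ^ k t := by
        intro t
        rw [pow_add]
        split_ifs <;> simp
      rw [List.prod_cons, h1, Finset.prod_congr rfl fun t _ => h5 t, Finset.prod_mul_distrib,
        Finset.prod_ite_eq' Finset.univ t0 (fun t => b + (t : ℕ)), if_pos (Finset.mem_univ _), ht0]
      congr 1
      omega
    · rw [Finset.sum_add_distrib, h2, Finset.sum_ite_eq' Finset.univ t0 (fun _ => 1),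
        if_pos (Finset.mem_univ _), List.length_cons]
      omega

theorem rep {S T R X : ℕ} (h : IsProduct S T ((S + 1) * R + 1) X) : Pw S T R X := by
  obtain ⟨l, h1, h2, h4, h5⟩ := h
  have hne : l.toFinset.Nonempty := by
    rw [List.toFinset_nonempty_iff]
    intro h
    rw [h] at h2
    simp at h2
  obtain ⟨b, hb, hmin⟩ := Finset.exists_min_image l.toFinset (fun a => a) hne
  have hbl : b ∈ l := List.mem_toFinset.1 hb
  obtain ⟨k, hk1, hk2⟩ := list_rep b S l fun a ha =>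
    ⟨hmin a (List.mem_toFinset.2 ha), h5 a ha b hbl⟩
  refine ⟨b, k, (h4 b hbl).1, (h4 b hbl).2, by rw [← h1, hk1], ?_⟩
  by_contra hcon
  push Not at hcon
  have h6 : ∑ t, k t ≤ ∑ _t : Fin (S + 1), R := Finset.sum_le_sum (fun t _ => (hcon t).le)
  rw [Finset.sum_const, Finset.card_univ, Fintype.card_fin, smul_eq_mul, hk2] at h6
  omega

theorem sw_of {S Q T R A B C : ℕ} {w : ℕ × ℕ × ℕ}
    (h : w ∈ Solutions S Q T ((S + 1) * R + 1) A B C) : Sw S Q T R A B C w := by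
  obtain ⟨h1, h2, h3, h4, h5⟩ := h
  exact ⟨h1, h2, rep h3, rep h4, rep h5⟩

theorem finite_bound {α : Type} {T : Set α} {N : ℝ}
    (h : ∀ Q : Finset α, (∀ q ∈ Q, q ∈ T) → (Q.card : ℝ) ≤ N) :
    T.Finite ∧ (T.ncard : ℝ) ≤ N := by
  have hfin : T.Finite := by
    by_contra hinf
    rw [← Set.Infinite] at hinf
    obtain ⟨Q, hQ1, hQ2⟩ := hinf.exists_subset_card_eq (⌊N⌋₊ + 1)
    have h3 := h Q (fun q hq => hQ1 hq)
    rw [hQ2] at h3
    push_cast at h3
    have := Nat.lt_floor_add_one N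
    linarith
  refine ⟨hfin, ?_⟩
  rw [Set.ncard_eq_toFinset_card _ hfin]
  exact h _ (fun q hq => by simpa using hq)

/-- the decomposition of a solution -/
theorem decomp {S Q T R A B C : ℕ} (hA : 0 < A) (hB : 0 < B) {w : ℕ × ℕ × ℕ}
    (h : Sw S Q T R A B C w) : 0 < Nat.gcd (A * w.1) (B * w.2.1) ∧
    A * w.1 = (Cp A B w).1 * Nat.gcd (A * w.1) (B * w.2.1) ∧
    B * w.2.1 = (Cp A B w).2 * Nat.gcd (A * w.1) (B * w.2.1) ∧
    C * w.2.2 = ((Cp A B w).1 + (Cp A B w).2) * Nat.gcd (A * w.1) (B * w.2.1) := by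
  obtain ⟨heq, -, hX, hY, -⟩ := h
  have h1 : A * w.1 = (Cp A B w).1 * Nat.gcd (A * w.1) (B * w.2.1) :=
    (Nat.div_mul_cancel (Nat.gcd_dvd_left _ _)).symm
  have h2 : B * w.2.1 = (Cp A B w).2 * Nat.gcd (A * w.1) (B * w.2.1) :=
    (Nat.div_mul_cancel (Nat.gcd_dvd_right _ _)).symm
  refine ⟨Nat.gcd_pos_of_pos_left _ (Nat.mul_pos hA hX.pos), h1, h2, ?_⟩
  rw [← heq, add_mul, ← h1, ← h2]

/-- **Products of small spread, all degrees.** -/
theorem result (S Q A B C : ℕ) (hA : 0 < A) (hB : 0 < B) (hC : 0 < C) (ε : ℝ) (hε : 0 < ε) :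
    ∃ (R : ℕ) (C₀ : ℝ), 0 < C₀ ∧ ∀ T : ℕ, 1 ≤ T →
      ((Ratios S Q T R A B C).Finite ∧
        ((Ratios S Q T R A B C).ncard : ℝ) ≤ C₀ * (T : ℝ) ^ ε) ∧
      ({w ∈ Solutions S Q T R A B C | Nat.gcd w.1 w.2.1 ≤ Q}.Finite ∧
        ({w ∈ Solutions S Q T R A B C | Nat.gcd w.1 w.2.1 ≤ Q}.ncard : ℝ) ≤
          C₀ * (T : ℝ) ^ ε) := by
  classical
  obtain ⟨R, C0, hR, hC0, h⟩ := sw_count S Q A B C hA hB hC ε hε
  refine ⟨(S + 1) * R + 1, C0 * (A * B * Q + 1), by positivity, ?_⟩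
  intro T hT
  have hTε : 0 < (T : ℝ) ^ ε := by
    have : (0 : ℝ) < (T : ℝ) := by exact_mod_cast hT
    positivity
  refine ⟨?_, ?_⟩
  · apply finite_bound
    intro F hF
    choose! w hw hqw using hF
    have h1 := h T hT (F.image (fun t => Cp A B (w t))) (by
      intro q hq
      obtain ⟨t, ht, rfl⟩ := Finset.mem_image.mp hq
      exact ⟨w t, sw_of (hw t ht), rfl⟩)
    have h2 : (F.image (fun t => Cp A B (w t))).card = F.card := by
      apply Finset.card_image_of_injOn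
      intro t ht t' ht' heq
      simp only at heq
      obtain ⟨g1, g2, g3, g4⟩ := decomp hA hB (sw_of (hw t (Finset.mem_coe.mp ht)))
      obtain ⟨k1, k2, k3, k4⟩ := decomp hA hB (sw_of (hw t' (Finset.mem_coe.mp ht')))
      rw [hqw t (Finset.mem_coe.mp ht), hqw t' (Finset.mem_coe.mp ht'), g2, g4, k2, k4, heq]
      have g1' : ((Nat.gcd (A * (w t).1) (B * (w t).2.1) : ℕ) : ℚ) ≠ 0 :=
        Nat.cast_ne_zero.mpr g1.ne'
      have k1' : ((Nat.gcd (A * (w t').1) (B * (w t').2.1) : ℕ) : ℚ) ≠ 0 :=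
        Nat.cast_ne_zero.mpr k1.ne'
      push_cast at g1' k1' ⊢
      rw [mul_div_mul_right _ _ g1', mul_div_mul_right _ _ k1']
    rw [h2] at h1
    have h3 : (0 : ℝ) ≤ (A * B * Q : ℝ) := by positivity
    nlinarith [mul_pos hC0 hTε]
  · apply finite_bound
    intro F hF
    have h1 := h T hT (F.image (Cp A B)) (by
      intro q hq
      obtain ⟨w, hw, rfl⟩ := Finset.mem_image.mp hq
      exact ⟨w, sw_of (hF w hw).1, rfl⟩)
    have h2 : F.card ≤ (F.image (Cp A B) ×ˢ Finset.range (A * B * Q + 1)).card := by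
      apply Finset.card_le_card_of_injOn
        (fun w => (Cp A B w, Nat.gcd (A * w.1) (B * w.2.1)))
      · intro w hw
        rw [Finset.mem_coe] at hw ⊢
        rw [Finset.mem_product]
        refine ⟨Finset.mem_image_of_mem _ hw, ?_⟩
        rw [Finset.mem_range, Nat.lt_succ_iff]
        obtain ⟨g1, g2⟩ := hF w hw
        have hX := (sw_of g1).2.2.1.pos
        have hg : 0 < Nat.gcd w.1 w.2.1 := Nat.gcd_pos_of_pos_left _ hX
        calc Nat.gcd (A * w.1) (B * w.2.1) ≤ A * B * Nat.gcd w.1 w.2.1 :=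
              Nat.le_of_dvd (by positivity) (gcd_dvd _ _ _ _)
          _ ≤ A * B * Q := Nat.mul_le_mul_left _ g2
      · intro w hw w' hw' heq
        obtain ⟨g1, g2, g3, g4⟩ := decomp hA hB (sw_of (hF w (Finset.mem_coe.mp hw)).1)
        obtain ⟨k1, k2, k3, k4⟩ := decomp hA hB (sw_of (hF w' (Finset.mem_coe.mp hw')).1)
        simp only [Prod.mk.injEq] at heq
        obtain ⟨e1, e2⟩ := heq
        have f1 : w.1 = w'.1 := by
          apply Nat.eq_of_mul_eq_mul_left hA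
          rw [g2, k2, e1, e2]
        have f2 : w.2.1 = w'.2.1 := by
          apply Nat.eq_of_mul_eq_mul_left hB
          rw [g3, k3, e1, e2]
        have f3 : w.2.2 = w'.2.2 := by
          apply Nat.eq_of_mul_eq_mul_left hC
          rw [g4, k4, e1, e2]
        exact Prod.ext f1 (Prod.ext f2 f3)
    rw [Finset.card_product, Finset.card_range] at h2
    have h3 : (F.card : ℝ) ≤ ((F.image (Cp A B)).card : ℝ) * (A * B * Q + 1) := by
      exact_mod_cast h2
    calc (F.card : ℝ) ≤ ((F.image (Cp A B)).card : ℝ) * (A * B * Q + 1) := h3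
      _ ≤ (C0 * (T : ℝ) ^ ε) * (A * B * Q + 1) :=
          mul_le_mul_of_nonneg_right h1 (by positivity)
      _ = C0 * (A * B * Q + 1) * (T : ℝ) ^ ε := by ring

end Pool.Agent.Q138.AJ.R4ffbf9
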