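import Pool.Agent.TH893.PG.Box
import Pool.Agent.TH893.PG.Fin

set_option autoImplicit false

namespace Pool.Agent.Q138.AJ.R542436

open Finset
open Pool.Agent.TH893.PG

/-- Normalised coprime integer coordinates: each point `[x₀ : x₁]` of the projective line over `ℚ`
has exactly one such pair. -/
def Coord (x : ℤ × ℤ) : Prop := IsCoprime x.1 x.2 ∧ (0 < x.2 ∨ x.2 = 0 ∧ 0 < x.1)

/-- The height `max (|x₀|, |x₁|)`; its logarithm is `h(x)`. -/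
def height (x : ℤ × ℤ) : ℕ := max x.1.natAbs x.2.natAbs

/-- `x₀ a₁ - x₁ a₀`, zero if and only if the points `x` and `a` are equal. -/
def wedge (x a : ℤ × ℤ) : ℤ := x.1 * a.2 - x.2 * a.1

/-- The equation of the union of the fibres `s = α_i` (for coprime coordinates of the `α_i`). -/
def form {q : ℕ} (α : Fin q → ℤ × ℤ) (x : ℤ × ℤ) : ℤ := ∏ i, wedge x (α i)

/-- The sum over the primes `p ∉ S` of `min (log p, v_p(n) log p)`. -/
noncomputable def trunc (S : Finset ℕ) (n : ℤ) : ℝ :=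
  ∑ p ∈ n.natAbs.primeFactors \ S, Real.log (p : ℝ)

/-- The points `P = (x, y)` of `ℙ¹ × ℙ¹` over `ℚ` off the grid `D = ⋃ {s = α_i} ∪ ⋃ {t = β_j}`, of
heights `H(x) ≤ B₁`, `H(y) ≤ B₂`, with
`N^(1)_D(P) < (q - κ) h(x) + (r - κ) h(y) + c`. Here `F(x, y) = ∏ (x ∧ α_i) ∏ (y ∧ β_j)` is the
equation of `D`, the local height of `D` at `p` is `v_p(F(x, y)) log p`, and the primes of `S` are
not counted. -/
def Exc {q r : ℕ} (α : Fin q → ℤ × ℤ) (β : Fin r → ℤ × ℤ) (S : Finset ℕ) (κ c B₁ B₂ : ℝ) :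
    Set ((ℤ × ℤ) × (ℤ × ℤ)) :=
  {P | Coord P.1 ∧ Coord P.2 ∧ form α P.1 * form β P.2 ≠ 0 ∧
    (height P.1 : ℝ) ≤ B₁ ∧ (height P.2 : ℝ) ≤ B₂ ∧
    trunc S (form α P.1 * form β P.2) <
      ((q : ℝ) - κ) * Real.log (height P.1) + ((r : ℝ) - κ) * Real.log (height P.2) + c}

/-- **Exceptions to the truncated inequality of Vojta for grids.** Let `3 ≤ q ≤ r`, let
`α_1, …, α_q` and `β_1, …, β_r` be distinct points of the projective line over `ℚ`, `S` a finite set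
of primes, `0 ≤ κ ≤ q`, `c` real and `ε > 0`. Then for all `B₁, B₂ ≥ 1` the number of points
`P = (x, y)` off `D` of heights `H(x) ≤ B₁`, `H(y) ≤ B₂` with
`N^(1)_D(P) < (q - κ) h(x) + (r - κ) h(y) + c` is at most `C (B₁ B₂) ^ (2 - 2 κ / r + ε)`.

For `κ = 2` these are the exceptions to the inequality of the conjecture (without its `ε`): of the
about `(B₁ B₂) ^ 2` points at most `C (B₁ B₂) ^ (2 - 4 / r + ε)` are exceptions. -/
theorem result (q r : ℕ) (hq : 3 ≤ q) (hqr : q ≤ r) (α : Fin q → ℤ × ℤ) (β : Fin r → ℤ × ℤ)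
    (_hαc : ∀ i, IsCoprime (α i).1 (α i).2) (_hβc : ∀ j, IsCoprime (β j).1 (β j).2)
    (hα : ∀ i j, i ≠ j → (α i).1 * (α j).2 ≠ (α j).1 * (α i).2)
    (hβ : ∀ i j, i ≠ j → (β i).1 * (β j).2 ≠ (β j).1 * (β i).2) (S : Finset ℕ)
    (κ c ε : ℝ) (hκ0 : 0 ≤ κ) (hκ : κ ≤ q) (hε : 0 < ε) :
    ∃ C : ℝ, 0 < C ∧ ∀ B₁ B₂ : ℝ, 1 ≤ B₁ → 1 ≤ B₂ → (Exc α β S κ c B₁ B₂).Finite ∧
      ((Exc α β S κ c B₁ B₂).ncard : ℝ) ≤ C * (B₁ * B₂) ^ (2 - 2 * κ / (r : ℝ) + ε) := by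
  classical
  obtain ⟨σ, hσ⟩ : ∃ σ : ℝ, σ = ∑ p ∈ S, Real.log (p : ℝ) := ⟨_, rfl⟩
  have hσ0 : 0 ≤ σ := by
    rw [hσ]; exact Finset.sum_nonneg fun p _ => Real.log_natCast_nonneg p
  obtain ⟨d, hd⟩ : ∃ d, q = d + 3 := ⟨q - 3, by omega⟩
  obtain ⟨e, he⟩ : ∃ e, r = e + 3 := ⟨r - 3, by omega⟩
  have hdR : (q : ℝ) = (d : ℝ) + 3 := by rw [hd]; push_cast; ring
  have heR : (r : ℝ) = (e : ℝ) + 3 := by rw [he]; push_cast; ring
  subst hd he
  rw [hdR] at hκ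
  obtain ⟨D, hD, h⟩ := box_upper (FL α hα) (FL β hβ) (by omega) κ (|c| + σ) ε hκ0 hκ
    (by positivity) hε
  refine ⟨D, hD, fun B₁ B₂ hB₁ hB₂ => fin_of fun F hF => ?_⟩
  have hB₁0 : 0 < B₁ := by linarith
  have hB₂0 : 0 < B₂ := by linarith
  refine (h (Real.log B₁) (Real.log B₂) (Real.log_nonneg hB₁) (Real.log_nonneg hB₂) F
    fun P hP => ?_).trans (le_of_eq ?_)
  · obtain ⟨a1, a2, a3, a4, a5, a6⟩ := hF (Finset.mem_coe.2 hP)
    have b1 : pw α P.1 ≠ 0 := left_ne_zero_of_mul a3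
    have b2 : pw β P.2 ≠ 0 := right_ne_zero_of_mul a3
    have p1 := pt_of α hα a1.1 b1
    have p2 := pt_of β hβ a2.1 b2
    have k1 := Pool.Agent.TH867.QF.ht_pos p1
    have k2 := Pool.Agent.TH867.QF.ht_pos p2
    refine ⟨p1, p2, Real.log_le_log (by exact_mod_cast k1) a4,
      Real.log_le_log (by exact_mod_cast k2) a5, ?_⟩
    have h1 := union_le α β hα hβ S b1 b2
    rw [← hσ] at h1
    have h2 : lS S (pw α P.1 * pw β P.2) < (((d + 3 : ℕ) : ℝ) - κ) *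
        Real.log (Pool.Agent.TH867.QF.ht P.1) + (((e + 3 : ℕ) : ℝ) - κ) *
        Real.log (Pool.Agent.TH867.QF.ht P.2) + c := a6
    rw [hdR, heR] at h2
    have h3 := le_abs_self c
    linarith
  · have e1 : 2 * κ / ((e + 3 : ℕ) : ℝ) = 2 / ((e : ℝ) + 3) * κ := by rw [heR]; ring
    rw [e1, Real.rpow_def_of_pos (mul_pos hB₁0 hB₂0), Real.log_mul hB₁0.ne' hB₂0.ne']
    congr 2
    ring

end Pool.Agent.Q138.AJ.R542436
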