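import Mathlib
import Pool.Agent.TH905.VF.Abs
import Pool.Agent.TH905.VF.Mono

/-!
# Vojta's conjecture with multiplier ideals: monomial ideals on Fermat intersections

Let `K` be a number field, `a_0, …, a_{q-1}` linear forms in `n + 1` variables over `K`, any `n + 1`
of them linearly independent, `q ≥ n + 1`, and `m ≥ 1`. The points `(y_0 : … : y_{q-1})` such that
`(y_0 ^ m : … : y_{q-1} ^ m) = (a_0(x) : … : a_{q-1}(x))` for some `x` in `ℙ^n` form a smooth complete
intersection `X_m` of dimension `n` of `q - n - 1` hypersurfaces of degree `m` in `ℙ^(q-1)` (a diagonal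
hypersurface for `q = n + 2`), with `h_K(P) = (m (q - n - 1) - q) h(P)` and `m h(P) = h(x) + O(1)`. The
divisors `D_i : y_i = 0` are smooth and their sum has simple normal crossings.

A finite set `E ≠ ∅` of vectors `e ∈ ℕ^q` gives the ideal sheaf `I = ∑_{e ∈ E} O(- ∑_i e_i D_i)` on
`X_m`. By Howald's theorem the multiplier ideal `I_c` is generated by the `O(- ∑_i u_i D_i)` such that
`u + (1, …, 1)` is in the interior of `c P`, where the Newton polyhedron `P` is the set of all vectors
which are at least some element of the convex hull of `E`. So `I⁻` is generated by those with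
`u + (1, …, 1) ∈ P`. With the Weil functions `λ_i = log (max_j |y_j| / |y_i|)` of the `D_i` we have
`λ_I = min_{e ∈ E} ∑_i e_i λ_i` and `λ_{I⁻} = min_u ∑_i u_i λ_i`.

We prove for all `x ∈ ℙ^n(K)` outside a sparse set, for ALL `m ≥ 1`, ALL points `P` of `X_m` above `x`
(of degree at most `[K : ℚ] m ^ (q-1)`), ALL such ideals `I` and ALL finite sets `S` of primes
`(θ m - q) h(P) + ∑_{v ∈ S ∪ {∞}} (λ_I - λ_{I⁻})(P, v) ≤ d(P) + ∑_{p ∈ S} log p + c`.
For `θ = q - n - 1 - ε` the first term is `h_K(P) - ε m h(P)`. The exponent of the exceptional set is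
smaller than the one of all points for all `θ < q`.

Proof: `λ_I - λ_{I⁻} ≤ ∑_i λ_i`, since `∑_i t_i λ_i ≥ λ_I` for all `t ∈ P`. The truncated counting
function of `∑ a_i` over `K` is at most the logarithmic discriminant of `P` plus `q h(P)` minus the
proximity function of `∑ D_i`, up to the primes in `S`. For the `x` with a small truncated counting
function see `HyperplaneExceptions` (MP_9ec3f0_nt), a starting file.
-/

set_option autoImplicit false

namespace Pool.Agent.Q138.AJ.R8865d3a

open NumberField IsDedekindDomain LinearAlgebra.Projectivization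

/-- The value of the linear form with coefficients `a` at `x`. -/
def lin {K : Type} [Field K] {n : ℕ} (a x : Fin (n + 1) → K) : K := ∑ j, a j * x j

/-- The absolute logarithmic height of a point of `ℙ^n(K)`. -/
noncomputable def baseHeight {K : Type} [Field K] [NumberField K] {n : ℕ}
    (x : ℙ K (Fin (n + 1) → K)) : ℝ := Real.log x.mulHeight / Module.finrank ℚ K

/-- The absolute logarithmic height of the point with homogeneous coordinates `y` over `L`. -/
noncomputable def height {L : Type} [Field L] [NumberField L] {q : ℕ} (y : Fin q → L) : ℝ :=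
  Height.logHeight y / Module.finrank ℚ L

/-- The Weil function `λ_i = log (max_j |y_j| / |y_i|)` of `D_i`, for an absolute value. -/
noncomputable def weil {L : Type} [Field L] {q : ℕ} (f : AbsoluteValue L ℝ) (y : Fin q → L)
    (i : Fin q) : ℝ := Real.log ((⨆ j, f (y j)) / f (y i))

/-- The Newton polyhedron of the ideal with exponents `E`. -/
def newton {q : ℕ} (E : Finset (Fin q → ℕ)) : Set (Fin q → ℝ) :=
  {t | ∃ s ∈ convexHull ℝ ((fun (e : Fin q → ℕ) i => (e i : ℝ)) '' (E : Set (Fin q → ℕ))),
    ∀ i, s i ≤ t i}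

/-- The local height `λ_I = min_{e ∈ E} ∑_i e_i λ_i`. -/
noncomputable def lamIdeal {L : Type} [Field L] {q : ℕ} (f : AbsoluteValue L ℝ) (y : Fin q → L)
    (E : Finset (Fin q → ℕ)) : ℝ := ⨅ e : E, ∑ i, (e.1 i : ℝ) * weil f y i

/-- The local height `λ_{I⁻} = min ∑_i u_i λ_i`, over all `u` with `u + (1, …, 1)` in the Newton
polyhedron. -/
noncomputable def lamMinus {L : Type} [Field L] {q : ℕ} (f : AbsoluteValue L ℝ) (y : Fin q → L)
    (E : Finset (Fin q → ℕ)) : ℝ :=
  ⨅ u : {u : Fin q → ℕ | (fun i => (u i : ℝ) + 1) ∈ newton E}, ∑ i, (u.1 i : ℝ) * weil f y i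

/-- The sum of `λ_I - λ_{I⁻}` over the places above `S` and infinity, divided by `[L : ℚ]`. The
absolute values are normalised so that the product formula holds: `|b|_w = N(w) ^ (- w(b))`. -/
noncomputable def proximity (S : Finset ℕ) {L : Type} [Field L] [NumberField L] {q : ℕ}
    (y : Fin q → L) (E : Finset (Fin q → ℕ)) : ℝ :=
  (∑ w : InfinitePlace L, (w.mult : ℝ) * (lamIdeal w.1 y E - lamMinus w.1 y E) +
    ∑ᶠ w ∈ {w : HeightOneSpectrum (𝓞 L) | ∃ p ∈ S, (p : 𝓞 L) ∈ w.asIdeal},
      (lamIdeal (FinitePlace.mk w).1 y E - lamMinus (FinitePlace.mk w).1 y E)) /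
    Module.finrank ℚ L

/-- The logarithmic discriminant `log |disc L| / [L : ℚ]`. -/
noncomputable def logDisc (L : Type) [Field L] [NumberField L] : ℝ :=
  Real.log |(discr L : ℝ)| / Module.finrank ℚ L

/-- The exceptional points `x ∈ ℙ^n(K)` off the hyperplanes, of height at most `log B`: for some
`m ≥ 1`, some number field `L` which contains `K`, some point `P` of `X_m` over `L` above `x`, some
ideal and some finite set `S` of primes the inequality
`(θ m - q) h(P) + ∑_{v ∈ S ∪ {∞}} (λ_I - λ_{I⁻})(P, v) ≤ d(L) + ∑_{p ∈ S} log p + c` fails. -/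
def exceptional {K : Type} [Field K] [NumberField K] {n q : ℕ} (a : Fin q → Fin (n + 1) → K)
    (θ c B : ℝ) : Set (ℙ K (Fin (n + 1) → K)) :=
  {x | (∀ i, lin (a i) x.rep ≠ 0) ∧ Real.exp (baseHeight x) ≤ B ∧
    ∃ (m : ℕ) (L : Type) (_ : Field L) (_ : NumberField L) (_ : Algebra K L) (y : Fin q → L) (t : L)
      (E : Finset (Fin q → ℕ)) (S : Finset ℕ), 1 ≤ m ∧ t ≠ 0 ∧
        (∀ i, y i ^ m = t * algebraMap K L (lin (a i) x.rep)) ∧ E.Nonempty ∧
        (∀ p ∈ S, p.Prime) ∧
        logDisc L + ∑ p ∈ S, Real.log p + c < (θ * m - q) * height y + proximity S y E}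

/-- The exponent: the smaller of `θ (1 - binom(q - n, n + 1) / binom(q, n + 1))` and
`(n + 1) (1 - n (q - θ) / (q (q - 1)))`. It is smaller than `n + 1` for `θ < q`. -/
noncomputable def exponent (n q : ℕ) (θ : ℝ) : ℝ :=
  min (θ * (1 - ((q - n).choose (n + 1) : ℝ) / (q.choose (n + 1) : ℝ)))
    (((n : ℝ) + 1) * (1 - (n : ℝ) * ((q : ℝ) - θ) / ((q : ℝ) * ((q : ℝ) - 1))))

/-- **Vojta's conjecture with multiplier ideals for monomial ideals on Fermat intersections.** Let `K`
be a number field, `n ≥ 1`, `q ≥ n + 1`, and let `a_0, …, a_{q-1}` be linear forms in `n + 1` variables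
over `K`, any `n + 1` of them linearly independent. Let `θ ≥ 0` and `c` be real and `δ > 0`. For all but
`M B ^ ([K : ℚ] exponent(n, q, θ) + δ)` of the points `x ∈ ℙ^n(K)` of height at most `B` off the
hyperplanes, for ALL `m ≥ 1`, ALL points `P` of `X_m` above `x`, over any number field `L`, ALL monomial
ideals `I` and ALL finite sets `S` of primes
`(θ m - q) h(P) + ∑_{v ∈ S ∪ {∞}} (λ_I - λ_{I⁻})(P, v) ≤ d(L) + ∑_{p ∈ S} log p + c`. -/
theorem result (K : Type) [Field K] [NumberField K] (n q : ℕ) (hn : 1 ≤ n) (hq : n + 1 ≤ q)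
    (a : Fin q → Fin (n + 1) → K)
    (ha : ∀ I : Finset (Fin q), I.card = n + 1 → LinearIndependent K (fun i : I => a i))
    (θ c δ : ℝ) (hθ : 0 ≤ θ) (hδ : 0 < δ) :
    ∃ M : ℝ, ∀ B : ℝ, 1 ≤ B → (exceptional a θ c B).Finite ∧
      ((exceptional a θ c B).ncard : ℝ) ≤
        M * B ^ ((Module.finrank ℚ K : ℝ) * exponent n q θ + δ) := by
  classical
  have hd : (0 : ℝ) < Module.finrank ℚ K := by exact_mod_cast Module.finrank_pos
  set d : ℝ := (Module.finrank ℚ K : ℝ) with hdd
  obtain ⟨M, hM⟩ := Pool.Agent.TH905.VF.mono_main K n q hn hq a ha θ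
    (d * c + Real.log |(discr K : ℝ)|) (δ / d) hθ (by positivity)
  refine ⟨M, fun B hB => ?_⟩
  have hB0 : 0 < B := by linarith
  obtain ⟨h1, h2⟩ := hM (B ^ d) (Real.one_le_rpow hB hd.le)
  have hsub : exceptional a θ c B ⊆ Pool.Agent.TH905.VF.EM a θ
      (d * c + Real.log |(discr K : ℝ)|) (B ^ d) := by
    rintro x ⟨hne, hB', m, L, i1, i2, i3, y, t, E, S, hm, ht, hy, hE, hS, hv⟩
    refine ⟨hne, ?_, m, L, i1, i2, i3, y, t, E,
      (Pool.Agent.TH905.VF.above_finite K S hS).toFinset, by omega, ht, hy, hE, ?_⟩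
    · have h3 := hB'
      rw [← Real.le_log_iff_exp_le hB0] at h3
      unfold baseHeight at h3
      rw [← hdd, div_le_iff₀ hd, mul_comm, ← Real.log_rpow hB0] at h3
      have hpos : 0 < x.mulHeight := lt_of_lt_of_le one_pos x.one_le_mulHeight
      exact (Real.log_le_log_iff hpos (Real.rpow_pos_of_pos hB0 _)).1 h3
    · have hL : (0 : ℝ) < Module.finrank K L := Pool.Agent.TH905.VF.finrank_pos'
      have htow : (Module.finrank ℚ L : ℝ) = d * Module.finrank K L := by
        rw [hdd]
        exact_mod_cast (Module.finrank_mul_finrank ℚ K L).symm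
      have h3 := Pool.Agent.TH905.VF.sum_above K S hS
        (Pool.Agent.TH905.VF.above_finite K S hS).toFinset
        fun v hv => (Set.Finite.mem_toFinset (Pool.Agent.TH905.VF.above_finite K S hS)).1 hv
      have h5 : Pool.Agent.TH905.VF.proxI
          (Pool.Agent.TH905.VF.above_finite K S hS).toFinset y E = d * proximity S y E := by
        unfold Pool.Agent.TH905.VF.proxI proximity
        rw [Pool.Agent.TH905.VF.above_eq S hS, htow]
        have e1 : ∀ w : HeightOneSpectrum (𝓞 L),
            Pool.Agent.TH905.VF.lamI (Pool.Agent.H691R3.fv w) y E -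
              Pool.Agent.TH905.VF.lamM (Pool.Agent.H691R3.fv w) y E =
            lamIdeal (FinitePlace.mk w).1 y E - lamMinus (FinitePlace.mk w).1 y E :=
          fun w => rfl
        have e2 : ∀ w : InfinitePlace L, Pool.Agent.TH905.VF.lamI w.1 y E -
            Pool.Agent.TH905.VF.lamM w.1 y E = lamIdeal w.1 y E - lamMinus w.1 y E := fun w => rfl
        simp only [e1, e2]
        rw [mul_div_assoc', mul_div_mul_left _ _ hd.ne']
      have h6 : Pool.Agent.TH905.VF.ld K L = d * logDisc L - Real.log |(discr K : ℝ)| := by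
        unfold Pool.Agent.TH905.VF.ld logDisc
        rw [htow]
        field_simp
      have h7 : Pool.Agent.TH905.VF.ht K y = d * height y := by
        unfold Pool.Agent.TH905.VF.ht height
        rw [htow]
        field_simp
      rw [h5, h6, h7]
      have h9 := mul_lt_mul_of_pos_left hv hd
      rw [← hdd] at h3
      linarith
  refine ⟨h1.subset hsub, ?_⟩
  refine le_trans (Nat.cast_le.2 (Set.ncard_le_ncard hsub h1)) (h2.trans (le_of_eq ?_))
  rw [← Real.rpow_mul hB0.le]
  congr 2
  show d * (exponent n q θ + δ / d) = _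
  field_simp

end Pool.Agent.Q138.AJ.R8865d3a
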