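import Mathlib
import Pool.Agent.TH905.VF.KumMono

/-!
# Vojta's conjecture with multiplier ideals on the Kummer covers of all hyperplane arrangements

Let `a_0, …, a_{r-1}` be linear forms in `n + 1` variables over a number field `K` which span the
space of linear forms: an arbitrary essential arrangement of hyperplanes in `ℙ^n`, without any
condition on their intersections. Let `M → ℙ^n` be the blow-up of all the flats of the arrangement,
and `E_F ⊂ M` the divisor over the flat `F` (for a hyperplane its proper transform). A flat is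
identified with the set of the `i` such that `a_i` vanishes on it. The `E_F` are smooth, their sum
`D_M` has normal crossings, and the divisor of `a_i` on `M` is the sum of the `E_F` with `i ∈ F`. For
`m ≥ 1` let `X_m → M` be the normalisation of `M` in the field generated by the `m`-th roots of all
`a_i / a_j`. Locally `D_M` is `z_1 ⋯ z_k = 0`, with `a_i / a_j` units times monomials, and these
monomials generate all monomials; so `X_m` is smooth with local coordinates `z_i^(1/m)`, the preimage of
`E_F` is `m D_F` with `D_F` smooth and the sum `D` of the `D_F` has normal crossings (`n = 2`: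
Hirzebruch's surfaces, among them compact ball quotients). The points of `X_m` off `D` over a number
field `L` are the `P = (y_0 : … : y_{r-1})` such that
`(y_0 ^ m : … : y_{r-1} ^ m) = (a_0(x) : … : a_{r-1}(x))` for some `x ∈ ℙ^n`.

Weil functions. Put `w_i = log (max_j |y_j| / |y_i|)` at a place `v`; up to `O(1)` it is the sum of the
`λ_F` with `i ∈ F`, where `λ_F = max(0, min_{i ∈ F} w_i - max_{i ∉ F} w_i)` is a Weil function for `D_F`
(if `λ_F(P)` is large, the other flats `G` with `λ_G(P)` large are in a chain with `F`). So `max_i w_i`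
is one for `D`. The largest sum of local heights `log (|a_i| |x| / |a_i(x)|)` over a linearly
independent subfamily of the arrangement is one for `K_M + D_M + (n + 1) H`, `H` = hyperplane. As
`K_{X_m} + D` is the pullback of `K_M + D_M`, the height `h_K(P)` is the sum over all places of the
latter, minus `(n + 1) h(x)`, minus `h_D(P)`.

A finite set `E ≠ ∅` of exponents `(e_F)` gives the ideal sheaf `I = ∑_{e ∈ E} O(- ∑_F e_F D_F)` on
`X_m`. By Howald's theorem the multiplier ideal `I⁻` is generated by the `O(- ∑_F u_F D_F)` such that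
`u + (1, …, 1)` is at least some element of the convex hull of `E`. So
`λ_I = min_{e ∈ E} ∑_F e_F λ_F` and `λ_{I⁻} = min_u ∑_F u_F λ_F`. For `I = O(- D)` they are `λ_D` and `0`.

We prove for all `x ∈ ℙ^n(K)` outside a set with `O(B ^ ([K : ℚ] (n + 1 - κ) + δ))` elements of height
at most `B`, `0 ≤ κ ≤ 1 / 2`: for ALL `m ≥ 1`, ALL points `P` of `X_m` above `x` (of degree at most
`[K : ℚ] m ^ (r - 1)`), ALL such ideals `I` and ALL finite sets `S` of primes
`h_K(P) + ∑_{v ∈ S ∪ {∞}} (λ_I - λ_{I⁻})(P, v) + (n + 1 - κ) h(x) ≤ d(P) + ∑_{p ∈ S} log p + c`.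

Proof: `λ_I - λ_{I⁻} ≤ ∑_F λ_F ≤ max_i w_i`. The truncated counting function of the arrangement over
`K` is at most the logarithmic discriminant of `P` plus the part of `h_D(P)` outside `S`, plus
`∑_{p ∈ S} log p`. For the `x` with a small truncated counting function see `HyperplaneArrangements`
(MP_9ec3f0_nt), a starting file.
-/

set_option autoImplicit false

namespace Pool.Agent.Q138.AJ.R8865d3b

open NumberField IsDedekindDomain LinearAlgebra.Projectivization
open scoped Classical

/-- The value of the linear form with coefficients `a` at `x`. -/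
def lin {K : Type} [Field K] {n : ℕ} (a x : Fin (n + 1) → K) : K := ∑ j, a j * x j

/-- The local height of the hyperplane `a = 0` at `x` for an absolute value. -/
noncomputable def lam {K : Type} [Field K] {n : ℕ} (f : AbsoluteValue K ℝ)
    (a x : Fin (n + 1) → K) : ℝ :=
  Real.log ((⨆ j, f (a j)) * (⨆ j, f (x j)) / f (lin a x))

/-- The largest sum of local heights over a linearly independent subfamily of the arrangement. -/
noncomputable def largest {K : Type} [Field K] {n r : ℕ} (f : AbsoluteValue K ℝ)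
    (a : Fin r → Fin (n + 1) → K) (x : Fin (n + 1) → K) : ℝ :=
  ⨆ I : {I : Finset (Fin r) // LinearIndependent K (fun i : I => a i)}, ∑ i ∈ I.1, lam f (a i) x

/-- The absolute logarithmic height of a point of `ℙ^n(K)`. -/
noncomputable def height {K : Type} [Field K] [NumberField K] {n : ℕ}
    (x : ℙ K (Fin (n + 1) → K)) : ℝ := Real.log x.mulHeight / Module.finrank ℚ K

/-- The height with respect to `K_M + D_M + (n + 1) H`. -/
noncomputable def logCanonical {K : Type} [Field K] [NumberField K] {n r : ℕ}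
    (a : Fin r → Fin (n + 1) → K) (x : ℙ K (Fin (n + 1) → K)) : ℝ :=
  (∑ w : InfinitePlace K, (w.mult : ℝ) * largest w.1 a x.rep +
    ∑ᶠ v : HeightOneSpectrum (𝓞 K), largest (FinitePlace.mk v).1 a x.rep) / Module.finrank ℚ K

/-- The local height `w_i = log (max_j |y_j| / |y_i|)` for an absolute value. -/
noncomputable def weil {L : Type} [Field L] {r : ℕ} (f : AbsoluteValue L ℝ) (y : Fin r → L)
    (i : Fin r) : ℝ := Real.log ((⨆ j, f (y j)) / f (y i))

/-- The height `h_D(P)`: the sum over all places of `max_i w_i`, divided by `[L : ℚ]`. -/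
noncomputable def heightD {L : Type} [Field L] [NumberField L] {r : ℕ} (y : Fin r → L) : ℝ :=
  (∑ w : InfinitePlace L, (w.mult : ℝ) * (⨆ i, weil w.1 y i) +
    ∑ᶠ w : HeightOneSpectrum (𝓞 L), (⨆ i, weil (FinitePlace.mk w).1 y i)) / Module.finrank ℚ L

/-- The flats, as sets of forms: `F` contains all forms of the arrangement in the span of `F`. -/
abbrev Flat {K : Type} [Field K] {n r : ℕ} (a : Fin r → Fin (n + 1) → K) : Type :=
  {F : Finset (Fin r) // ∀ i, a i ∈ Submodule.span K (a '' (F : Set (Fin r))) → i ∈ F}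

/-- The local height `λ_F = max(0, min_{i ∈ F} w_i - max_{i ∉ F} w_i)` of `D_F`. It is `0` for the
empty set and the set of all forms, which do not correspond to divisors. -/
noncomputable def component {L : Type} [Field L] {r : ℕ} (f : AbsoluteValue L ℝ) (y : Fin r → L)
    (F : Finset (Fin r)) : ℝ :=
  max 0 ((⨅ i : F, weil f y i) - ⨆ i : {i // i ∉ F}, weil f y i)

/-- The Newton polyhedron of the ideal with exponents `E`. -/
def newton {ι : Type} (E : Finset (ι → ℕ)) : Set (ι → ℝ) :=
  {t | ∃ s ∈ convexHull ℝ ((fun (e : ι → ℕ) F => (e F : ℝ)) '' (E : Set (ι → ℕ))),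
    ∀ F, s F ≤ t F}

section

variable {K : Type} [Field K] {n r : ℕ} {a : Fin r → Fin (n + 1) → K} {L : Type} [Field L]

/-- The local height `λ_I = min_{e ∈ E} ∑_F e_F λ_F`. -/
noncomputable def lamIdeal (f : AbsoluteValue L ℝ) (y : Fin r → L) (E : Finset (Flat a → ℕ)) : ℝ :=
  ⨅ e : E, ∑ F : Flat a, (e.1 F : ℝ) * component f y F

/-- The local height `λ_{I⁻} = min ∑_F u_F λ_F`, over all `u` with `u + (1, …, 1)` in the Newton
polyhedron. -/
noncomputable def lamMinus (f : AbsoluteValue L ℝ) (y : Fin r → L) (E : Finset (Flat a → ℕ)) : ℝ :=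
  ⨅ u : {u : Flat a → ℕ | (fun F => (u F : ℝ) + 1) ∈ newton E},
    ∑ F : Flat a, (u.1 F : ℝ) * component f y F

/-- The sum of `λ_I - λ_{I⁻}` over the places above `S` and infinity, divided by `[L : ℚ]`. The
absolute values are normalised so that the product formula holds: `|b|_w = N(w) ^ (- w(b))`. -/
noncomputable def proximity (S : Finset ℕ) [NumberField L] (y : Fin r → L)
    (E : Finset (Flat a → ℕ)) : ℝ :=
  (∑ w : InfinitePlace L, (w.mult : ℝ) * (lamIdeal w.1 y E - lamMinus w.1 y E) +
    ∑ᶠ w ∈ {w : HeightOneSpectrum (𝓞 L) | ∃ p ∈ S, (p : 𝓞 L) ∈ w.asIdeal},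
      (lamIdeal (FinitePlace.mk w).1 y E - lamMinus (FinitePlace.mk w).1 y E)) /
    Module.finrank ℚ L

end

/-- The height `h_K(P)` with respect to the canonical divisor of `X_m`. -/
noncomputable def canonicalHeight {K L : Type} [Field K] [NumberField K] [Field L] [NumberField L]
    {n r : ℕ} (a : Fin r → Fin (n + 1) → K) (x : ℙ K (Fin (n + 1) → K)) (y : Fin r → L) : ℝ :=
  logCanonical a x - (n + 1) * height x - heightD y

/-- The logarithmic discriminant `log |disc L| / [L : ℚ]`. -/
noncomputable def logDisc (L : Type) [Field L] [NumberField L] : ℝ :=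
  Real.log |(discr L : ℝ)| / Module.finrank ℚ L

/-- The exceptional points `x ∈ ℙ^n(K)` off the arrangement, of height at most `log B`: for some
`m ≥ 1`, some number field `L` which contains `K`, some point `P` of `X_m` over `L` above `x`, some
monomial ideal `I` and some finite set `S` of primes the inequality
`h_K(P) + ∑_{v ∈ S ∪ {∞}} (λ_I - λ_{I⁻})(P, v) + (n + 1 - κ) h(x) ≤ d(L) + ∑_{p ∈ S} log p + c` fails. -/
def exceptional {K : Type} [Field K] [NumberField K] {n r : ℕ} (a : Fin r → Fin (n + 1) → K)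
    (κ c B : ℝ) : Set (ℙ K (Fin (n + 1) → K)) :=
  {x | (∀ i, lin (a i) x.rep ≠ 0) ∧ Real.exp (height x) ≤ B ∧
    ∃ (m : ℕ) (L : Type) (_ : Field L) (_ : NumberField L) (_ : Algebra K L) (y : Fin r → L) (t : L)
      (E : Finset (Flat a → ℕ)) (S : Finset ℕ), 1 ≤ m ∧ t ≠ 0 ∧
        (∀ i, y i ^ m = t * algebraMap K L (lin (a i) x.rep)) ∧ E.Nonempty ∧ (∀ p ∈ S, p.Prime) ∧
        logDisc L + ∑ p ∈ S, Real.log p + c <
          canonicalHeight a x y + proximity S y E + (n + 1 - κ) * height x}

/-- `λ_I - λ_{I⁻}` is at most the local height of `D`. -/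
lemma proximity_le {K : Type} [Field K] {n r : ℕ} {a : Fin r → Fin (n + 1) → K} {L : Type} [Field L]
    [NumberField L] (S : Finset ℕ) (hS : ∀ p ∈ S, p.Prime) (y : Fin r → L) (hy : ∀ i, y i ≠ 0)
    (E : Finset (Flat a → ℕ)) (hE : E.Nonempty) :
    proximity S y E ≤ Pool.Agent.TH905.VF.KumAbs.proximity S y := by
  have hL : (0 : ℝ) < Module.finrank ℚ L := by exact_mod_cast Module.finrank_pos
  have hfin : {w : HeightOneSpectrum (𝓞 L) | ∃ p ∈ S, (p : 𝓞 L) ∈ w.asIdeal}.Finite :=
    Pool.Agent.TH905.VF.above_finite L S hS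
  have hle : ∀ f : AbsoluteValue L ℝ, lamIdeal f y E - lamMinus f y E ≤ ⨆ i, weil f y i :=
    fun f => Pool.Agent.TH905.VF.dif_le
      (fun F : Finset (Fin r) => ∀ i, a i ∈ Submodule.span K (a '' (F : Set (Fin r))) → i ∈ F)
      f y hy E hE
  unfold proximity Pool.Agent.TH905.VF.KumAbs.proximity
  rw [finsum_mem_eq_finite_toFinset_sum _ hfin, finsum_mem_eq_finite_toFinset_sum _ hfin]
  refine div_le_div_of_nonneg_right (add_le_add ?_ ?_) hL.le
  · exact Finset.sum_le_sum fun w _ => mul_le_mul_of_nonneg_left (hle w.1) (Nat.cast_nonneg _)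
  · exact Finset.sum_le_sum fun w _ => hle (FinitePlace.mk w).1

/-- **Vojta's conjecture with multiplier ideals for monomial ideals on the Kummer covers of all
hyperplane arrangements.** Let `K` be a number field, `n ≥ 1`, and let `a_0, …, a_{r-1}` be nonzero
linear forms in `n + 1` variables over `K` which span the space of linear forms. Let `0 ≤ κ ≤ 1 / 2`,
`c` real and `δ > 0`. For all but `M B ^ ([K : ℚ] (n + 1 - κ) + δ)` of the points `x ∈ ℙ^n(K)` of
height at most `B` off the arrangement, for ALL `m ≥ 1`, ALL points `P` of the Kummer cover `X_m` above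
`x`, over any number field `L`, ALL ideals `I` which are monomial in the components of `D` and ALL
finite sets `S` of primes
`h_K(P) + ∑_{v ∈ S ∪ {∞}} (λ_I - λ_{I⁻})(P, v) + (n + 1 - κ) h(x) ≤ d(L) + ∑_{p ∈ S} log p + c`. -/
theorem result (K : Type) [Field K] [NumberField K] (n r : ℕ) (hn : 1 ≤ n)
    (a : Fin r → Fin (n + 1) → K) (ha : ∀ i, a i ≠ 0)
    (hspan : Submodule.span K (Set.range a) = ⊤)
    (κ c δ : ℝ) (hκ0 : 0 ≤ κ) (hκ : κ ≤ 1 / 2) (hδ : 0 < δ) :
    ∃ M : ℝ, ∀ B : ℝ, 1 ≤ B → (exceptional a κ c B).Finite ∧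
      ((exceptional a κ c B).ncard : ℝ) ≤
        M * B ^ ((Module.finrank ℚ K : ℝ) * ((n : ℝ) + 1 - κ) + δ) := by
  obtain ⟨M, hM⟩ := Pool.Agent.TH905.VF.KumAbs.result K n r hn a ha hspan κ c δ hκ0 hκ hδ
  refine ⟨M, fun B hB => ?_⟩
  obtain ⟨h1, h2⟩ := hM B hB
  have hsub : exceptional a κ c B ⊆ Pool.Agent.TH905.VF.KumAbs.exceptional a κ c B := by
    rintro x ⟨hne, hB', m, L, i1, i2, i3, y, t, E, S, hm, ht, hy, hE, hS, hv⟩
    refine ⟨hne, hB', m, L, i1, i2, i3, y, t, S, hm, ht, hy, hS, ?_⟩
    have hy0 : ∀ i, y i ≠ 0 := by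
      intro i h
      have h3 := hy i
      rw [h, zero_pow (by omega), eq_comm, mul_eq_zero, map_eq_zero] at h3
      rcases h3 with h3 | h3
      · exact ht h3
      · exact hne i h3
    have h4 := proximity_le S hS y hy0 E hE
    have h5 : Pool.Agent.TH905.VF.KumAbs.canonicalHeight a x y = canonicalHeight a x y := rfl
    have h6 : Pool.Agent.TH905.VF.KumAbs.height x = height x := rfl
    have h7 : Pool.Agent.TH905.VF.KumAbs.logDisc L = logDisc L := rfl
    rw [h5, h6, h7]
    linarith
  exact ⟨h1.subset hsub, (Nat.cast_le.2 (Set.ncard_le_ncard hsub h1)).trans h2⟩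

end Pool.Agent.Q138.AJ.R8865d3b
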