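import Pool.Agent.Y776.Cv.Var
import Pool.Agent.Y776.Cv.Pad
import Pool.Agent.TH813.EKPer

/-!
# The elliptico-toric conjecture at the points of arbitrary analytic families

Let `Λ_z` be a family of lattices with periods `ω₁(z), ω₂(z)`, analytic functions on a connected open set `U` whose
quotient is not constant, let `p_1, …, p_r` be analytic functions on `U` which are independent modulo the lattices (no
nontrivial combination `∑ n_i p_i(z)` with integral coefficients is in `Λ_z` for all `z`) and let `t_1, …, t_s` be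
analytic functions no nontrivial combination of which with integral coefficients is constant. There is no other
condition on these functions; `g₂, g₃`, `℘(p_i)`, `exp(t_k)` need not be algebraic.

For each `z` the elliptico-toric conjecture says that in general (for independent `2 π i, t_k(z)`, and `p_i(z)`
independent modulo `ℚ Λ_z`, without complex multiplication) the transcendence degree of the field generated by `g₂, g₃,
ω₁, ω₂, η₁, η₂`, `p_i, ℘(p_i), ζ(p_i)`, `t_k, exp(t_k)` is at least `4 + 2 r + s`, hence at least `3 + 2 r + s` over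
`ℚ(π)`. We show that `3 + 2 r + s` fixed numbers among them do not satisfy any approximate relation of bounded degree and
of height `T^A`, with the exception of `C T^ε` points `z` of height at most `T`, for all number fields of degree at most
`m` together; and for `n` families, that the `∑ (3 + 2 r_j + s_j)` numbers have no such relation with the exception of
`C T^ε N^(n-1)` tuples. The coefficients of the relations are combinations of arbitrary complex numbers `ξ_1, …, ξ_g`,
for instance of the powers of `π` and of other periods.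
-/

set_option autoImplicit false

open NumberField
open scoped PeriodPair

namespace Pool.Agent.Q138.AJ.R8da9ea

/-- The Weierstrass zeta function `ζ(z) = ∑ (1/(z-l) + 1/l + z/l²)`, the sum over the lattice (the summand of `l = 0` is
`1/z`, since `1/0 = 0` in Lean). -/
noncomputable def ζ (L : PeriodPair) (z : ℂ) : ℂ :=
  ∑' l : L.lattice, (1 / (z - l) + 1 / l + z / l ^ 2)

/-- An analytic family of lattices with points and exponents. -/
structure Family (U : Set ℂ) {r s : ℕ} (Λ : ℂ → PeriodPair) (p : Fin r → ℂ → ℂ) (t : Fin s → ℂ → ℂ) : Prop where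
  isOpen : IsOpen U
  isPreconnected : IsPreconnected U
  nonempty : U.Nonempty
  /-- the lattice depends analytically on `z` -/
  analytic₁ : AnalyticOnNhd ℂ (fun z => (Λ z).ω₁) U
  analytic₂ : AnalyticOnNhd ℂ (fun z => (Λ z).ω₂) U
  /-- the quotient of the periods is not constant -/
  nonconstant : ∀ c : ℂ, ∃ z ∈ U, (Λ z).ω₂ / (Λ z).ω₁ ≠ c
  /-- the functions are analytic and the points of the elliptic curves are not zero -/
  analytic_p : ∀ i, AnalyticOnNhd ℂ (p i) U
  p_notMem : ∀ i, ∀ z ∈ U, p i z ∉ (Λ z).lattice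
  analytic_t : ∀ k, AnalyticOnNhd ℂ (t k) U
  /-- the points are independent modulo torsion -/
  independent_p : ∀ n : Fin r → ℤ, (∀ z ∈ U, ∑ i, (n i : ℂ) * p i z ∈ (Λ z).lattice) → n = 0
  /-- no nontrivial combination with integral coefficients of the `t_k` is constant -/
  independent_t : ∀ (m : Fin s → ℤ) (b : ℂ), (∀ z ∈ U, ∑ k, (m k : ℂ) * t k z = b) → m = 0

/-- The names of the functions `ω₁, ω₂, η₁, g₂, g₃`, `p_i`, `℘(p_i)`, `ζ(p_i)`, `t_k`, `exp(t_k)`. -/
inductive Name (r s : ℕ) : Type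
  | omega₁ : Name r s
  | omega₂ : Name r s
  | eta₁ : Name r s
  | g₂ : Name r s
  | g₃ : Name r s
  | p : Fin r → Name r s
  | wp : Fin r → Name r s
  | zeta : Fin r → Name r s
  | t : Fin s → Name r s
  | expt : Fin s → Name r s

/-- The values of the functions at the point `z`; here `η₁ = 2 ζ(ω₁ / 2)` (and `η₂` is determined by Legendre's
relation `ω₂ η₁ - ω₁ η₂ = ± 2 π i`). -/
noncomputable def value {r s : ℕ} (Λ : ℂ → PeriodPair) (p : Fin r → ℂ → ℂ) (t : Fin s → ℂ → ℂ) (z : ℂ) :
    Name r s → ℂ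
  | Name.omega₁ => (Λ z).ω₁
  | Name.omega₂ => (Λ z).ω₂
  | Name.eta₁ => 2 * ζ (Λ z) ((Λ z).ω₁ / 2)
  | Name.g₂ => (Λ z).g₂
  | Name.g₃ => (Λ z).g₃
  | Name.p i => p i z
  | Name.wp i => ℘[Λ z] (p i z)
  | Name.zeta i => ζ (Λ z) (p i z)
  | Name.t k => t k z
  | Name.expt k => Complex.exp (t k z)

/-- The elements of the number field `F` with image in `K` which are quotients of two integers of `F` all of whose
conjugates have absolute value at most `T`. -/
def Points (F : Type) [Field F] [NumberField F] (ι : F →+* ℂ) (K : Set ℂ) (T : ℝ) : Set F :=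
  {x | ι x ∈ K ∧ ∃ a b : 𝓞 F, b ≠ 0 ∧ (∀ φ : F →+* ℂ, ‖φ a‖ ≤ T ∧ ‖φ b‖ ≤ T) ∧ x = a / b}

/-- The `n`-tuples `x` of points of `F` for which there is a polynomial `P` of degree at most `d` in each variable, with
coefficients of the form `∑ ξ_i ι(c_i)`, where the `c_i` are integers of `F` all of whose conjugates have absolute value
at most `T ^ A`, such that the value of `P` at the numbers `v j (ι (x j)) i` is at most `T ^ (-B)` times the absolute
value of some nonzero coefficient of `P`. -/
def Exceptional (n d : ℕ) {g : ℕ} {J : Fin n → Type} (v : ∀ j, ℂ → J j → ℂ) (F : Type) [Field F] [NumberField F]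
    (ι : F →+* ℂ) (ξ : Fin g → ℂ) (K : Set ℂ) (A B T : ℝ) : Set (Fin n → F) :=
  {x | (∀ j, x j ∈ Points F ι K T) ∧ ∃ P : MvPolynomial (Σ j, J j) ℂ, (∀ y, P.degreeOf y ≤ d) ∧
    (∀ s, ∃ c : Fin g → 𝓞 F, (∀ i (φ : F →+* ℂ), ‖φ (c i)‖ ≤ T ^ A) ∧ P.coeff s = ∑ i, ξ i * ι (c i)) ∧
    ∃ s₀, P.coeff s₀ ≠ 0 ∧
      ‖MvPolynomial.aeval (fun y : Σ j, J j => v y.1 (ι (x y.1)) y.2) P‖ ≤ T ^ (-B) * ‖P.coeff s₀‖}

theorem exists_name (r s : ℕ) : ∃ f : Y776.Cv.Nv r s → Name r s, Function.Injective f ∧
    ∀ (Λ : ℂ → PeriodPair) (p : Fin r → ℂ → ℂ) (t : Fin s → ℂ → ℂ) (z : ℂ) (i : Y776.Cv.Nv r s),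
      value Λ p t z (f i) = Y776.Cv.yv Λ p t i z := by
  let f : Y776.Cv.Nv r s → Name r s :=
    Sum.elim ![Name.omega₁, Name.omega₂, Name.eta₁, Name.g₂, Name.g₃] (Sum.elim Name.p (Sum.elim Name.zeta
      (Sum.elim Name.wp (Sum.elim Name.t Name.expt))))
  let g : Name r s → Y776.Cv.Nv r s := fun a => match a with
    | Name.omega₁ => Sum.inl 0
    | Name.omega₂ => Sum.inl 1
    | Name.eta₁ => Sum.inl 2
    | Name.g₂ => Sum.inl 3
    | Name.g₃ => Sum.inl 4
    | Name.p i => Sum.inr (Sum.inl i)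
    | Name.zeta i => Sum.inr (Sum.inr (Sum.inl i))
    | Name.wp i => Sum.inr (Sum.inr (Sum.inr (Sum.inl i)))
    | Name.t k => Sum.inr (Sum.inr (Sum.inr (Sum.inr (Sum.inl k))))
    | Name.expt k => Sum.inr (Sum.inr (Sum.inr (Sum.inr (Sum.inr k))))
  have hg : Function.LeftInverse g f := by
    rintro (a | a | a | a | a | a)
    · fin_cases a <;> rfl
    all_goals rfl
  refine ⟨f, hg.injective, ?_⟩
  rintro Λ p t z (a | a | a | a | a | a)
  · fin_cases a
    · rfl
    · rfl
    · exact (Pool.Agent.TH813.Ell.eta_half (Λ z).ω₁_mem_lattice (Pool.Agent.TH813.Ell.half₁ (Λ z))).symm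
    · rfl
    · rfl
  all_goals rfl

/-- For `n` families (equal or different) one can choose, for each `j`, `3 + 2 r_j + s_j` different functions `e_j`
among the `5 + 3 r_j + 2 s_j` functions of the `j`-th family, such that for every compact set `K` contained in all
`U_j`, and all `m`, `g`, `d`, `A` and `ε > 0` there are `B`, `C`, `T₀` such that for every number field `F` of degree at
most `m`, every embedding of `F` in `ℂ`, all complex numbers `ξ_1, …, ξ_g` and all `T ≥ T₀` the number of `n`-tuples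
which are exceptional for the chosen functions is at most `C T^ε N^(n - 1)`, where `N` is the number of points. -/
theorem result {n : ℕ} {r s : Fin n → ℕ} (U : Fin n → Set ℂ) (Λ : Fin n → ℂ → PeriodPair)
    (p : ∀ j, Fin (r j) → ℂ → ℂ) (t : ∀ j, Fin (s j) → ℂ → ℂ) (hU : ∀ j, Family (U j) (Λ j) (p j) (t j)) :
    ∃ e : ∀ j, Fin (3 + 2 * r j + s j) → Name (r j) (s j), (∀ j, Function.Injective (e j)) ∧
      ∀ K : Set ℂ, IsCompact K → (∀ j, K ⊆ U j) → ∀ (m g d : ℕ) (A ε : ℝ), 0 < ε →
        ∃ B C T₀ : ℝ, ∀ (F : Type) [Field F] [NumberField F], Module.finrank ℚ F ≤ m → ∀ (ι : F →+* ℂ)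
          (ξ : Fin g → ℂ) (T : ℝ), T₀ ≤ T →
          (Exceptional n d (fun j z k => value (Λ j) (p j) (t j) z (e j k)) F ι ξ K A B T).Finite ∧
            ((Exceptional n d (fun j z k => value (Λ j) (p j) (t j) z (e j k)) F ι ξ K A B T).ncard : ℝ) ≤
              C * T ^ ε * ((Points F ι K T).ncard : ℝ) ^ (n - 1) := by
  classical
  have hF : ∀ j, Y776.Cv.FxV (U j) (Λ j) (p j) (t j) := fun j =>
    { isOpen := (hU j).isOpen, conn := (hU j).isPreconnected, an₁ := (hU j).analytic₁, an₂ := (hU j).analytic₂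
      nr := (hU j).nonconstant, ua := (hU j).analytic_p, un := (hU j).p_notMem, ui := (hU j).independent_p
      la := (hU j).analytic_t, li := (hU j).independent_t }
  have hsub : ∀ j, ∃ e : Fin (3 + 2 * r j + s j) → Y776.Cv.Nv (r j) (s j), Function.Injective e ∧
      ∀ t' ∈ U j, Y124.LocInd (fun k => Y776.Cv.yv (Λ j) (p j) (t j) (e k)) t' := fun j => by
    have h1 : 3 + 2 * r j + s j = 3 + (s j + 2 * r j) := by ring
    rw [h1]
    exact Y776.Cv.var_sub (hF j) (hU j).nonempty
  choose e he hL using hsub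
  choose nm hnm hv' using fun j => exists_name (r j) (s j)
  have hv : ∀ j z i, value (Λ j) (p j) (t j) z (nm j i) = Y776.Cv.yv (Λ j) (p j) (t j) i z := fun j z i =>
    hv' j (Λ j) (p j) (t j) z i
  refine ⟨fun j k => nm j (e j k), fun j => (hnm j).comp (he j), ?_⟩
  intro K hK hKU m g d A ε hε
  obtain ⟨B, C, T₀, hC, hT₀, H⟩ := Y776.Cv.nf_genS (η := Fin g) m n d
    (fun j => (hU j).isOpen) (fun j => (hU j).isPreconnected)
    (y := fun j k => Y776.Cv.yv (Λ j) (p j) (t j) (e j k))
    (fun j k => Y776.Cv.yv_an (hF j) (e j k)) (fun j => hL j) hK hKU A ε hε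
  refine ⟨B, C, T₀, fun F _ _ hm ι ξ T hT => ?_⟩
  have hT0 : 0 ≤ T := by linarith
  have hP : Points F ι K T = {x : F | Y120.HtLe F T x ∧ ι x ∈ K} := by
    ext x
    constructor
    · rintro ⟨h1, a, b, hb, hab, hx⟩
      exact ⟨⟨a, b, hb, Y120.house_le F hT0 fun φ => (hab φ).1, Y120.house_le F hT0 fun φ => (hab φ).2, hx⟩, h1⟩
    · rintro ⟨⟨a, b, hb, ha, hb', hx⟩, h1⟩
      exact ⟨h1, a, b, hb, fun φ => ⟨(Y120.house_ge F _ φ).trans ha, (Y120.house_ge F _ φ).trans hb'⟩, hx⟩
  have key := H F hm ι ξ T hT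
    (Exceptional n d (fun j z k => value (Λ j) (p j) (t j) z (nm j (e j k))) F ι ξ K A B T) (by
    rintro x ⟨hx, P, hPd, hPc, s₀, hs₀, hs⟩
    refine ⟨fun j => ?_, P, hPd, hPc, s₀, hs₀, ?_⟩
    · have h1 := hx j
      rw [hP] at h1
      exact h1
    · simp only [hv] at hs
      exact hs)
  rw [hP]
  exact key

end Pool.Agent.Q138.AJ.R8da9ea
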