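import Mathlib

/-!
# Lang's lower bound for almost all tuples of rationals

For almost all tuples of positive rationals of height at most `A` the inequality of Lang holds with
`C = 1 / 8` and without loss in the exponent, for all coefficients of absolute value at most `B`
at once.
-/

set_option autoImplicit false

namespace Pool.Agent.Q138.AJ.R90c6bdA

open Finset

/-- The multiplicative height of a rational number. -/
def hgt (x : ℚ) : ℕ := max x.num.natAbs x.den

/-- The linear form `b_1 log a_1 + ... + b_n log a_n`. -/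
noncomputable def Lam {n : ℕ} (a : Fin n → ℚ) (b : Fin n → ℤ) : ℝ :=
  ∑ i, (b i : ℝ) * Real.log (a i)

/-- `B_j = max (1, |b_j|)`. -/
def Bj (x : ℤ) : ℕ := max 1 x.natAbs

/-- The largest of the `B_j`. -/
def maxB {n : ℕ} (b : Fin n → ℤ) : ℕ := univ.sup fun i => Bj (b i)

/-- The product of the `B_j A_j ^ 2`. -/
def prodBA {n : ℕ} (a : Fin n → ℚ) (b : Fin n → ℤ) : ℕ := ∏ i, Bj (b i) * hgt (a i) ^ 2

/-- The positive rationals of height at most `A`. -/
def Rats (A : ℕ) : Set ℚ := {x | 0 < x ∧ hgt x ≤ A}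

/-- The tuples of positive rationals of height at most `A` for which the inequality fails, with
`C = 1 / 8`, for some integers `b_i`, not all zero, of absolute value at most `B`. -/
def Exceptional (n A B : ℕ) (ε : ℝ) : Set (Fin n → ℚ) :=
  {a | (∀ i, a i ∈ Rats A) ∧ ∃ b : Fin n → ℤ, b ≠ 0 ∧ (∀ i, (b i).natAbs ≤ B) ∧
    |Lam a b| ≤ 1 / 8 * (maxB b : ℝ) / (prodBA a b : ℝ) ^ (1 + ε)}

theorem hgt_pos (x : ℚ) : 0 < hgt x := lt_of_lt_of_le x.den_pos (le_max_right _ _)

/-- Two rationals `y < x` differ by at least `1 / (h(x) h(y))` on the logarithmic scale. -/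
theorem log_gap (x y : ℚ) (hy : 0 < y) (hxy : y < x) :
    1 / ((hgt x : ℝ) * hgt y) ≤ Real.log x - Real.log y := by
  have hx : 0 < x := hy.trans hxy
  have hx' : (0 : ℝ) < x := by exact_mod_cast hx
  have hy' : (0 : ℝ) < y := by exact_mod_cast hy
  have h1 : 1 - (y : ℝ) / x ≤ Real.log x - Real.log y := by
    rw [← Real.log_div hx'.ne' hy'.ne']
    have h2 := Real.one_sub_inv_le_log_of_pos (div_pos hx' hy')
    rwa [inv_div] at h2
  refine le_trans ?_ h1
  have hnx : 0 < x.num := Rat.num_pos.2 hx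
  have hny : 0 < y.num := Rat.num_pos.2 hy
  have hxe : (x : ℝ) = (x.num : ℝ) / x.den := by
    exact_mod_cast (Rat.num_div_den x).symm
  have hye : (y : ℝ) = (y.num : ℝ) / y.den := by
    exact_mod_cast (Rat.num_div_den y).symm
  have hdx : (0 : ℝ) < x.den := by exact_mod_cast x.den_pos
  have hdy : (0 : ℝ) < y.den := by exact_mod_cast y.den_pos
  have hnx' : (0 : ℝ) < x.num := by exact_mod_cast hnx
  have hlt : y.num * x.den < x.num * y.den := by
    have h3 : (y.num : ℝ) / y.den < (x.num : ℝ) / x.den := by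
      rw [← hxe, ← hye]; exact_mod_cast hxy
    rw [div_lt_div_iff₀ hdy hdx] at h3
    exact_mod_cast h3
  have hle : (y.num : ℝ) * x.den + 1 ≤ x.num * y.den := by exact_mod_cast hlt
  have h4 : 1 - (y : ℝ) / x = ((x.num : ℝ) * y.den - y.num * x.den) / (x.num * y.den) := by
    rw [hxe, hye]
    field_simp
  rw [h4]
  have hA1 : (x.num : ℝ) ≤ hgt x := by
    have : x.num.natAbs ≤ hgt x := le_max_left _ _
    have h5 : (x.num : ℤ) ≤ (hgt x : ℤ) := by omega
    exact_mod_cast h5
  have hA2 : (y.den : ℝ) ≤ hgt y := by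
    have : y.den ≤ hgt y := le_max_right _ _
    exact_mod_cast this
  have hpos : (0 : ℝ) < (x.num : ℝ) * y.den := by positivity
  calc 1 / ((hgt x : ℝ) * hgt y) ≤ 1 / ((x.num : ℝ) * y.den) :=
        one_div_le_one_div_of_le hpos (by gcongr)
    _ ≤ _ := by
        rw [div_le_div_iff_of_pos_right hpos]
        linarith

/-- Two different rationals of heights in the same dyadic range cannot both be close to the same
point. -/
theorem key (x y : ℚ) (hx : 0 < x) (hy : 0 < y) (hlog : Nat.log 2 (hgt x) = Nat.log 2 (hgt y))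
    (β τ : ℝ) (hβ : 1 ≤ |β|) (h1 : |β * Real.log x + τ| ≤ 1 / (8 * (hgt x : ℝ) ^ 2))
    (h2 : |β * Real.log y + τ| ≤ 1 / (8 * (hgt y : ℝ) ^ 2)) : x = y := by
  by_contra hne
  have hx0 : (0 : ℝ) < hgt x := by exact_mod_cast hgt_pos x
  have hy0 : (0 : ℝ) < hgt y := by exact_mod_cast hgt_pos y
  set j := Nat.log 2 (hgt x) with hj
  have hlow : ∀ z : ℚ, Nat.log 2 (hgt z) = j → (2 : ℝ) ^ j ≤ hgt z ∧ (hgt z : ℝ) < 2 * 2 ^ j := by
    intro z hz
    constructor
    · have := Nat.pow_log_le_self 2 (hgt_pos z).ne'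
      rw [hz] at this
      exact_mod_cast this
    · have := Nat.lt_pow_succ_log_self (b := 2) (by norm_num) (hgt z)
      rw [hz, pow_succ, mul_comm] at this
      exact_mod_cast this
  obtain ⟨hx1, hx2⟩ := hlow x rfl
  obtain ⟨hy1, hy2⟩ := hlow y hlog.symm
  set T : ℝ := (2 : ℝ) ^ j with hT
  have hT0 : 0 < T := by positivity
  have h3 : |Real.log x - Real.log y| ≤ 1 / (4 * T ^ 2) := by
    have e1 : |β| * |Real.log x - Real.log y| ≤ 1 / (4 * T ^ 2) := by
      rw [← abs_mul]
      have e2 : β * (Real.log x - Real.log y) = (β * Real.log x + τ) - (β * Real.log y + τ) := by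
        ring
      rw [e2]
      refine (abs_sub _ _).trans ?_
      have e3 : 1 / (8 * (hgt x : ℝ) ^ 2) ≤ 1 / (8 * T ^ 2) :=
        one_div_le_one_div_of_le (by positivity) (by gcongr)
      have e4 : 1 / (8 * (hgt y : ℝ) ^ 2) ≤ 1 / (8 * T ^ 2) :=
        one_div_le_one_div_of_le (by positivity) (by gcongr)
      have e5 : 1 / (8 * T ^ 2) + 1 / (8 * T ^ 2) = 1 / (4 * T ^ 2) := by
        field_simp; norm_num
      linarith
    have e6 : |Real.log x - Real.log y| ≤ |β| * |Real.log x - Real.log y| :=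
      le_mul_of_one_le_left (abs_nonneg _) hβ
    linarith
  have h4 : 1 / ((hgt x : ℝ) * hgt y) ≤ |Real.log x - Real.log y| := by
    rcases lt_or_gt_of_ne hne with h | h
    · have := log_gap y x hx h
      rw [mul_comm (hgt x : ℝ), abs_sub_comm]
      exact this.trans (le_abs_self _)
    · exact (log_gap x y hy h).trans (le_abs_self _)
  have h5 : (hgt x : ℝ) * hgt y < 4 * T ^ 2 := by nlinarith
  have h6 : 1 / (4 * T ^ 2) < 1 / ((hgt x : ℝ) * hgt y) :=
    one_div_lt_one_div_of_lt (by positivity) h5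
  linarith

/-- The positive rationals of height at most `A`, as a finite set. -/
def RF (A : ℕ) : Finset ℚ :=
  (((Icc 1 A) ×ˢ (Icc 1 A)).image fun t : ℕ × ℕ => (t.1 : ℚ) / t.2).filter
    fun x => 0 < x ∧ hgt x ≤ A

theorem coe_RF (A : ℕ) : (↑(RF A) : Set ℚ) = Rats A := by
  ext x
  rw [mem_coe, RF, mem_filter, mem_image]
  constructor
  · rintro ⟨-, h⟩
    exact h
  · rintro ⟨h1, h2⟩
    refine ⟨⟨(x.num.natAbs, x.den), ?_, ?_⟩, h1, h2⟩
    · have h3 : 0 < x.num := Rat.num_pos.2 h1
      have h4 : x.num.natAbs ≤ hgt x := le_max_left _ _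
      have h5 : x.den ≤ hgt x := le_max_right _ _
      have h6 := x.den_pos
      simp only [mem_product, mem_Icc]
      omega
    · have h3 : 0 < x.num := Rat.num_pos.2 h1
      have h4 : ((x.num.natAbs : ℕ) : ℚ) = (x.num : ℚ) := by
        rw [← Int.cast_natCast, Int.natAbs_of_nonneg h3.le]
      simp only [h4]
      exact Rat.num_div_den x

theorem result (n A B : ℕ) (hn : 1 ≤ n) (ε : ℝ) (hε : 0 ≤ ε) :
    (Rats A).Finite ∧ (Exceptional n A B ε).Finite ∧
      (Exceptional n A B ε).ncard ≤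
        (2 * B + 1) ^ n * ((Nat.log 2 A + 1) * (Rats A).ncard ^ (n - 1)) := by
  classical
  obtain ⟨m, rfl⟩ : ∃ m, n = m + 1 := ⟨n - 1, by omega⟩
  have hR : (Rats A).ncard = (RF A).card := by rw [← coe_RF, Set.ncard_coe_finset]
  have hmemR : ∀ x, x ∈ RF A ↔ x ∈ Rats A := fun x => by rw [← coe_RF, mem_coe]
  set Bs : Finset (Fin (m + 1) → ℤ) := (Fintype.piFinset fun _ => Icc (-(B : ℤ)) B).erase 0
    with hBs
  have hBcard : Bs.card ≤ (2 * B + 1) ^ (m + 1) := by
    rw [hBs]
    refine (card_erase_le).trans ?_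
    rw [Fintype.card_piFinset, prod_const, card_univ, Fintype.card_fin]
    refine le_of_eq ?_
    congr 1
    rw [Int.card_Icc]
    omega
  set Box : Finset (Fin (m + 1) → ℚ) := Fintype.piFinset fun _ => RF A with hBox
  set S : (Fin (m + 1) → ℤ) → Finset (Fin (m + 1) → ℚ) := fun b =>
    Box.filter fun a => |Lam a b| ≤ 1 / 8 * (maxB b : ℝ) / (prodBA a b : ℝ) ^ (1 + ε) with hS
  have hsub : Exceptional (m + 1) A B ε ⊆ ↑(Bs.biUnion S) := by
    rintro a ⟨ha, b, hb0, hb, hab⟩
    rw [mem_coe, mem_biUnion]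
    refine ⟨b, ?_, ?_⟩
    · rw [hBs, mem_erase, Fintype.mem_piFinset]
      refine ⟨hb0, fun i => ?_⟩
      rw [mem_Icc]
      have := hb i
      constructor <;> omega
    · rw [hS, mem_filter, hBox, Fintype.mem_piFinset]
      exact ⟨fun i => (hmemR _).2 (ha i), hab⟩
  have hScard : ∀ b ∈ Bs, (S b).card ≤ (Nat.log 2 A + 1) * (RF A).card ^ m := by
    intro b hb
    rw [hBs, mem_erase] at hb
    obtain ⟨k, -, hk⟩ := exists_mem_eq_sup (univ : Finset (Fin (m + 1)))
      ⟨0, mem_univ _⟩ (fun i => (b i).natAbs)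
    have hkmax : ∀ i, (b i).natAbs ≤ (b k).natAbs := fun i => by
      rw [← hk]; exact le_sup (f := fun i => (b i).natAbs) (mem_univ i)
    have hk1 : 1 ≤ (b k).natAbs := by
      obtain ⟨i, hi⟩ := Function.ne_iff.1 hb.1
      have h1 : 1 ≤ (b i).natAbs := Nat.one_le_iff_ne_zero.2 (Int.natAbs_ne_zero.2 hi)
      exact h1.trans (hkmax i)
    have hmax : maxB b ≤ (b k).natAbs := by
      refine Finset.sup_le fun i _ => max_le hk1 (hkmax i)
    have hBk : Bj (b k) = (b k).natAbs := max_eq_right hk1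
    have hbd : ∀ a ∈ S b, |Lam a b| ≤ 1 / (8 * (hgt (a k) : ℝ) ^ 2) := by
      intro a ha
      rw [hS, mem_filter] at ha
      refine ha.2.trans ?_
      have hpos : 0 < prodBA a b := prod_pos fun i _ =>
        Nat.mul_pos (lt_of_lt_of_le one_pos (le_max_left _ _)) (pow_pos (hgt_pos _) _)
      have hge : (b k).natAbs * hgt (a k) ^ 2 ≤ prodBA a b := by
        rw [← hBk]
        exact Nat.le_of_dvd hpos (dvd_prod_of_mem (fun i => Bj (b i) * hgt (a i) ^ 2)
          (mem_univ k))
      have hak : (0 : ℝ) < hgt (a k) := by exact_mod_cast hgt_pos _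
      have hP1 : (1 : ℝ) ≤ prodBA a b := by exact_mod_cast hpos
      have h3 : ((b k).natAbs : ℝ) * (hgt (a k) : ℝ) ^ 2 ≤ (prodBA a b : ℝ) ^ (1 + ε) := by
        calc ((b k).natAbs : ℝ) * (hgt (a k) : ℝ) ^ 2 ≤ (prodBA a b : ℝ) := by
              exact_mod_cast hge
          _ = (prodBA a b : ℝ) ^ (1 : ℝ) := (Real.rpow_one _).symm
          _ ≤ (prodBA a b : ℝ) ^ (1 + ε) := Real.rpow_le_rpow_of_exponent_le hP1 (by linarith)
      have hbk : (0 : ℝ) < ((b k).natAbs : ℝ) := by exact_mod_cast hk1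
      have hmax' : (maxB b : ℝ) ≤ ((b k).natAbs : ℝ) := by exact_mod_cast hmax
      rw [div_le_div_iff₀ (by positivity) (by positivity)]
      have h4 : (maxB b : ℝ) * (hgt (a k) : ℝ) ^ 2 ≤ ((b k).natAbs : ℝ) * (hgt (a k) : ℝ) ^ 2 := by
        gcongr
      nlinarith
    have hinj : Set.InjOn (fun a : Fin (m + 1) → ℚ =>
        (Nat.log 2 (hgt (a k)), fun i : Fin m => a (k.succAbove i)))
        (S b : Set (Fin (m + 1) → ℚ)) := by
      intro a ha a' ha' haa
      have hlog : Nat.log 2 (hgt (a k)) = Nat.log 2 (hgt (a' k)) := congrArg Prod.fst haa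
      have hrest : ∀ i : Fin m, a (k.succAbove i) = a' (k.succAbove i) :=
        fun i => congrFun (congrArg Prod.snd haa) i
      set τ : ℝ := ∑ i : Fin m, (b (k.succAbove i) : ℝ) * Real.log (a (k.succAbove i)) with hτ
      have hPa : Lam a b = (b k : ℝ) * Real.log (a k) + τ := Fin.sum_univ_succAbove _ k
      have hPa' : Lam a' b = (b k : ℝ) * Real.log (a' k) + τ := by
        rw [Lam, Fin.sum_univ_succAbove _ k, hτ]
        congr 1
        exact sum_congr rfl fun i _ => by rw [hrest]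
      have h2 := hbd a ha
      have h2' := hbd a' ha'
      rw [hPa] at h2
      rw [hPa'] at h2'
      have hapos : ∀ c ∈ S b, 0 < c k := by
        intro c hc
        rw [hS, mem_filter, hBox, Fintype.mem_piFinset] at hc
        exact ((hmemR _).1 (hc.1 k)).1
      have hβ : 1 ≤ |(b k : ℝ)| := by
        have : (1 : ℤ) ≤ |b k| := by rw [Int.abs_eq_natAbs]; exact_mod_cast hk1
        exact_mod_cast this
      have hkk : a k = a' k := key _ _ (hapos a ha) (hapos a' ha') hlog _ τ hβ h2 h2'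
      funext i
      rcases Fin.eq_self_or_eq_succAbove k i with hi | ⟨j, hj⟩
      · rw [hi]; exact hkk
      · rw [hj]; exact hrest j
    have himg : (S b).image (fun a : Fin (m + 1) → ℚ =>
        (Nat.log 2 (hgt (a k)), fun i : Fin m => a (k.succAbove i))) ⊆
        range (Nat.log 2 A + 1) ×ˢ Fintype.piFinset fun _ : Fin m => RF A := by
      intro c hc
      obtain ⟨a, ha, rfl⟩ := mem_image.1 hc
      rw [hS, mem_filter, hBox, Fintype.mem_piFinset] at ha
      rw [mem_product, Fintype.mem_piFinset, mem_range]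
      have hlg : Nat.log 2 (hgt (a k)) ≤ Nat.log 2 A :=
        Nat.log_mono_right ((hmemR _).1 (ha.1 k)).2
      exact ⟨Nat.lt_succ_of_le hlg, fun i => ha.1 _⟩
    calc (S b).card = ((S b).image (fun a : Fin (m + 1) → ℚ =>
          (Nat.log 2 (hgt (a k)), fun i : Fin m => a (k.succAbove i)))).card :=
          (card_image_of_injOn hinj).symm
      _ ≤ (range (Nat.log 2 A + 1) ×ˢ Fintype.piFinset fun _ : Fin m => RF A).card :=
          card_le_card himg
      _ = (Nat.log 2 A + 1) * (RF A).card ^ m := by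
          rw [card_product, card_range, Fintype.card_piFinset, prod_const, card_univ,
            Fintype.card_fin]
  refine ⟨by rw [← coe_RF]; exact finite_toSet _, (finite_toSet _).subset hsub, ?_⟩
  calc (Exceptional (m + 1) A B ε).ncard ≤ (↑(Bs.biUnion S) : Set (Fin (m + 1) → ℚ)).ncard :=
        Set.ncard_le_ncard hsub (finite_toSet _)
    _ = (Bs.biUnion S).card := Set.ncard_coe_finset _
    _ ≤ Bs.card * ((Nat.log 2 A + 1) * (RF A).card ^ m) := card_biUnion_le_card_mul _ _ _ hScard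
    _ ≤ (2 * B + 1) ^ (m + 1) * ((Nat.log 2 A + 1) * (Rats A).ncard ^ (m + 1 - 1)) := by
        rw [hR, Nat.add_sub_cancel]
        exact Nat.mul_le_mul_right _ hBcard

end Pool.Agent.Q138.AJ.R90c6bdA
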