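import Pool.Agent.Y673.CB.App2

/-!
# MP_a60a76_nt: few curves are congruent to a given curve modulo a prime `p > 17`

For every `ε > 0` there are `C`, `κ` such that for EVERY elliptic curve `E₀ : y² = x³ + A₀x + B₀`,
`A₀`, `B₀` integers, every `P ≥ 17` and every `X ≥ 1`: among the rational numbers `j` of height at most
`X` (there are about `12 X² / π²`) at most `C |4A₀³ + 27B₀²| ^ κ X ^ (7/(2P) + ε)` are invariants of
elliptic curves `E` over `ℚ` which are `p`-congruent to `E₀` for some prime `p ≥ P`.  For `P = 19` these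
are all primes of the conjecture, and the exponent is `7/38 + ε < 1/5`; it tends to `ε` for large `P`.

Proof.  Let `v` be a place not above `6 (4A₀³ + 27B₀²)`.
(1) If `v(j(E)) < 0` then `p ∣ v(j(E))` (`FM.loc`, also for `v ∣ p`).
(2) If `v(j(E)) ≥ 0` then `6 ∣ v(4A³ + 27B²)` (`FM.locG`), also for `v = p`: there `E` is a curve with
good reduction twisted by a character of order dividing `12` of the inertia group, and the action of the
inertia group on `E₀[p]` determines this character up to its square; this uses the points of `E₀[p]` and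
`E[p]` reducing to a nonzero point in the ordinary case, and the group law on the kernel of the
reduction (fundamental characters of level two) in the supersingular case.
By (1) the polar part of `j` is a `p`-th power up to the bad places of `E₀`, so there are few
possibilities for its support.  By (1) and (2) the field `F` of a point of order two of `E` is ramified
only at bad places of `E₀` and at poles of `j`, so its discriminant is at most a constant times
`X ^ (2/P)`, and by a bound of Schmidt's type there are few such fields.  Finally, if `e` is a root of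
the cubic, `ν = (3e² + A)/(3e² + 4A)` satisfies `j ν² = 256 (1 - ν)³` and is a unit outside the support
of the polar part of `j` and the bad places; the number of such elements of `F` of bounded height is
bounded uniformly in `F`.
-/

set_option autoImplicit false

open WeierstrassCurve
open scoped Classical

namespace Pool.Agent.Q138.AJ.Ra60a76

/-- The curve `y² = x³ + Ax + B` over `ℚ`. -/
def curve (A B : ℚ) : WeierstrassCurve ℚ := ⟨0, 0, 0, A, B⟩

/-- The group of its points over the algebraic closure of `ℚ`. -/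
abbrev Points (A B : ℚ) : Type := ((curve A B).baseChange (AlgebraicClosure ℚ)).toAffine.Point

/-- The action of an automorphism `σ` of the algebraic closure on the points. -/
noncomputable def galois (A B : ℚ) (σ : AlgebraicClosure ℚ ≃ₐ[ℚ] AlgebraicClosure ℚ) :
    Points A B →+ Points A B :=
  WeierstrassCurve.Affine.Point.map (σ : AlgebraicClosure ℚ →ₐ[ℚ] AlgebraicClosure ℚ)

/-- The curves `y² = x³ + Ax + B` and `y² = x³ + A'x + B'` are `p`-congruent: some map between the
groups of points restricts to a bijective additive map between the groups of points killed by `p` which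
commutes with the Galois group. -/
def Congruent (p : ℕ) (A B A' B' : ℚ) : Prop :=
  ∃ f : Points A B → Points A' B', (∀ P Q, p • P = 0 → p • Q = 0 → f (P + Q) = f P + f Q) ∧
    Set.BijOn f {P | p • P = 0} {Q | p • Q = 0} ∧
    ∀ (σ : AlgebraicClosure ℚ ≃ₐ[ℚ] AlgebraicClosure ℚ) (P : Points A B), p • P = 0 →
      f (galois A B σ P) = galois A' B' σ (f P)

/-- The invariant of `y² = x³ + Ax + B`. -/
def jInvariant (A B : ℚ) : ℚ := 6912 * A ^ 3 / (4 * A ^ 3 + 27 * B ^ 2)

/-- The rational numbers `j = a/b` in lowest terms with `|a| ≤ X`, `b ≤ X` which are invariants of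
elliptic curves over `ℚ` that are `p`-congruent to `y² = x³ + A₀x + B₀` for some prime `p ≥ P`. -/
def Partners (P : ℕ) (A₀ B₀ : ℤ) (X : ℝ) : Set ℚ :=
  {j | |(j.num : ℝ)| ≤ X ∧ (j.den : ℝ) ≤ X ∧
    ∃ A B : ℚ, 4 * A ^ 3 + 27 * B ^ 2 ≠ 0 ∧ jInvariant A B = j ∧
      ∃ p : ℕ, p.Prime ∧ P ≤ p ∧ Congruent p A B (A₀ : ℚ) (B₀ : ℚ)}

/-- **Few curves are congruent to a given curve.** -/
theorem result (ε : ℝ) (hε : 0 < ε) : ∃ C κ : ℝ, ∀ A₀ B₀ : ℤ, 4 * A₀ ^ 3 + 27 * B₀ ^ 2 ≠ 0 →
    ∀ (P : ℕ) (X : ℝ), 17 ≤ P → 1 ≤ X →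
      (Partners P A₀ B₀ X).Finite ∧ ((Partners P A₀ B₀ X).ncard : ℝ) ≤
        C * |((4 * A₀ ^ 3 + 27 * B₀ ^ 2 : ℤ) : ℝ)| ^ κ * X ^ (7 / (2 * P) + ε) := by
  obtain ⟨C, κ, -, -, h⟩ := Pool.Agent.Y673.CB.few_rat hε
  refine ⟨C, κ, fun A₀ B₀ h0 P X hP hX => ?_⟩
  refine Pool.Agent.Y673.Cnt.ncard_le_of _ _ fun E hE => h A₀ B₀ h0 P X hP hX E fun j hj => ?_
  obtain ⟨h1, h2, A, B, h3, h4, p, h5, h6, f, h7, h8, h9⟩ := hE (Finset.mem_coe.2 hj)
  refine ⟨?_, A, B, h3, h4, p, h5, h6, f, h7, h8, h9⟩
  rw [Rat.mulHeight₁_eq_max]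
  push_cast
  refine max_le ?_ h2
  rw [Nat.cast_natAbs, Int.cast_abs]
  exact h1

end Pool.Agent.Q138.AJ.Ra60a76
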