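import Mathlib
import Pool.Agent.H813R3.Abc.A
import Pool.Agent.H813R3.Abc.B

/-!
# The n-term abc inequality has few exceptions

For every `n ≥ 3` and every `M > 0`, all but `O(B ^ ((1 - 1 / binom(n, ⌊n/2⌋)) / M + δ))` admissible
`n`-tuples of integers of absolute value at most `B` satisfy
`max |x_j| ≤ rad(x_1 ⋯ x_n) ^ M`; for tuples with pairwise coprime `x_j` the exponent improves to
`(1 - 1 / n) / M + δ`.
-/

set_option autoImplicit false

namespace Pool.Agent.Q138.AJ.Ra95293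

open NumberField IsDedekindDomain Height

/-- An admissible `n`-tuple: coprime integers with sum zero and no vanishing proper sub-sum. -/
def Admissible {n : ℕ} (x : Fin n → ℤ) : Prop :=
  Finset.univ.gcd x = 1 ∧ ∑ i, x i = 0 ∧
    ∀ I : Finset (Fin n), I.Nonempty → I ≠ Finset.univ → ∑ i ∈ I, x i ≠ 0

/-- The radical of `x_1 ⋯ x_n`: the product of the primes dividing it. -/
def rad {n : ℕ} (x : Fin n → ℤ) : ℕ := ∏ p ∈ (∏ i, x i).natAbs.primeFactors, p

/-- The exceptions `x` to the inequality `max |x_j| ≤ rad(x_1 ⋯ x_n) ^ M` with `|x_j| ≤ B`. -/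
def exceptions (n : ℕ) (M B : ℝ) : Set (Fin n → ℤ) :=
  {x | Admissible x ∧ (∀ i, (|x i| : ℝ) ≤ B) ∧ ∃ i, ((rad x : ℕ) : ℝ) ^ M < (|x i| : ℝ)}

theorem all_tuples (n : ℕ) (hn : 3 ≤ n) (M δ : ℝ) (hM : 0 < M) (hδ : 0 < δ) :
    ∃ C : ℝ, ∀ B : ℝ, 1 ≤ B →
      (exceptions n M B).Finite ∧
      ((exceptions n M B).ncard : ℝ) ≤
        C * B ^ ((1 - 1 / (n.choose (n / 2) : ℝ)) / M + δ) := by
  classical
  obtain ⟨m, rfl⟩ : ∃ m, n = m + 1 := ⟨n - 1, by omega⟩
  have hθ : 0 ≤ 1 / M := by positivity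
  obtain ⟨C, hC, hmain⟩ := Pool.Agent.H951R3.V.main_count (K := ℚ) m ∅ Set.finite_empty
    (θ := 1 / M) (c := 0) hθ hδ
  refine ⟨C + C, fun B hB => ?_⟩
  have hB0 : 0 < B := by linarith
  refine Pool.Agent.H951R3.V.ncard_le_of_finset _ _ (by positivity) fun E hE => ?_
  have hne : ∀ x ∈ E, ∀ i, x i ≠ 0 := by
    intro x hx i
    have h := (hE hx).1.2.2 {i} (Finset.singleton_nonempty i) ?_
    · simpa using h
    · intro h
      have h1 := congrArg Finset.card h
      rw [Finset.card_singleton, Finset.card_univ, Fintype.card_fin] at h1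
      omega
  set cst : (Fin (m + 1) → ℤ) → (Fin (m + 1) → ℚ) := fun x => ((↑) : ℤ → ℚ) ∘ x with hcst
  have hcinj : Function.Injective cst := by
    intro x y h
    funext i
    have := congrFun h i
    simpa [hcst] using this
  -- the bound for a set of tuples with first coordinates of the same sign
  have key : ∀ F : Finset (Fin (m + 1) → ℤ), F ⊆ E → (∀ x ∈ F, ∀ y ∈ F, 0 < x 0 * y 0) →
      (F.card : ℝ) ≤ C * B ^ (1 / M * (1 - 1 / ((m + 1).choose ((m + 1) / 2) : ℝ)) + δ) := by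
    intro F hFE hFs
    have hcard : (F.card : ℝ) = ((F.image cst).card : ℝ) := by
      rw [Finset.card_image_of_injective _ hcinj]
    have hlh : ∀ x ∈ F, Height.logHeight (cst x) = Real.log ((⨆ i, |x i| : ℤ) : ℝ) := by
      intro x hx
      exact Rat.logHeight_eq_max_abs_of_gcd_eq_one (hE (hFE hx)).1.1
    have hsup : ∀ x ∈ F, (0 : ℝ) < ((⨆ i, |x i| : ℤ) : ℝ) ∧ ((⨆ i, |x i| : ℤ) : ℝ) ≤ B ∧
        ∀ i, (|x i| : ℝ) ≤ ((⨆ i, |x i| : ℤ) : ℝ) := by
      intro x hx
      have hbdd : BddAbove (Set.range fun i => |x i|) := (Set.finite_range _).bddAbove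
      have hle : ∀ i, |x i| ≤ ⨆ i, |x i| := fun i => le_ciSup hbdd i
      obtain ⟨j, hj⟩ := exists_eq_ciSup_of_finite (f := fun i => |x i|)
      refine ⟨?_, ?_, ?_⟩
      · have h1 : 0 < |x 0| := abs_pos.2 (hne x (hFE hx) 0)
        exact_mod_cast lt_of_lt_of_le h1 (hle 0)
      · rw [← hj]
        have := (hE (hFE hx)).2.1 j
        push_cast
        exact this
      · intro i
        have := hle i
        exact_mod_cast this
    rw [hcard]
    refine hmain B hB _ ?_ ?_ ?_ ?_ ?_ ?_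
    · intro z hz
      obtain ⟨x, hx, rfl⟩ := Finset.mem_image.mp hz
      have := (hE (hFE hx)).1.2.1
      simp only [hcst, Function.comp_apply]
      exact_mod_cast this
    · intro z hz I hI hI2
      obtain ⟨x, hx, rfl⟩ := Finset.mem_image.mp hz
      have := (hE (hFE hx)).1.2.2 I hI hI2
      simp only [hcst, Function.comp_apply]
      exact_mod_cast this
    · intro z hz i
      obtain ⟨x, hx, rfl⟩ := Finset.mem_image.mp hz
      have := hne x (hFE hx) i
      simp only [hcst, Function.comp_apply]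
      exact_mod_cast this
    · intro z hz w hw t ht hzw
      obtain ⟨x, hx, rfl⟩ := Finset.mem_image.mp hz
      obtain ⟨y, hy, rfl⟩ := Finset.mem_image.mp hw
      have h := Pool.Agent.H813R3.Abc.eq_of_prop x y (hE (hFE hx)).1.1 (hE (hFE hy)).1.1 t
        (fun i => by
          have := congrFun hzw i
          simpa [hcst] using this) 0 (hFs x hx y hy)
      rw [h]
    · intro z hz
      obtain ⟨x, hx, rfl⟩ := Finset.mem_image.mp hz
      rw [hlh x hx]
      exact Real.log_le_log (hsup x hx).1 (hsup x hx).2.1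
    · intro z hz R hR
      obtain ⟨x, hx, rfl⟩ := Finset.mem_image.mp hz
      rw [hlh x hx, add_zero]
      have h1 := Pool.Agent.H813R3.Abc.sum_ell_le x (hne x (hFE hx)) R fun v hv => (hR v hv).2
      refine h1.trans ?_
      obtain ⟨i, hi⟩ := (hE (hFE hx)).2.2
      have h2 : ((rad x : ℕ) : ℝ) ^ M ≤ ((⨆ i, |x i| : ℤ) : ℝ) := hi.le.trans ((hsup x hx).2.2 i)
      have hr : (0 : ℝ) < ((rad x : ℕ) : ℝ) := by
        have : 0 < rad x := by
          unfold rad
          exact Finset.prod_pos fun p hp => (Nat.prime_of_mem_primeFactors hp).pos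
        exact_mod_cast this
      have h3 := Real.log_le_log (by positivity) h2
      rw [Real.log_rpow hr] at h3
      rw [one_div, inv_mul_eq_div, le_div_iff₀ hM, mul_comm]
      exact h3
  have hsplit : E.card = (E.filter fun x => 0 < x 0).card + (E.filter fun x => ¬ 0 < x 0).card :=
    (Finset.card_filter_add_card_filter_not _).symm
  have h1 := key (E.filter fun x => 0 < x 0) (Finset.filter_subset _ _) (by
    intro x hx y hy
    exact mul_pos (Finset.mem_filter.1 hx).2 (Finset.mem_filter.1 hy).2)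
  have h2 := key (E.filter fun x => ¬ 0 < x 0) (Finset.filter_subset _ _) (by
    intro x hx y hy
    have hx1 := (Finset.mem_filter.1 hx).2
    have hy1 := (Finset.mem_filter.1 hy).2
    have hx2 := hne x (Finset.mem_filter.1 hx).1 0
    have hy2 := hne y (Finset.mem_filter.1 hy).1 0
    exact mul_pos_of_neg_of_neg (by omega) (by omega))
  have h3 : 1 / M * (1 - 1 / ((m + 1).choose ((m + 1) / 2) : ℝ)) =
      (1 - 1 / ((m + 1).choose ((m + 1) / 2) : ℝ)) / M := by
    rw [one_div_mul_eq_div]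
  rw [h3] at h1 h2
  rw [hsplit]
  push_cast
  linarith

theorem coprime_tuples (n : ℕ) (hn : 3 ≤ n) (M δ : ℝ) (hM : 0 < M) (hδ : 0 < δ) :
    ∃ C : ℝ, ∀ B : ℝ, 1 ≤ B →
      ({x ∈ exceptions n M B | ∀ i j, i ≠ j → IsCoprime (x i) (x j)}.ncard : ℝ) ≤
        C * B ^ ((1 - 1 / (n : ℝ)) / M + δ) := by
  classical
  obtain ⟨m, rfl⟩ : ∃ m, n = m + 1 := ⟨n - 1, by omega⟩
  obtain ⟨C, hC, hmain⟩ := Pool.Agent.H813R3.Abc.zero_sum_count m hδ
  refine ⟨C, fun B hB => ?_⟩
  have hB0 : 0 < B := by linarith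
  refine (Pool.Agent.H951R3.V.ncard_le_of_finset _ _ (by positivity) fun E hE => ?_).2
  have hne : ∀ x ∈ E, ∀ i, x i ≠ 0 := by
    intro x hx i
    have h := (hE hx).1.1.2.2 {i} (Finset.singleton_nonempty i) ?_
    · simpa using h
    · intro h
      have h1 := congrArg Finset.card h
      rw [Finset.card_singleton, Finset.card_univ, Fintype.card_fin] at h1
      omega
  have hT : 0 < B ^ (1 / M) := Real.rpow_pos_of_pos hB0 _
  have h := hmain B hB (B ^ (1 / M)) hT E (fun x hx => (hE hx).1.1.2.1) hne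
    (fun x hx => (hE hx).1.2.1) ?_
  · refine h.trans (le_of_eq ?_)
    rw [← Real.rpow_mul hB0.le, mul_assoc, ← Real.rpow_add hB0, one_div_mul_eq_div]
  · intro x hx
    refine (Pool.Agent.H813R3.Abc.prod_rho_le x (hne x hx) (hE hx).2).trans ?_
    obtain ⟨i, hi⟩ := (hE hx).1.2.2
    have h2 : ((rad x : ℕ) : ℝ) ^ M ≤ B := hi.le.trans ((hE hx).1.2.1 i)
    have h3 := Real.rpow_le_rpow (by positivity) h2 (by positivity : (0 : ℝ) ≤ 1 / M)
    rw [← Real.rpow_mul (by positivity), mul_one_div_cancel hM.ne', Real.rpow_one] at h3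
    exact h3

/-- **Few exceptions to the `n`-term abc inequality.** Let `n ≥ 3`, `M > 0` and `δ > 0`.
(1) There is `C` such that for all `B ≥ 1` at most
`C * B ^ ((1 - 1 / binom(n, ⌊n/2⌋)) / M + δ)` admissible `n`-tuples with all `|x_j| ≤ B` violate
`max |x_j| ≤ rad(x_1 ⋯ x_n) ^ M`.
(2) There is `C` such that for all `B ≥ 1` at most `C * B ^ ((1 - 1 / n) / M + δ)` of them have
pairwise coprime coordinates. -/
theorem result (n : ℕ) (hn : 3 ≤ n) (M δ : ℝ) (hM : 0 < M) (hδ : 0 < δ) :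
    (∃ C : ℝ, ∀ B : ℝ, 1 ≤ B →
      (exceptions n M B).Finite ∧
      ((exceptions n M B).ncard : ℝ) ≤
        C * B ^ ((1 - 1 / (n.choose (n / 2) : ℝ)) / M + δ)) ∧
    ∃ C : ℝ, ∀ B : ℝ, 1 ≤ B →
      ({x ∈ exceptions n M B | ∀ i j, i ≠ j → IsCoprime (x i) (x j)}.ncard : ℝ) ≤
        C * B ^ ((1 - 1 / (n : ℝ)) / M + δ) :=
  ⟨all_tuples n hn M δ hM hδ, coprime_tuples n hn M δ hM hδ⟩

end Pool.Agent.Q138.AJ.Ra95293
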