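import Pool.Agent.TH659.AQ.LogHom
import Pool.Agent.TH659.AQ.StrRank

/-!
# The four exponentials conjecture for the group generated by `N` and `u_j + x_i N`, for almost all integers `u_j`
-/

set_option autoImplicit false

namespace Pool.Agent.Q138.AJ.Rbbc1fa

/-- The rational numbers `N ^ c_0 * ∏ (u_j + x_i N) ^ c_(j,i)` with integers `c` of absolute value at most `H`. -/
def Products {n k : ℕ} (x : Fin k → ℚ) (N : ℕ) (u : Fin n → ℤ) (H : ℝ) : Set ℚ :=
  {r | ∃ (c0 : ℤ) (c : Fin n → Fin k → ℤ), |(c0 : ℝ)| ≤ H ∧ (∀ j i, |(c j i : ℝ)| ≤ H) ∧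
    r = (N : ℚ) ^ c0 * ∏ j, ∏ i, ((u j : ℚ) + x i * N) ^ (c j i)}

/-- The matrix `(log α_ij)`. -/
noncomputable def logMatrix (α : Matrix (Fin 2) (Fin 2) ℚ) : Matrix (Fin 2) (Fin 2) ℝ :=
  Matrix.of fun i j => Real.log (α i j)

/-- The `n`-tuples `u` of integers in `[a N, b N]` for which there is a `2 × 2` matrix `(log α_ij)`, `α_ij` in
`Products x N u (N ^ A)`, with `ℚ`-linearly independent rows and `ℚ`-linearly independent columns whose determinant has
absolute value at most `N ^ (-B)`. -/
def Exceptional {k : ℕ} (n : ℕ) (x : Fin k → ℚ) (a b A B : ℝ) (N : ℕ) : Set (Fin n → ℤ) :=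
  {u | (∀ j, a * N ≤ u j ∧ u j ≤ b * N) ∧
    ∃ α : Matrix (Fin 2) (Fin 2) ℚ, (∀ i j, α i j ∈ Products x N u ((N : ℝ) ^ A)) ∧
      LinearIndependent ℚ (fun i : Fin 2 => fun j : Fin 2 => logMatrix α i j) ∧
      LinearIndependent ℚ (fun j : Fin 2 => fun i : Fin 2 => logMatrix α i j) ∧
      |(logMatrix α).det| ≤ (N : ℝ) ^ (-B)}

/-- a singular matrix with a rational zero has dependent rows or columns -/
theorem four (M : Matrix (Fin 2) (Fin 2) ℝ) (h0 : M.det = 0) (w v : Fin 2 → ℚ) (hw : w ≠ 0) (hv : v ≠ 0)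
    (hwv : ∑ i, ∑ j, (w i : ℝ) * M i j * (v j : ℝ) = 0)
    (hrow : LinearIndependent ℚ (fun i : Fin 2 => fun j : Fin 2 => M i j))
    (hcol : LinearIndependent ℚ (fun j : Fin 2 => fun i : Fin 2 => M i j)) : False := by
  rw [Fintype.linearIndependent_iff] at hrow hcol
  rw [Matrix.det_fin_two] at h0
  simp only [Fin.sum_univ_two] at hwv
  -- a nonzero entry of `M v`
  obtain ⟨i, hi⟩ : ∃ i, M i 0 * v 0 + M i 1 * v 1 ≠ 0 := by
    by_contra hcon
    push Not at hcon
    apply hv
    funext j
    refine hcol v ?_ j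
    funext i
    simp only [Fin.sum_univ_two, Pi.add_apply, Pi.smul_apply, Rat.smul_def, Pi.zero_apply]
    linarith [hcon i]
  obtain ⟨j, hj⟩ : ∃ j, (w 0 : ℝ) * M 0 j + w 1 * M 1 j ≠ 0 := by
    by_contra hcon
    push Not at hcon
    apply hw
    funext i
    refine hrow w ?_ i
    funext j
    simp only [Fin.sum_univ_two, Pi.add_apply, Pi.smul_apply, Rat.smul_def, Pi.zero_apply]
    exact hcon j
  apply mul_ne_zero hi hj
  fin_cases i <;> fin_cases j <;> simp only [Fin.zero_eta, Fin.mk_one, Fin.isValue]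
  · linear_combination (M 0 0) * hwv - ((w 1 : ℝ) * v 1) * h0
  · linear_combination (M 0 1) * hwv + ((w 1 : ℝ) * v 0) * h0
  · linear_combination (M 1 0) * hwv + ((w 0 : ℝ) * v 1) * h0
  · linear_combination (M 1 1) * hwv - ((w 0 : ℝ) * v 0) * h0

open TH659.AQ in
/-- Let `x_1, …, x_k` be distinct rational numbers, `a < b` with `a + x_i > 0`, `n ≥ 1`, `A ≥ 0` and
`β > 1 - 1 / (3 ^ (k n) + 1)`. There are `B` and `C` such that for all `N ≥ 1` there are at most `C N ^ (n - 1 + β)`
exceptional `n`-tuples. -/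
theorem result (n k : ℕ) (hn : 1 ≤ n) (x : Fin k → ℚ) (hx : Function.Injective x) (a b : ℝ) (hab : a < b)
    (hpos : ∀ i, 0 < a + x i) (A β : ℝ) (hA : 0 ≤ A) (hβ : 1 - 1 / ((3 : ℝ) ^ (k * n) + 1) < β) :
    ∃ B C : ℝ, ∀ N : ℕ, 1 ≤ N → (Exceptional n x a b A B N).Finite ∧
      ((Exceptional n x a b A B N).ncard : ℝ) ≤ C * (N : ℝ) ^ ((n : ℝ) - 1 + β) := by
  classical
  have h3 : (0 : ℝ) < (3 : ℝ) ^ (k * n) := by positivity
  have hβ' : (((2 + 1) ^ (k * n) : ℕ) : ℝ) / ((((2 + 1) ^ (k * n) : ℕ) : ℝ) + 1) < β := by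
    refine lt_of_le_of_lt (le_of_eq ?_) hβ
    push_cast
    norm_num
    field_simp
    ring
  have hβ0 : 0 < β := lt_of_le_of_lt (by positivity) hβ'
  obtain ⟨B, C, h⟩ := hom_log n k 2 hn (fun i => (x i : ℝ)) (fun i j hij => hx (Rat.cast_injective (α := ℝ) hij)) a b hab hpos
    (2 * A + 1) β (by positivity) hβ'
  obtain ⟨K, hK0, hK⟩ := card_RZ a b
  set N1 : ℝ := 2 * ((k : ℝ) * n + 1) ^ 4 with hN1def
  have hN10 : 0 < N1 := by positivity
  refine ⟨B, |C| + (K * N1) ^ n, fun N hN => ?_⟩
  have hN1 : (1 : ℝ) ≤ N := by exact_mod_cast hN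
  have hNp : (0 : ℝ) < N := by linarith
  have hn1 : (1 : ℝ) ≤ n := by exact_mod_cast hn
  have hNβ : 1 ≤ (N : ℝ) ^ ((n : ℝ) - 1 + β) := Real.one_le_rpow hN1 (by linarith)
  have hKT : 0 ≤ (K * N1) ^ n := by positivity
  -- division by `N`
  let φ : (Fin n → ℤ) → (Fin n → ℚ) := fun u j => (u j : ℚ) / N
  have hN0 : (N : ℚ) ≠ 0 := by exact_mod_cast hNp.ne'
  have hφ : Function.Injective φ := by
    intro u u' huu
    funext j
    have := congrFun huu j
    simp only [φ] at this
    rw [div_left_inj' hN0] at this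
    exact_mod_cast this
  have hden : ∀ z : ℤ, ((z : ℚ) / N).den ∣ N := by
    intro z
    have h1 := Rat.den_dvd z (N : ℤ)
    rw [Rat.divInt_eq_div] at h1
    exact_mod_cast h1
  have hmem : ∀ u ∈ Exceptional n x a b A B N, ∀ j, ((φ u j : ℚ) : ℝ) ∈ Set.Icc a b ∧ (φ u j).den ∣ N := by
    intro u hu j
    refine ⟨?_, hden _⟩
    simp only [φ]
    push_cast
    rw [Set.mem_Icc, le_div_iff₀ hNp, div_le_iff₀ hNp]
    exact hu.1 j
  have hsub0 : φ '' (Exceptional n x a b A B N) ⊆
      (Fintype.piFinset fun _ : Fin n => RZ a b N : Finset (Fin n → ℚ)) := by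
    rintro _ ⟨u, hu, rfl⟩
    rw [Finset.mem_coe, Fintype.mem_piFinset]
    exact fun j => (mem_RZ hN1).2 ⟨(hmem u hu j).1, N, rfl, (hmem u hu j).2⟩
  have hfin0 : (φ '' (Exceptional n x a b A B N)).Finite := (Finset.finite_toSet _).subset hsub0
  have hfin : (Exceptional n x a b A B N).Finite := hfin0.of_finite_image hφ.injOn
  refine ⟨hfin, ?_⟩
  rw [← Set.ncard_image_of_injective _ hφ]
  rcases lt_or_ge (N : ℝ) N1 with hlt | hge
  · have h2 := Set.ncard_le_ncard hsub0 (Finset.finite_toSet _)
    rw [Set.ncard_coe_finset, Fintype.card_piFinset, Finset.prod_const, Finset.card_univ, Fintype.card_fin] at h2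
    have h3 : ((φ '' (Exceptional n x a b A B N)).ncard : ℝ) ≤ ((RZ a b N).card : ℝ) ^ n := by exact_mod_cast h2
    have h4 : ((RZ a b N).card : ℝ) ^ n ≤ (K * N1) ^ n := by
      refine pow_le_pow_left₀ (by positivity) ((hK N hN1).trans ?_) n
      exact mul_le_mul_of_nonneg_left hlt.le hK0.le
    nlinarith [abs_nonneg C]
  · obtain ⟨hf, hle⟩ := h N hN
    have hsub : φ '' (Exceptional n x a b A B N) ⊆ ExH (n := n) 2 (fun i => (x i : ℝ)) a b (2 * A + 1) B N := by
      rintro _ ⟨u, hu, rfl⟩
      refine ⟨hmem u hu, ?_⟩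
      obtain ⟨hub, α, hα, hrow, hcol, hdet⟩ := hu
      choose c0 c hc0 hc hαe using hα
      -- the coefficients
      let cc : Fin 2 → Fin 2 → Option (Fin n × Fin k) → ℤ := fun r t s => match s with
        | none => c0 r t + ∑ j, ∑ i, c r t j i
        | some z => c r t z.1 z.2
      set y := hv (fun i => (x i : ℝ)) (Real.log N) (φ u) with hy
      have hlog : ∀ r t, Real.log (α r t) = ∑ s, (cc r t s : ℝ) * y s := by
        intro r t
        have hpos' : ∀ j i, 0 < (φ u j : ℝ) + (x i : ℝ) := by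
          intro j i
          have := ((hmem u ⟨hub, α, fun i j => ⟨c0 i j, c i j, hc0 i j, hc i j, hαe i j⟩, hrow, hcol, hdet⟩ j).1).1
          linarith [hpos i]
        have hprod : ∀ j i, ((u j : ℝ) + (x i : ℝ) * N) = N * ((φ u j : ℝ) + (x i : ℝ)) := by
          intro j i
          simp only [φ]
          push_cast
          field_simp
        have hfac : ∀ j i, Real.log (((u j : ℝ) + (x i : ℝ) * N) ^ (c r t j i)) =
            (c r t j i : ℝ) * (Real.log N + lf (fun i => (x i : ℝ)) i (φ u j)) := by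
          intro j i
          rw [Real.log_zpow, hprod, Real.log_mul hNp.ne' (hpos' j i).ne']
          rfl
        have hne : ∀ j i, ((u j : ℝ) + (x i : ℝ) * N) ^ (c r t j i) ≠ 0 := by
          intro j i
          apply zpow_ne_zero
          rw [hprod]
          exact (mul_pos hNp (hpos' j i)).ne'
        rw [hαe r t]
        push_cast
        rw [Real.log_mul (zpow_ne_zero _ hNp.ne') (Finset.prod_ne_zero_iff.2 fun j _ =>
          Finset.prod_ne_zero_iff.2 fun i _ => hne j i), Real.log_zpow,
          Real.log_prod (fun j _ => Finset.prod_ne_zero_iff.2 fun i _ => hne j i)]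
        simp only [fun j => Real.log_prod (s := Finset.univ) (fun i _ => hne j i), hfac]
        rw [Fintype.sum_option, Fintype.sum_prod_type]
        simp only [cc, hy, hv]
        push_cast
        simp only [mul_add, Finset.sum_add_distrib, add_mul, Finset.sum_mul]
        ring
      have hM : logMatrix α = Matrix.of fun r t => ∑ s, (cc r t s : ℝ) * y s := by
        ext r t
        exact hlog r t
      have hev : MvPolynomial.aeval y (linMat cc).det = (logMatrix α).det := by
        rw [TH659.AQ.eval_det, hM]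
      have hHb : ∀ r t s, |(cc r t s : ℝ)| ≤ ((k : ℝ) * n + 1) * (N : ℝ) ^ A := by
        intro r t s
        have hNA : 0 < (N : ℝ) ^ A := by positivity
        cases s with
        | none =>
          simp only [cc]
          push_cast
          refine (abs_add_le _ _).trans ?_
          have h5 : |∑ j, ∑ i, (c r t j i : ℝ)| ≤ (k : ℝ) * n * (N : ℝ) ^ A := by
            refine (Finset.abs_sum_le_sum_abs _ _).trans ?_
            refine (Finset.sum_le_sum fun j _ => (Finset.abs_sum_le_sum_abs _ _).trans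
              (Finset.sum_le_sum fun i _ => hc r t j i)).trans (le_of_eq ?_)
            simp
            ring
          linarith [hc0 r t]
        | some z =>
          simp only [cc]
          refine (hc r t z.1 z.2).trans ?_
          have : (0 : ℝ) ≤ (k : ℝ) * n := by positivity
          nlinarith
      by_cases hP : (linMat cc).det = 0
      · exfalso
        obtain ⟨w, v, hw, hv', hwv⟩ := zero_det cc hP
        refine four (logMatrix α) (by rw [← hev, hP, map_zero]) w v hw hv' ?_ hrow hcol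
        rw [hM]
        simp only [Matrix.of_apply]
        have h1 : ∑ i, ∑ j, (w i : ℝ) * (∑ s, (cc i j s : ℝ) * y s) * (v j : ℝ) =
            ∑ s, (∑ i, ∑ j, (w i : ℝ) * ((cc i j s : ℤ) : ℝ) * (v j : ℝ)) * y s := by
          simp only [Finset.mul_sum, Finset.sum_mul]
          rw [Finset.sum_comm]
          simp only [Finset.sum_comm (s := (Finset.univ : Finset (Option (Fin n × Fin k))))]
          rw [Finset.sum_comm]
          refine Finset.sum_congr rfl fun i _ => ?_
          refine Finset.sum_congr rfl fun j _ => ?_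
          refine Finset.sum_congr rfl fun s _ => ?_
          ring
        rw [h1]
        refine Finset.sum_eq_zero fun s _ => ?_
        have h2 := congrArg (fun r : ℚ => (r : ℝ)) (hwv s)
        push_cast at h2
        rw [h2, zero_mul]
      · refine ⟨(linMat cc).det, hP, ?_, ?_, ?_⟩
        · exact hom_det cc
        · intro e
          refine (coeff_det cc e _ hHb).trans ?_
          have hcard : (Fintype.card (Option (Fin n × Fin k)) : ℝ) = (k : ℝ) * n + 1 := by
            rw [Fintype.card_option, Fintype.card_prod, Fintype.card_fin, Fintype.card_fin]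
            push_cast
            ring
          rw [hcard, Real.rpow_add hNp, Real.rpow_one, show (2 : ℝ) * A = A * ((2 : ℕ) : ℝ) by push_cast; ring,
            Real.rpow_mul hNp.le, Real.rpow_natCast]
          have h5 : ((Nat.factorial 2 : ℕ) : ℝ) * ((k : ℝ) * n + 1) ^ 2 * (((k : ℝ) * n + 1) * (N : ℝ) ^ A) ^ 2 =
              ((N : ℝ) ^ A) ^ 2 * N1 := by
            rw [hN1def]
            norm_num [Nat.factorial]
            ring
          rw [h5]
          exact mul_le_mul_of_nonneg_left hge (by positivity)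
        · rw [hev]
          exact hdet
    have h3 := Set.ncard_le_ncard hsub hf
    have h4 : ((φ '' (Exceptional n x a b A B N)).ncard : ℝ) ≤ _ := (Nat.cast_le (α := ℝ)).2 h3
    have h5 := h4.trans hle
    have h6 := le_abs_self C
    nlinarith

end Pool.Agent.Q138.AJ.Rbbc1fa
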