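import Pool.Agent.Y549.PE.Core

/-!
# Equality of periods in families, over arbitrary constants

An errorless test for the equality of two polynomial expressions in `π`, in arbitrary further constants `ξ_1, …, ξ_g`
(for instance other periods: values of the zeta function, logarithms, values of the Beta function) and in the periods
`K`, `E` of Legendre curves, logarithms and polylogarithms at rational parameters `q_1, …, q_n`. For `n = 1` there are at
most `C T ^ ε` parameters of denominator at most `T` at which the test gives no answer for some pair of expressions of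
bounded degree with coefficients at most `T ^ A`; there are about `T ^ 2` parameters. The starting result
`ErrorlessOnAlmostAll` has `C T ^ β` with some `β < 2`, and no constants besides `π`.
-/

set_option autoImplicit false
set_option linter.unusedSectionVars false

namespace Pool.Agent.Q138.AJ.Rbbe012

/-- The complete elliptic integral of the first kind, `K(s) = ∫_0^{π/2} (1 - s sin²θ)^(-1/2) dθ`. -/
noncomputable def K (s : ℝ) : ℝ := ∫ θ in (0 : ℝ)..(Real.pi / 2), 1 / √(1 - s * Real.sin θ ^ 2)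

/-- The complete elliptic integral of the second kind, `E(s) = ∫_0^{π/2} (1 - s sin²θ)^(1/2) dθ`. -/
noncomputable def E (s : ℝ) : ℝ := ∫ θ in (0 : ℝ)..(Real.pi / 2), √(1 - s * Real.sin θ ^ 2)

/-- `f_0(t) = log t`, and for `k ≥ 1` the polylogarithm `f_k(t) = Li_k(t) = ∑_{m ≥ 1} t^m / m^k`. -/
noncomputable def f (k : ℕ) (t : ℝ) : ℝ := if k = 0 then Real.log t else ∑' m : ℕ, t ^ (m + 1) / ((m : ℝ) + 1) ^ k

/-- The names of the `1 + g + n (4 N + w + 1)` numbers; `inl none` is the name of `π`, `inl (some i)` that of `ξ_i`. -/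
abbrev Name (g N n w : ℕ) : Type := Option (Fin g) ⊕ (Fin n × ((Fin N × Fin 4) ⊕ Fin (w + 1)))

/-- The constants `π, ξ_1, …, ξ_g`. -/
noncomputable def constants {g : ℕ} (ξ : Fin g → ℂ) (i : Option (Fin g)) : ℂ := i.elim (Real.pi : ℂ) ξ

/-- The numbers at the parameter `q`: the constants; `K(s)`, `E(s)`, `K(1 - s)`, `E(1 - s)` for
`s = (q_l - α_j) / (γ_j - α_j)`; `log q_l`, `Li_1(q_l)`, …, `Li_w(q_l)`. -/
noncomputable def numbers {g N n w : ℕ} (α γ : Fin N → ℝ) (ξ : Fin g → ℂ) (q : Fin n → ℚ) (z : Name g N n w) : ℂ :=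
  match z with
  | Sum.inl i => constants ξ i
  | Sum.inr (l, Sum.inl (j, i)) => ((![K ((q l - α j) / (γ j - α j)), E ((q l - α j) / (γ j - α j)),
      K (1 - (q l - α j) / (γ j - α j)), E (1 - (q l - α j) / (γ j - α j))] i : ℝ) : ℂ)
  | Sum.inr (l, Sum.inr k) => ((f (k : ℕ) (q l) : ℝ) : ℂ)

/-- An expression is a polynomial in the names with integer coefficients; its value at the parameter `q`. -/
noncomputable def value {g N n w : ℕ} (α γ : Fin N → ℝ) (ξ : Fin g → ℂ) (q : Fin n → ℚ)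
    (P : MvPolynomial (Name g N n w) ℤ) : ℂ :=
  MvPolynomial.aeval (numbers α γ ξ q) P

open MvPolynomial in
/-- The Legendre relations `2 K(s) E(1-s) + 2 E(s) K(1-s) - 2 K(s) K(1-s) = π`. -/
noncomputable def legendre (g N n w : ℕ) (x : Fin n × Fin N) : MvPolynomial (Name g N n w) ℤ :=
  2 * X (Sum.inr (x.1, Sum.inl (x.2, 0))) * X (Sum.inr (x.1, Sum.inl (x.2, 3))) +
  2 * X (Sum.inr (x.1, Sum.inl (x.2, 1))) * X (Sum.inr (x.1, Sum.inl (x.2, 2))) -
  2 * X (Sum.inr (x.1, Sum.inl (x.2, 0))) * X (Sum.inr (x.1, Sum.inl (x.2, 2))) - X (Sum.inl none)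

/-- The ideal generated by the Legendre relations and all polynomial relations between the constants. -/
noncomputable def relations {g : ℕ} (N n w : ℕ) (ξ : Fin g → ℂ) : Ideal (MvPolynomial (Name g N n w) ℤ) :=
  Ideal.span (Set.range (legendre g N n w) ∪
    {R | ∃ Q : MvPolynomial (Option (Fin g)) ℤ, MvPolynomial.aeval (constants ξ) Q = 0 ∧ R = MvPolynomial.rename Sum.inl Q})

open MvPolynomial in
/-- Formal equality of two expressions of degree at most `d` in each variable: their difference, multiplied by the `d`-th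
power of the product of all `2 K(s)`, is in the ideal of the relations. -/
def FormallyEqual {g N n w : ℕ} (d : ℕ) (ξ : Fin g → ℂ) (P₁ P₂ : MvPolynomial (Name g N n w) ℤ) : Prop :=
  (∏ x : Fin n × Fin N, 2 * X (Sum.inr (x.1, Sum.inl (x.2, 0)))) ^ d * (P₁ - P₂) ∈ relations N n w ξ

open Classical in
/-- The test. Input: two expressions and approximations `v₁`, `v₂` of their values with error at most `δ`. It answers
`true` (equal) if the expressions are formally equal, `false` (not equal) if they are not and `‖v₁ - v₂‖ > 2 δ`, and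
`none` (no answer) otherwise. -/
noncomputable def test {g N n w : ℕ} (d : ℕ) (ξ : Fin g → ℂ) (P₁ P₂ : MvPolynomial (Name g N n w) ℤ) (v₁ v₂ : ℂ)
    (δ : ℝ) : Option Bool :=
  if FormallyEqual d ξ P₁ P₂ then some true else if 2 * δ < ‖v₁ - v₂‖ then some false else none

/-- The parameters `q` with all `q_l` in `[a, b]` and of denominator at most `T` at which the test with precision
`δ` gives no answer for some pair of expressions of degree at most `d` in each variable, with coefficients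
at most `T ^ A` in absolute value, and some admissible approximations. -/
def NoAnswer {g : ℕ} (N n w d : ℕ) (α γ : Fin N → ℝ) (ξ : Fin g → ℂ) (a b A T δ : ℝ) : Set (Fin n → ℚ) :=
  {q | (∀ l, a ≤ q l ∧ q l ≤ b ∧ ((q l).den : ℝ) ≤ T) ∧ ∃ P₁ P₂ : MvPolynomial (Name g N n w) ℤ,
    (∀ z, P₁.degreeOf z ≤ d ∧ P₂.degreeOf z ≤ d) ∧
    (∀ s, |((P₁.coeff s : ℤ) : ℝ)| ≤ T ^ A ∧ |((P₂.coeff s : ℤ) : ℝ)| ≤ T ^ A) ∧
    ∃ v₁ v₂ : ℂ, ‖v₁ - value α γ ξ q P₁‖ ≤ δ ∧ ‖v₂ - value α γ ξ q P₂‖ ≤ δ ∧ test d ξ P₁ P₂ v₁ v₂ δ = none}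

/-- All nonzero values at the constants of integer polynomials of degree at most `D` in each variable, with coefficients
at most `H` in absolute value, have absolute value at least `μ`. -/
def LowerBound {g : ℕ} (ξ : Fin g → ℂ) (D : ℕ) (H μ : ℝ) : Prop :=
  ∀ Q : MvPolynomial (Option (Fin g)) ℤ, (∀ i, Q.degreeOf i ≤ D) → (∀ s, |((Q.coeff s : ℤ) : ℝ)| ≤ H) →
    MvPolynomial.aeval (constants ξ) Q ≠ 0 → μ ≤ ‖MvPolynomial.aeval (constants ξ) Q‖

open MvPolynomial in
/-- numerators (used in the proof only) -/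
noncomputable def num {g N n w : ℕ} (z : Name g N n w) :
    MvPolynomial (Option (Fin g) ⊕ (Fin n × ((Fin N × Fin 3) ⊕ Fin (w + 1)))) ℤ :=
  match z with
  | Sum.inl i => X (Sum.inl i)
  | Sum.inr (l, Sum.inl (j, i)) => ![X (Sum.inr (l, Sum.inl (j, 0))), X (Sum.inr (l, Sum.inl (j, 1))),
      X (Sum.inr (l, Sum.inl (j, 2))), X (Sum.inl none) + 2 * (X (Sum.inr (l, Sum.inl (j, 0))) -
        X (Sum.inr (l, Sum.inl (j, 1)))) * X (Sum.inr (l, Sum.inl (j, 2)))] i
  | Sum.inr (l, Sum.inr k) => X (Sum.inr (l, Sum.inr k))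

open MvPolynomial in
/-- denominators (used in the proof only) -/
noncomputable def den {g N n w : ℕ} (z : Name g N n w) :
    MvPolynomial (Option (Fin g) ⊕ (Fin n × ((Fin N × Fin 3) ⊕ Fin (w + 1)))) ℤ :=
  match z with
  | Sum.inl _ => 1
  | Sum.inr (l, Sum.inl (j, i)) => ![1, 1, 1, 2 * X (Sum.inr (l, Sum.inl (j, 0)))] i
  | Sum.inr (_, Sum.inr _) => 1

theorem cond {g N n w : ℕ} {R : Type} [CommRing R] (x : Name g N n w → R)
    (y : Option (Fin g) ⊕ (Fin n × ((Fin N × Fin 3) ⊕ Fin (w + 1))) → R) (h0 : ∀ i, y (Sum.inl i) = x (Sum.inl i))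
    (hK : ∀ l j, y (Sum.inr (l, Sum.inl (j, 0))) = x (Sum.inr (l, Sum.inl (j, 0))))
    (hE : ∀ l j, y (Sum.inr (l, Sum.inl (j, 1))) = x (Sum.inr (l, Sum.inl (j, 1))))
    (hK' : ∀ l j, y (Sum.inr (l, Sum.inl (j, 2))) = x (Sum.inr (l, Sum.inl (j, 2))))
    (hf : ∀ l k, y (Sum.inr (l, Sum.inr k)) = x (Sum.inr (l, Sum.inr k)))
    (hL : ∀ l j, 2 * x (Sum.inr (l, Sum.inl (j, 0))) * x (Sum.inr (l, Sum.inl (j, 3))) +
      2 * x (Sum.inr (l, Sum.inl (j, 1))) * x (Sum.inr (l, Sum.inl (j, 2))) -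
      2 * x (Sum.inr (l, Sum.inl (j, 0))) * x (Sum.inr (l, Sum.inl (j, 2))) = x (Sum.inl none)) :
    (∀ i, MvPolynomial.aeval y (num i) = MvPolynomial.aeval y (den i) * x i) ∧
      ∏ i, MvPolynomial.aeval y (den i) = ∏ z : Fin n × Fin N, 2 * x (Sum.inr (z.1, Sum.inl (z.2, 0))) := by
  refine ⟨?_, ?_⟩
  · rintro (i | ⟨l, ⟨j, i⟩ | k⟩)
    · simp [num, den, h0]
    · fin_cases i
      · simp [num, den, hK]
      · simp [num, den, hE]
      · simp [num, den, hK']
      · have := hL l j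
        simp [num, den, h0, hK, hE, hK']
        linear_combination (-1 : R) * this
    · simp [num, den, hf]
  · rw [Fintype.prod_sum_type, Fintype.prod_prod_type, Fintype.prod_prod_type]
    simp [Fintype.prod_sum_type, Fintype.prod_prod_type, Fin.prod_univ_four, den, hK]

open MvPolynomial in
theorem formal {g N n w : ℕ} (d D : ℕ) {R : Type} [CommRing R] (φ : MvPolynomial (Name g N n w) ℤ →+* R)
    (hφ : ∀ x : Fin n × Fin N, φ (legendre g N n w x) = 0)
    (P : MvPolynomial (Name g N n w) ℤ) (hd : ∀ i, P.degreeOf i ≤ d)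
    (hD : ∀ z, (TH659.AQ.elimp d num den P).degreeOf z ≤ D)
    (h0 : ∀ e : Fin n → ((Fin N × Fin 3) ⊕ Fin (w + 1)) → Fin (D + 1),
      φ (rename Sum.inl (Pool.Agent.Y549.PE.Qe (TH659.AQ.elimp d num den P) e)) = 0) :
    φ ((∏ x : Fin n × Fin N, 2 * X (Sum.inr (x.1, Sum.inl (x.2, 0)))) ^ d * P) = 0 := by
  let x : Name g N n w → R := fun i => φ (X i)
  let y : Option (Fin g) ⊕ (Fin n × ((Fin N × Fin 3) ⊕ Fin (w + 1))) → R := fun z =>
    match z with
    | Sum.inl i => x (Sum.inl i)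
    | Sum.inr (l, Sum.inl (j, i)) => x (Sum.inr (l, Sum.inl (j, Fin.castSucc i)))
    | Sum.inr (l, Sum.inr k) => x (Sum.inr (l, Sum.inr k))
  have hx : MvPolynomial.aeval x = φ.toIntAlgHom := (MvPolynomial.aeval_unique φ.toIntAlgHom).symm
  obtain ⟨h1, h2⟩ := cond x y (fun _ => rfl) (fun _ _ => rfl) (fun _ _ => rfl) (fun _ _ => rfl) (fun _ _ => rfl) (by
    intro l j
    rw [← sub_eq_zero]
    have := hφ (l, j)
    unfold legendre at this
    simpa [map_sub, map_add, map_mul, map_ofNat] using this)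
  have h3 := TH659.AQ.aeval_elimp num den x y h1 P hd
  have h4 : MvPolynomial.aeval y (TH659.AQ.elimp d num den P) = 0 := by
    rw [Pool.Agent.Y549.PE.aeval_R y _ hD]
    refine Finset.sum_eq_zero fun e _ => ?_
    have h5 := h0 e
    have h6 : φ (rename Sum.inl (Pool.Agent.Y549.PE.Qe (TH659.AQ.elimp d num den P) e)) =
        MvPolynomial.aeval (fun i => y (Sum.inl i)) (Pool.Agent.Y549.PE.Qe (TH659.AQ.elimp d num den P) e) := by
      have h7 : φ.comp (rename Sum.inl : MvPolynomial (Option (Fin g)) ℤ →ₐ[ℤ] MvPolynomial (Name g N n w) ℤ).toRingHom =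
          (MvPolynomial.aeval (fun i => y (Sum.inl i)) : MvPolynomial (Option (Fin g)) ℤ →ₐ[ℤ] R).toRingHom := by
        apply MvPolynomial.ringHom_ext
        · intro r
          simp
        · intro i
          simp [y, x]
      exact RingHom.congr_fun h7 _
    rw [← h6, h5, zero_mul]
  rw [h4, h2, hx] at h3
  rw [map_mul, map_pow, map_prod]
  simp only [map_mul, map_ofNat]
  exact h3.symm

/-- Lower bounds always exist. -/
theorem exists_lowerBound {g : ℕ} (ξ : Fin g → ℂ) (D : ℕ) (H : ℝ) : ∃ μ : ℝ, 0 < μ ∧ μ ≤ 1 ∧ LowerBound ξ D H μ := by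
  classical
  let I := (Option (Fin g) → Fin (D + 1)) → Finset.Icc (-⌈|H|⌉) ⌈|H|⌉
  let φ : I → ℝ := fun c => ‖∑ e : Option (Fin g) → Fin (D + 1), (((c e : ℤ)) : ℂ) * ∏ i, constants ξ i ^ (e i : ℕ)‖
  let s : Finset ℝ := insert 1 ((Finset.univ.image φ).filter fun x => 0 < x)
  have hs : s.Nonempty := ⟨1, Finset.mem_insert_self _ _⟩
  refine ⟨s.min' hs, ?_, Finset.min'_le _ _ (Finset.mem_insert_self _ _), ?_⟩
  · have h1 := Finset.min'_mem s hs
    rcases Finset.mem_insert.1 h1 with h2 | h2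
    · rw [h2]
      exact one_pos
    · exact (Finset.mem_filter.1 h2).2
  · intro Q hQd hQc hQ0
    have hmem : ∀ e : Option (Fin g) → Fin (D + 1), Q.coeff (TH659.AQ.fs e) ∈ Finset.Icc (-⌈|H|⌉) ⌈|H|⌉ := by
      intro e
      have h1 := (hQc (TH659.AQ.fs e)).trans ((le_abs_self H).trans (Int.le_ceil _))
      rw [Finset.mem_Icc, ← abs_le]
      exact_mod_cast h1
    let c : I := fun e => ⟨Q.coeff (TH659.AQ.fs e), hmem e⟩
    have h2 : ‖MvPolynomial.aeval (constants ξ) Q‖ = φ c := by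
      rw [TH659.AQ.aeval_box _ Q hQd]
    rw [h2]
    refine Finset.min'_le _ _ (Finset.mem_insert_of_mem (Finset.mem_filter.2 ⟨Finset.mem_image_of_mem _
      (Finset.mem_univ _), ?_⟩))
    rw [← h2]
    exact norm_pos_iff.2 hQ0

/-- Let `n ≥ 1`, `α_1 > ⋯ > α_N > 0`, `γ_1 < ⋯ < γ_N < 1` and `0 < a < b < 1` with `α_1 < a`, `b < γ_1`. For all complex
`ξ_1, …, ξ_g` the test is never wrong. For all `d`, `w`, `A ≥ 0` and `ε > 0` there are `D`, `B` and `C` such that for all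
`T ≥ 1`, all complex `ξ_1, …, ξ_g` and every `μ` in `(0, 1]` which is a lower bound for the nonzero values at
`(π, ξ_1, …, ξ_g)` of integer polynomials of degree at most `D` in each variable and coefficients at most `T ^ (A + 1)`
(there is such a `μ` for all `ξ` and `T`), there are at most `C T ^ (2 (n - 1) + ε)` parameters at which the test with
precision `μ T ^ (-B)` gives no answer for some pair of expressions. Without further constants (`g = 0`), this holds
with precision `T ^ (-B)`. -/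
theorem result {N : ℕ} (g n w d : ℕ) (hn : 1 ≤ n) (α γ : Fin N → ℝ) (hα : StrictAnti α) (hγ : StrictMono γ)
    (hα0 : ∀ j, 0 < α j) (hγ1 : ∀ j, γ j < 1) (a b : ℝ) (ha : 0 < a) (hab : a < b) (hb : b < 1)
    (h : ∀ j, α j < a ∧ b < γ j) (A ε : ℝ) (hε : 0 < ε) :
    (∀ ξ : Fin g → ℂ, ∀ q : Fin n → ℚ, (∀ l, a ≤ q l ∧ q l ≤ b) → ∀ P₁ P₂ : MvPolynomial (Name g N n w) ℤ,
      ∀ (v₁ v₂ : ℂ) (δ : ℝ), ‖v₁ - value α γ ξ q P₁‖ ≤ δ → ‖v₂ - value α γ ξ q P₂‖ ≤ δ →
      (test d ξ P₁ P₂ v₁ v₂ δ = some true → value α γ ξ q P₁ = value α γ ξ q P₂) ∧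
      (test d ξ P₁ P₂ v₁ v₂ δ = some false → value α γ ξ q P₁ ≠ value α γ ξ q P₂)) ∧
    (∃ (D : ℕ) (B C : ℝ), ∀ T : ℝ, 1 ≤ T → ∀ ξ : Fin g → ℂ, (∃ μ : ℝ, 0 < μ ∧ μ ≤ 1 ∧ LowerBound ξ D (T ^ (A + 1)) μ) ∧
      ∀ μ : ℝ, 0 < μ → μ ≤ 1 → LowerBound ξ D (T ^ (A + 1)) μ →
      (NoAnswer N n w d α γ ξ a b A T (μ * T ^ (-B))).Finite ∧
      ((NoAnswer N n w d α γ ξ a b A T (μ * T ^ (-B))).ncard : ℝ) ≤ C * T ^ (2 * ((n : ℝ) - 1) + ε)) ∧
    ∃ B C : ℝ, ∀ T : ℝ, 1 ≤ T → ∀ ξ : Fin 0 → ℂ, (NoAnswer N n w d α γ ξ a b A T (T ^ (-B))).Finite ∧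
      ((NoAnswer N n w d α γ ξ a b A T (T ^ (-B))).ncard : ℝ) ≤ C * T ^ (2 * ((n : ℝ) - 1) + ε) := by
  classical
  have hs : ∀ q : Fin n → ℚ, (∀ l, a ≤ q l ∧ q l ≤ b) → ∀ l j, 0 < ((q l : ℝ) - α j) / (γ j - α j) ∧
      ((q l : ℝ) - α j) / (γ j - α j) < 1 := by
    intro q hq l j
    have h1 := (h j).1
    have h2 := (h j).2
    have h3 := hq l
    have h4 : 0 < γ j - α j := by linarith
    exact ⟨div_pos (by linarith) h4, by rw [div_lt_one h4]; linarith⟩
  -- the Legendre relations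
  have hleg : ∀ g' : ℕ, ∀ ξ : Fin g' → ℂ, ∀ q : Fin n → ℚ, (∀ l, a ≤ q l ∧ q l ≤ b) → ∀ l j,
      2 * numbers (w := w) α γ ξ q (Sum.inr (l, Sum.inl (j, 0))) * numbers (w := w) α γ ξ q (Sum.inr (l, Sum.inl (j, 3))) +
      2 * numbers (w := w) α γ ξ q (Sum.inr (l, Sum.inl (j, 1))) * numbers (w := w) α γ ξ q (Sum.inr (l, Sum.inl (j, 2))) -
      2 * numbers (w := w) α γ ξ q (Sum.inr (l, Sum.inl (j, 0))) * numbers (w := w) α γ ξ q (Sum.inr (l, Sum.inl (j, 2))) =
      numbers (w := w) α γ ξ q (Sum.inl none) := by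
    intro g' ξ q hq l j
    obtain ⟨h1, h2⟩ := hs q hq l j
    have h3 := TH659.AQ.legHalf _ h1 h2
    have h4 : 2 * (TH818.AR.KK (((q l : ℝ) - α j) / (γ j - α j)) *
        TH818.AR.EE (1 - ((q l : ℝ) - α j) / (γ j - α j)) + TH818.AR.EE (((q l : ℝ) - α j) / (γ j - α j)) *
        TH818.AR.KK (1 - ((q l : ℝ) - α j) / (γ j - α j)) - TH818.AR.KK (((q l : ℝ) - α j) / (γ j - α j)) *
        TH818.AR.KK (1 - ((q l : ℝ) - α j) / (γ j - α j))) = Real.pi := by
      rw [h3]; ring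
    have h5 : numbers (w := w) α γ ξ q (Sum.inl none) = ((Real.pi : ℝ) : ℂ) := rfl
    rw [h5, ← h4]
    push_cast
    show 2 * ((TH818.AR.KK (((q l : ℝ) - α j) / (γ j - α j)) : ℝ) : ℂ) *
      ((TH818.AR.EE (1 - ((q l : ℝ) - α j) / (γ j - α j)) : ℝ) : ℂ) +
      2 * ((TH818.AR.EE (((q l : ℝ) - α j) / (γ j - α j)) : ℝ) : ℂ) *
      ((TH818.AR.KK (1 - ((q l : ℝ) - α j) / (γ j - α j)) : ℝ) : ℂ) -
      2 * ((TH818.AR.KK (((q l : ℝ) - α j) / (γ j - α j)) : ℝ) : ℂ) *
      ((TH818.AR.KK (1 - ((q l : ℝ) - α j) / (γ j - α j)) : ℝ) : ℂ) = _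
    ring
  have hKpos : ∀ q : Fin n → ℚ, (∀ l, a ≤ q l ∧ q l ≤ b) → ∀ l j,
      0 < K (((q l : ℝ) - α j) / (γ j - α j)) := fun q hq l j =>
    TH818.AR.pos.1 _ (hs q hq l j).2
  have hrel : ∀ g' : ℕ, ∀ ξ : Fin g' → ℂ, ∀ q : Fin n → ℚ, (∀ l, a ≤ q l ∧ q l ≤ b) →
      relations N n w ξ ≤ RingHom.ker (MvPolynomial.aeval (numbers α γ ξ q) :
          MvPolynomial (Name g' N n w) ℤ →ₐ[ℤ] ℂ) := by
    intro g' ξ q hq
    unfold relations
    rw [Ideal.span_le]
    rintro R (⟨⟨l, j⟩, rfl⟩ | ⟨Q, hQ, rfl⟩)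
    · rw [SetLike.mem_coe, RingHom.mem_ker]
      unfold legendre
      simp only [map_sub, map_add, map_mul, MvPolynomial.aeval_X, map_ofNat]
      rw [hleg g' ξ q hq l j, sub_self]
    · rw [SetLike.mem_coe, RingHom.mem_ker, MvPolynomial.aeval_rename]
      exact hQ
  -- the values
  have hAn : ∀ p, AnalyticOnNhd ℝ (TH659.AQ.u2 (w := w) α γ p) (Set.Icc a b) := fun p t ht =>
    TH659.AQ.u2_an α γ t (fun j => ⟨(h j).1.trans_le ht.1, lt_of_le_of_lt ht.2 (h j).2⟩) (ha.trans_le ht.1)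
      (lt_of_le_of_lt ht.2 hb) p
  have hInd : Y120.AInd (TH659.AQ.u2 (w := w) α γ) a b := fun D =>
    TH659.AQ.u2_ind D α γ hα hγ (fun j => (h j).1.trans (hab.trans (h j).2)) hα0 hγ1 a b ha hab hb
      (fun j => ⟨(h j).1.le, (h j).2.le⟩)
  have hbd : ∃ M : ℝ, 0 ≤ M ∧ ∀ j : Fin N, ∀ t ∈ Set.Icc a b, |TH659.AQ.u2 (w := w) α γ (Sum.inl (j, 0)) t| ≤ M := by
    have h1 : ∀ j : Fin N, ∃ M : ℝ, ∀ t ∈ Set.Icc a b, |TH659.AQ.u2 (w := w) α γ (Sum.inl (j, 0)) t| ≤ M := fun j => by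
      obtain ⟨M, hM⟩ := isCompact_Icc.exists_bound_of_continuousOn (hAn (Sum.inl (j, 0))).continuousOn
      exact ⟨M, hM⟩
    choose M hM using h1
    refine ⟨∑ j, |M j|, Finset.sum_nonneg fun _ _ => abs_nonneg _, fun j t ht => ?_⟩
    exact ((hM j t ht).trans (le_abs_self _)).trans
      (Finset.single_le_sum (f := fun j => |M j|) (fun _ _ => abs_nonneg _) (Finset.mem_univ j))
  obtain ⟨M, hM0, hM⟩ := hbd
  -- the gap
  have hgap := fun g' : ℕ => Pool.Agent.Y549.PE.gapC (G := Option (Fin g')) d hn (TH659.AQ.u2 (w := w) α γ) a b hab hAn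
    hInd (num (g := g') (N := N) (n := n) (w := w)) den {c | ∃ ξ : Fin g' → ℂ, c = constants ξ}
    (fun c q => numbers α γ (fun i => c (some i)) q) ((∏ _x : Fin n × Fin N, (2 * M)) ^ d) (by
      rintro _ ⟨ξ, rfl⟩ q hq
      obtain ⟨h1, h2⟩ := cond (numbers α γ ξ q) (Sum.elim (constants ξ) fun x : Fin n × ((Fin N × Fin 3) ⊕ Fin (w + 1)) =>
          ((TH659.AQ.u2 (w := w) α γ x.2 (q x.1) : ℝ) : ℂ)) (fun _ => rfl) (fun _ _ => rfl) (fun _ _ => rfl) (by
          intro l j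
          have hne : γ j - α j ≠ 0 := by linarith [(h j).1, (h j).2]
          have h1 : 1 - ((q l : ℝ) - α j) / (γ j - α j) = (γ j - q l) / (γ j - α j) := by
            field_simp
            ring
          show ((TH818.AR.KK ((γ j - q l) / (γ j - α j)) : ℝ) : ℂ) =
            ((TH818.AR.KK (1 - ((q l : ℝ) - α j) / (γ j - α j)) : ℝ) : ℂ)
          rw [h1]) (fun _ _ => rfl) (hleg g' ξ q hq)
      refine ⟨h1, ?_⟩
      rw [h2, norm_pow, norm_prod]
      refine pow_le_pow_left₀ (Finset.prod_nonneg fun _ _ => norm_nonneg _)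
        (Finset.prod_le_prod (fun _ _ => norm_nonneg _) fun x _ => ?_) d
      rw [norm_mul, Complex.norm_ofNat]
      have h3 : ‖numbers (w := w) α γ ξ q (Sum.inr (x.1, Sum.inl (x.2, 0)))‖ ≤ M := by
        have h4 := hM x.2 (q x.1) (hq x.1)
        have h5 : numbers (w := w) α γ ξ q (Sum.inr (x.1, Sum.inl (x.2, 0))) =
          ((TH659.AQ.u2 (w := w) α γ (Sum.inl (x.2, 0)) (q x.1) : ℝ) : ℂ) := rfl
        rw [h5, Complex.norm_real, Real.norm_eq_abs]
        exact h4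
      exact mul_le_mul_of_nonneg_left h3 (by norm_num)) A ε hε
  have key : ∀ g' : ℕ, ∃ (D : ℕ) (B C : ℝ), 0 ≤ B ∧ 0 < C ∧ ∀ T : ℝ, 1 ≤ T → ∀ (ξ : Fin g' → ℂ) (μ : ℝ), 0 < μ →
      LowerBound ξ D (T ^ (A + 1)) μ →
      (NoAnswer N n w d α γ ξ a b A T (μ * T ^ (-B))).Finite ∧
      ((NoAnswer N n w d α γ ξ a b A T (μ * T ^ (-B))).ncard : ℝ) ≤ C * T ^ (2 * ((n : ℝ) - 1) + ε) := by
    intro g'
    obtain ⟨D, B, C, hB, hC, hD, hmain⟩ := hgap g'
    refine ⟨D, B, C, hB, hC, fun T hT ξ μ hμ hlow => ?_⟩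
    obtain ⟨S, hS, hSq⟩ := hmain T hT (constants ξ) ⟨ξ, rfl⟩
    have hsub : NoAnswer N n w d α γ ξ a b A T (μ * T ^ (-B)) ⊆ (S : Set (Fin n → ℚ)) := by
      rintro q ⟨hq, P₁, P₂, hPd, hPc, v₁, v₂, hv₁, hv₂, hnone⟩
      by_contra hqS
      have hne : ¬ FormallyEqual d ξ P₁ P₂ ∧ ‖v₁ - v₂‖ ≤ 2 * (μ * T ^ (-B)) := by
        unfold test at hnone
        split_ifs at hnone with h1 h2
        exact ⟨h1, not_lt.1 h2⟩
      apply hne.1
      have hd : ∀ i, (P₁ - P₂).degreeOf i ≤ d := fun i =>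
        (MvPolynomial.degreeOf_sub_le i P₁ P₂).trans (max_le (hPd i).1 (hPd i).2)
      have h0 := hSq q hq hqS (P₁ - P₂) hd (by
        intro s
        rw [MvPolynomial.coeff_sub]
        push_cast
        refine (abs_sub _ _).trans ?_
        linarith [(hPc s).1, (hPc s).2]) μ hμ hlow (by
        rw [map_sub]
        have e1 : value α γ ξ q P₁ = MvPolynomial.aeval (numbers α γ (fun i => constants ξ (some i)) q) P₁ := rfl
        have e2 : value α γ ξ q P₂ = MvPolynomial.aeval (numbers α γ (fun i => constants ξ (some i)) q) P₂ := rfl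
        rw [← e1, ← e2]
        have e3 : value α γ ξ q P₁ - value α γ ξ q P₂ = -(v₁ - value α γ ξ q P₁) + (v₂ - value α γ ξ q P₂) + (v₁ - v₂) := by
          ring
        rw [e3]
        refine (norm_add₃_le).trans ?_
        rw [norm_neg]
        linarith [hne.2])
      have h4 := formal d D (Ideal.Quotient.mk (relations N n w ξ)) (fun x =>
        Ideal.Quotient.eq_zero_iff_mem.2 (Ideal.subset_span (Or.inl ⟨x, rfl⟩))) (P₁ - P₂) hd (fun z => hD _ z) (fun e =>
        Ideal.Quotient.eq_zero_iff_mem.2 (Ideal.subset_span (Or.inr ⟨_, h0 e, rfl⟩)))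
      exact Ideal.Quotient.eq_zero_iff_mem.1 h4
    refine ⟨S.finite_toSet.subset hsub, le_trans ?_ hS⟩
    have := Set.ncard_le_ncard hsub S.finite_toSet
    rw [Set.ncard_coe_finset] at this
    exact_mod_cast this
  refine ⟨?_, ?_, ?_⟩
  · -- soundness
    intro ξ q hq P₁ P₂ v₁ v₂ δ hv₁ hv₂
    refine ⟨?_, ?_⟩
    · intro ht
      have hfe : FormallyEqual d ξ P₁ P₂ := by
        by_contra hne
        unfold test at ht
        rw [if_neg hne] at ht
        by_cases hc : 2 * δ < ‖v₁ - v₂‖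
        · rw [if_pos hc] at ht
          exact absurd (Option.some.inj ht) (by decide)
        · rw [if_neg hc] at ht
          exact absurd ht (by simp)
      have h1 := hrel g ξ q hq hfe
      rw [RingHom.mem_ker, map_mul, map_pow, map_prod, map_sub] at h1
      have h2 : (∏ x : Fin n × Fin N, MvPolynomial.aeval (numbers α γ ξ q) (2 * MvPolynomial.X (Sum.inr (x.1, Sum.inl (x.2, 0))) :
          MvPolynomial (Name g N n w) ℤ)) ^ d ≠ 0 := by
        refine pow_ne_zero _ (Finset.prod_ne_zero_iff.2 fun x _ => ?_)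
        simp only [map_mul, MvPolynomial.aeval_X, map_ofNat]
        have h3 := hKpos q hq x.1 x.2
        have h4 : numbers (w := w) α γ ξ q (Sum.inr (x.1, Sum.inl (x.2, 0))) =
          ((K (((q x.1 : ℝ) - α x.2) / (γ x.2 - α x.2)) : ℝ) : ℂ) := rfl
        rw [h4]
        have h5 : ((K (((q x.1 : ℝ) - α x.2) / (γ x.2 - α x.2)) : ℝ) : ℂ) ≠ 0 := by exact_mod_cast h3.ne'
        exact mul_ne_zero two_ne_zero h5
      rcases mul_eq_zero.1 h1 with h3 | h3
      · exact absurd h3 h2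
      · exact sub_eq_zero.1 h3
    · intro ht heq
      have hlt : 2 * δ < ‖v₁ - v₂‖ := by
        by_contra hne
        unfold test at ht
        by_cases hc : FormallyEqual d ξ P₁ P₂
        · rw [if_pos hc] at ht
          exact absurd (Option.some.inj ht) (by decide)
        · rw [if_neg hc, if_neg hne] at ht
          exact absurd ht (by simp)
      have h1 : ‖v₁ - v₂‖ ≤ ‖v₁ - value α γ ξ q P₁‖ + ‖v₂ - value α γ ξ q P₂‖ := by
        rw [heq]
        have : v₁ - v₂ = (v₁ - value α γ ξ q P₂) - (v₂ - value α γ ξ q P₂) := by ring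
        rw [this]
        exact norm_sub_le _ _
      linarith
  · obtain ⟨D, B, C, hB, hC, hk⟩ := key g
    exact ⟨D, B, C, fun T hT ξ => ⟨exists_lowerBound ξ D _, fun μ hμ _ hlow => hk T hT ξ μ hμ hlow⟩⟩
  · obtain ⟨D, B, C, hB, hC, hk⟩ := key 0
    obtain ⟨B1, T1, hm⟩ := TH818.AP.goodConst_pi D (A + 1)
    obtain ⟨K', hK', hKc⟩ := TH818.AP.card_RT_gen a b
    have hn1 : (1 : ℝ) ≤ n := by exact_mod_cast hn
    set T2 : ℝ := max T1 1 with hT2
    have hT21 : 1 ≤ T2 := le_max_right _ _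
    refine ⟨B1 + B, C + (K' * T2 ^ (2 : ℝ)) ^ n, fun T hT ξ => ?_⟩
    have hTp : 0 < T := by linarith
    have hone : 1 ≤ T ^ (2 * ((n : ℝ) - 1) + ε) := Real.one_le_rpow hT (by nlinarith)
    have h3 : 0 ≤ (K' * T2 ^ (2 : ℝ)) ^ n := by positivity
    rcases lt_or_ge T T2 with hlt | hge
    · have hsub : NoAnswer N n w d α γ ξ a b A T (T ^ (-(B1 + B))) ⊆
          ((Fintype.piFinset fun _ : Fin n => TH818.AP.RT a b T : Finset (Fin n → ℚ)) : Set (Fin n → ℚ)) := by
        rintro q ⟨hq, -⟩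
        rw [Finset.mem_coe, Fintype.mem_piFinset]
        exact fun l => TH818.AP.mem_RT.2 ⟨⟨(hq l).1, (hq l).2.1⟩, (hq l).2.2⟩
      refine ⟨(Finset.finite_toSet _).subset hsub, ?_⟩
      have h4 := Set.ncard_le_ncard hsub (Finset.finite_toSet _)
      rw [Set.ncard_coe_finset, Fintype.card_piFinset, Finset.prod_const, Finset.card_univ, Fintype.card_fin] at h4
      have h5 : ((NoAnswer N n w d α γ ξ a b A T (T ^ (-(B1 + B)))).ncard : ℝ) ≤ ((TH818.AP.RT a b T).card : ℝ) ^ n := by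
        exact_mod_cast h4
      have h1 : ((TH818.AP.RT a b T).card : ℝ) ^ n ≤ (K' * T2 ^ (2 : ℝ)) ^ n := by
        refine pow_le_pow_left₀ (by positivity) ((hKc T hT).trans ?_) _
        exact mul_le_mul_of_nonneg_left (Real.rpow_le_rpow hTp.le hlt.le (by norm_num)) hK'.le
      nlinarith
    · have hlow : LowerBound ξ D (T ^ (A + 1)) (T ^ (-B1)) := by
        intro Q hQd hQc hQ0
        have hT1T : T1 ≤ T := (le_max_left _ _).trans hge
        have h4 : MvPolynomial.aeval (constants ξ) Q = ((∑ e : Fin (D + 1),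
            ((Q.coeff (TH659.AQ.fs fun _ => e) : ℤ) : ℝ) * Real.pi ^ (e : ℕ) : ℝ) : ℂ) := by
          rw [TH659.AQ.aeval_box _ Q hQd, ← Equiv.sum_comp (Equiv.funUnique (Option (Fin 0)) (Fin (D + 1))).symm]
          push_cast
          refine Finset.sum_congr rfl fun e _ => ?_
          have h5 : (Equiv.funUnique (Option (Fin 0)) (Fin (D + 1))).symm e = fun _ => e := rfl
          have h7 : ∏ i : Option (Fin 0), constants ξ i ^ (e : ℕ) = (Real.pi : ℂ) ^ (e : ℕ) := by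
            rw [Fintype.prod_option]
            simp [constants]
          rw [h5, h7]
        rw [h4, Complex.norm_real, Real.norm_eq_abs]
        refine hm T hT1T (fun e => Q.coeff (TH659.AQ.fs fun _ => e)) ?_ (fun e => hQc _)
        intro h0
        apply hQ0
        rw [h4]
        have h6 : ∀ e : Fin (D + 1), Q.coeff (TH659.AQ.fs fun _ => e) = 0 := fun e => congrFun h0 e
        simp [h6]
      obtain ⟨h4, h5⟩ := hk T hT ξ (T ^ (-B1)) (by positivity) hlow
      have h6 : T ^ (-B1) * T ^ (-B) = T ^ (-(B1 + B)) := by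
        rw [← Real.rpow_add hTp]
        congr 1
        ring
      rw [h6] at h4 h5
      refine ⟨h4, h5.trans ?_⟩
      nlinarith

end Pool.Agent.Q138.AJ.Rbbe012
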