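import Mathlib
import Pool.Agent.Y913.Zm.Fer
import Pool.Agent.Y902.FD.Fin

/-!
# Solutions of the generalised Fermat equation counted by their bases

Consider the solutions of `a x ^ p + b y ^ q = c z ^ r` with `gcd (ax, by, cz) = 1` and nonzero
entries, counted by their triples of terms. For all `n` and `ε > 0` there are `K`, `R`, `C`, `η > 0`
such that for every `Y ≥ 1`:

* at most `C Y ^ ε` triples of terms come from solutions with `|x|, |y|, |z| ≤ Y`, coefficients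
  which are products of powers of `n` integers `≤ Y`, and a term `≥ Y ^ K`;
* at most `C Y ^ ε` triples of terms come from solutions with `|x|, |y|, |z| ≤ Y`, coefficients
  which are products of powers of `n` integers `≤ Y ^ η`, and large exponents: two of them `≥ R`, or
  all of them `≥ 2` and one `≥ R`.

In particular, for every finite set `S` of primes there are at most `C Y ^ ε` triples of terms of
`S`-solutions with `|x|, |y|, |z| ≤ Y` and large exponents. There is no bound on the exponents, the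
terms or the coefficients.
-/

set_option autoImplicit false

namespace Pool.Agent.Q138.AJ.Rbe1fae

/-- `a` is, up to sign, a product of powers of `n` positive integers `≤ W` -/
def Coefficient (n : ℕ) (W : ℝ) (a : ℤ) : Prop :=
  ∃ y e : Fin n → ℕ, (∀ i, 0 < y i ∧ (y i : ℝ) ≤ W) ∧ a.natAbs = ∏ i, y i ^ e i

/-- solutions of `a x ^ p + b y ^ q = c z ^ r` with nonzero entries, positive exponents and
`gcd (ax, by, cz) = 1` -/
def Solution (a b c x y z : ℤ) (p q r : ℕ) : Prop :=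
  a * x ^ p + b * y ^ q = c * z ^ r ∧ a ≠ 0 ∧ b ≠ 0 ∧ c ≠ 0 ∧ x ≠ 0 ∧ y ≠ 0 ∧ z ≠ 0 ∧
    0 < p ∧ 0 < q ∧ 0 < r ∧ Int.gcd (a * x) (Int.gcd (b * y) (c * z)) = 1

/-- all three bases are at most `Y` -/
def Bases (Y : ℝ) (x y z : ℤ) : Prop := |(x : ℝ)| ≤ Y ∧ |(y : ℝ)| ≤ Y ∧ |(z : ℝ)| ≤ Y

/-- at least two of the exponents are `≥ R` -/
def TwoLarge (R p q r : ℕ) : Prop := (R ≤ p ∧ R ≤ q) ∨ (R ≤ p ∧ R ≤ r) ∨ (R ≤ q ∧ R ≤ r)

/-- the largest absolute value of a term -/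
noncomputable def top (t : ℤ × ℤ × ℤ) : ℝ := max (max |(t.1 : ℝ)| |(t.2.1 : ℝ)|) |(t.2.2 : ℝ)|

/-- the triples of terms of the solutions with `|x|, |y|, |z| ≤ Y`, coefficients made of `n`
integers `≤ Y`, and largest term `≥ Y ^ K` -/
def Tall (n : ℕ) (K Y : ℝ) : Set (ℤ × ℤ × ℤ) :=
  {t | ∃ (a b c x y z : ℤ) (p q r : ℕ), Solution a b c x y z p q r ∧
    t = (a * x ^ p, b * y ^ q, c * z ^ r) ∧
    Coefficient n Y a ∧ Coefficient n Y b ∧ Coefficient n Y c ∧ Bases Y x y z ∧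
    Y ^ K ≤ top t}

/-- all exponents are `≥ 2` and one is `≥ R` -/
def OneLarge (R p q r : ℕ) : Prop := 2 ≤ p ∧ 2 ≤ q ∧ 2 ≤ r ∧ (R ≤ p ∨ R ≤ q ∨ R ≤ r)

/-- the triples of terms of the solutions with `|x|, |y|, |z| ≤ Y`, coefficients made of `n`
integers `≤ Y ^ η`, and large exponents: two of them `≥ R`, or all `≥ 2` and one `≥ R` -/
def General (n R : ℕ) (η Y : ℝ) : Set (ℤ × ℤ × ℤ) :=
  {t | ∃ (a b c x y z : ℤ) (p q r : ℕ), Solution a b c x y z p q r ∧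
    t = (a * x ^ p, b * y ^ q, c * z ^ r) ∧
    Coefficient n (Y ^ η) a ∧ Coefficient n (Y ^ η) b ∧ Coefficient n (Y ^ η) c ∧
    Bases Y x y z ∧ (TwoLarge R p q r ∨ OneLarge R p q r)}

/-- the triples of terms of the `S`-solutions with `|x|, |y|, |z| ≤ Y` and large exponents -/
def ByBases (S : Finset ℕ) (R : ℕ) (Y : ℝ) : Set (ℤ × ℤ × ℤ) :=
  {t | ∃ (a b c x y z : ℤ) (p q r : ℕ), Solution a b c x y z p q r ∧
    t = (a * x ^ p, b * y ^ q, c * z ^ r) ∧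
    (∀ l : ℕ, l.Prime → (l : ℤ) ∣ a * b * c → l ∈ S) ∧
    (TwoLarge R p q r ∨ OneLarge R p q r) ∧ Bases Y x y z}

open Finset Pool.Agent.Y913 Pool.Agent.Y913.Nb Pool.Agent.Y913.Vm Pool.Agent.Y913.Zm

/-- a permutation of the members -/
lemma fa_of {n R : ℕ} {W Y : ℝ} {m a x p : Fin 3 → ℕ}
    (hm : ∀ i, m i = a i * x i ^ p i ∧ NB n W (a i) ∧ 0 < x i ∧ (x i : ℝ) ≤ Y)
    (hR : ∃ i j, i ≠ j ∧ R ≤ p i ∧ R ≤ p j) (σ : Equiv.Perm (Fin 3)) {q : ℕ × ℕ}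
    (hq : ∀ i, mem3 q (σ i) = m i) (h1 : 0 < q.1) (h2 : 0 < q.2) (h3 : Nat.Coprime q.1 q.2) :
    FA n R W Y q := by
  refine ⟨h1, h2, h3, a ∘ σ.symm, x ∘ σ.symm, p ∘ σ.symm, ?_, ?_⟩
  · intro i
    have h4 := hq (σ.symm i)
    rw [Equiv.apply_symm_apply] at h4
    rw [h4]
    exact hm (σ.symm i)
  · obtain ⟨i, j, hij, hi, hj⟩ := hR
    refine ⟨σ i, σ j, fun h => hij (σ.injective h), ?_, ?_⟩
    · simpa using hi
    · simpa using hj

/-- the pair of coprime positive integers attached to a triple of terms -/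
def pr (t : ℤ × ℤ × ℤ) : ℕ × ℕ :=
  if t.1.natAbs + t.2.1.natAbs = t.2.2.natAbs then (t.1.natAbs, t.2.1.natAbs)
  else if t.1.natAbs + t.2.2.natAbs = t.2.1.natAbs then (t.1.natAbs, t.2.2.natAbs)
  else (t.2.1.natAbs, t.2.2.natAbs)

/-- the position of the largest term -/
def ps (t : ℤ × ℤ × ℤ) : Fin 3 :=
  if t.1.natAbs + t.2.1.natAbs = t.2.2.natAbs then 2
  else if t.1.natAbs + t.2.2.natAbs = t.2.1.natAbs then 1 else 0

lemma fa_terms {n R : ℕ} {W Y : ℝ} {a b c x y z : ℤ} {p q r : ℕ}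
    (hs : Solution a b c x y z p q r) (ha : Coefficient n W a) (hb : Coefficient n W b)
    (hc : Coefficient n W c) (hB : Bases Y x y z) (hR : TwoLarge R p q r) :
    FA n R W Y (pr (a * x ^ p, b * y ^ q, c * z ^ r)) := by
  obtain ⟨heq, ha0, hb0, hc0, hx0, hy0, hz0, hp, hq, hr, hgcd⟩ := hs
  obtain ⟨t, ht⟩ : ∃ t : ℤ × ℤ × ℤ, t = (a * x ^ p, b * y ^ q, c * z ^ r) := ⟨_, rfl⟩
  rw [← ht]
  have hA : t.1.natAbs = a.natAbs * x.natAbs ^ p := by
    rw [ht]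
    simp only [Int.natAbs_mul, Int.natAbs_pow]
  have hBm : t.2.1.natAbs = b.natAbs * y.natAbs ^ q := by
    rw [ht]
    simp only [Int.natAbs_mul, Int.natAbs_pow]
  have hC : t.2.2.natAbs = c.natAbs * z.natAbs ^ r := by
    rw [ht]
    simp only [Int.natAbs_mul, Int.natAbs_pow]
  have hsum : t.1 + t.2.1 = t.2.2 := by rw [ht]; exact heq
  have hpos1 : 0 < t.1.natAbs := by
    rw [ht]
    exact Int.natAbs_pos.mpr (mul_ne_zero ha0 (pow_ne_zero _ hx0))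
  have hpos2 : 0 < t.2.1.natAbs := by
    rw [ht]
    exact Int.natAbs_pos.mpr (mul_ne_zero hb0 (pow_ne_zero _ hy0))
  have hpos3 : 0 < t.2.2.natAbs := by
    rw [ht]
    exact Int.natAbs_pos.mpr (mul_ne_zero hc0 (pow_ne_zero _ hz0))
  -- coprimality
  have hdv : ∀ l : ℕ, l.Prime → ¬ ((l : ℤ) ∣ t.1 ∧ (l : ℤ) ∣ t.2.1 ∧ (l : ℤ) ∣ t.2.2) := by
    rintro l hl ⟨h1, h2, h3⟩
    have hlp : Prime (l : ℤ) := Nat.prime_iff_prime_int.mp hl
    rw [ht] at h1 h2 h3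
    have g : ∀ (u v : ℤ) (k : ℕ), (l : ℤ) ∣ u * v ^ k → (l : ℤ) ∣ u * v := by
      intro u v k h
      rcases hlp.dvd_or_dvd h with h | h
      · exact h.mul_right _
      · exact (hlp.dvd_of_dvd_pow h).mul_left _
    have h4 := Int.dvd_coe_gcd (g a x p h1)
      (Int.dvd_coe_gcd (g b y q h2) (g c z r h3))
    rw [hgcd] at h4
    exact hlp.not_isUnit (isUnit_of_dvd_one (by exact_mod_cast h4))
  have hcop12 : Nat.Coprime t.1.natAbs t.2.1.natAbs := by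
    apply Nat.Coprime.symm
    apply Nat.coprime_of_dvd
    intro l hl h1 h2
    rw [← Int.natCast_dvd] at h1 h2
    exact hdv l hl ⟨h2, h1, by rw [← hsum]; exact dvd_add h2 h1⟩
  have hcop13 : Nat.Coprime t.1.natAbs t.2.2.natAbs := by
    apply Nat.Coprime.symm
    apply Nat.coprime_of_dvd
    intro l hl h1 h2
    rw [← Int.natCast_dvd] at h1 h2
    refine hdv l hl ⟨h2, ?_, h1⟩
    have : t.2.1 = t.2.2 - t.1 := by rw [← hsum]; ring
    rw [this]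
    exact dvd_sub h1 h2
  have hcop23 : Nat.Coprime t.2.1.natAbs t.2.2.natAbs := by
    apply Nat.Coprime.symm
    apply Nat.coprime_of_dvd
    intro l hl h1 h2
    rw [← Int.natCast_dvd] at h1 h2
    refine hdv l hl ⟨?_, h2, h1⟩
    have : t.1 = t.2.2 - t.2.1 := by rw [← hsum]; ring
    rw [this]
    exact dvd_sub h1 h2
  -- the data
  have hxY : ∀ u : ℤ, |(u : ℝ)| ≤ Y → (u.natAbs : ℝ) ≤ Y := by
    intro u hu
    rwa [Nat.cast_natAbs, Int.cast_abs]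
  have hm : ∀ i, (![t.1.natAbs, t.2.1.natAbs, t.2.2.natAbs] : Fin 3 → ℕ) i =
      (![a.natAbs, b.natAbs, c.natAbs] : Fin 3 → ℕ) i *
        (![x.natAbs, y.natAbs, z.natAbs] : Fin 3 → ℕ) i ^ (![p, q, r] : Fin 3 → ℕ) i ∧
      NB n W ((![a.natAbs, b.natAbs, c.natAbs] : Fin 3 → ℕ) i) ∧
      0 < (![x.natAbs, y.natAbs, z.natAbs] : Fin 3 → ℕ) i ∧
      (((![x.natAbs, y.natAbs, z.natAbs] : Fin 3 → ℕ) i : ℕ) : ℝ) ≤ Y := by
    intro i
    fin_cases i
    · exact ⟨hA, ha, Int.natAbs_pos.mpr hx0, hxY x hB.1⟩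
    · exact ⟨hBm, hb, Int.natAbs_pos.mpr hy0, hxY y hB.2.1⟩
    · exact ⟨hC, hc, Int.natAbs_pos.mpr hz0, hxY z hB.2.2⟩
  have hR' : ∃ i j : Fin 3, i ≠ j ∧ R ≤ (![p, q, r] : Fin 3 → ℕ) i ∧
      R ≤ (![p, q, r] : Fin 3 → ℕ) j := by
    rcases hR with h | h | h
    · exact ⟨0, 1, by decide, h.1, h.2⟩
    · exact ⟨0, 2, by decide, h.1, h.2⟩
    · exact ⟨1, 2, by decide, h.1, h.2⟩
  unfold pr
  split_ifs with h1 h2
  · refine fa_of hm hR' (Equiv.refl _) (q := (t.1.natAbs, t.2.1.natAbs)) ?_ hpos1 hpos2 hcop12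
    intro i
    fin_cases i
    · rfl
    · rfl
    · exact h1
  · refine fa_of hm hR' (Equiv.swap 1 2) (q := (t.1.natAbs, t.2.2.natAbs)) ?_ hpos1 hpos3
      hcop13
    intro i
    fin_cases i
    · rfl
    · exact h2
    · rfl
  · have h3 : t.2.1.natAbs + t.2.2.natAbs = t.1.natAbs := by omega
    refine fa_of hm hR' (finRotate 3).symm (q := (t.2.1.natAbs, t.2.2.natAbs)) ?_ hpos2 hpos3
      hcop23
    intro i
    fin_cases i
    · exact h3
    · rfl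
    · rfl

/-- a triple of terms is determined by its pair, the position of the largest term and signs -/
lemma card_terms (T : Finset (ℤ × ℤ × ℤ)) (hT : ∀ t ∈ T, t.1 + t.2.1 = t.2.2) :
    T.card ≤ 12 * (T.image pr).card := by
  classical
  have h1 : T.card ≤ ((Finset.univ : Finset (Fin 3 × Bool × Bool)) ×ˢ T.image pr).card := by
    apply Finset.card_le_card_of_injOn
      (fun t => ((ps t, decide (0 ≤ t.1), decide (0 ≤ t.2.1)), pr t))
    · intro t ht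
      rw [Finset.mem_coe] at ht ⊢
      rw [Finset.mem_product]
      exact ⟨Finset.mem_univ _, Finset.mem_image_of_mem _ ht⟩
    · rintro ⟨A, B, C⟩ ht ⟨A', B', C'⟩ ht' heq
      have e1 := hT _ (Finset.mem_coe.mp ht)
      have e2 := hT _ (Finset.mem_coe.mp ht')
      simp only [Prod.mk.injEq, decide_eq_decide] at heq e1 e2
      obtain ⟨⟨h2, h3, h4⟩, h5⟩ := heq
      unfold ps at h2
      unfold pr at h5
      simp only at h2 h5
      split_ifs at h2 h5 <;> simp only [Prod.mk.injEq] at h5 <;>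
        first
        | (exact absurd h2 (by decide))
        | (simp only [Prod.mk.injEq]; omega)
  rw [Finset.card_product, Finset.card_univ] at h1
  have : Fintype.card (Fin 3 × Bool × Bool) = 12 := by decide
  rwa [this] at h1

lemma finite_bound {T : Set (ℤ × ℤ × ℤ)} {N : ℝ}
    (h : ∀ Q : Finset (ℤ × ℤ × ℤ), (∀ q ∈ Q, q ∈ T) → (Q.card : ℝ) ≤ N) :
    T.Finite ∧ (T.ncard : ℝ) ≤ N := by
  have hfin : T.Finite := by
    by_contra hinf
    rw [← Set.Infinite] at hinf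
    obtain ⟨Q, hQ1, hQ2⟩ := hinf.exists_subset_card_eq (⌊N⌋₊ + 1)
    have h3 := h Q (fun q hq => hQ1 hq)
    rw [hQ2] at h3
    push_cast at h3
    have := Nat.lt_floor_add_one N
    linarith
  refine ⟨hfin, ?_⟩
  rw [Set.ncard_eq_toFinset_card _ hfin]
  exact h _ (fun q hq => by simpa using hq)

/-- coefficients composed of the primes of a finite set -/
lemma coeff_of_primes (S : Finset ℕ) {W : ℝ} (hW : 1 ≤ W) (hS : ∀ l ∈ S, (l : ℝ) ≤ W) {a : ℤ}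
    (ha : a ≠ 0) (h : ∀ l : ℕ, l.Prime → (l : ℤ) ∣ a → l ∈ S) : Coefficient S.card W a := by
  classical
  have h1 : a.natAbs ≠ 0 := Int.natAbs_ne_zero.mpr ha
  have h2 : a.natAbs.primeFactors ⊆ S := by
    intro l hl
    rw [Nat.mem_primeFactors] at hl
    exact h l hl.1 (Int.natCast_dvd.mpr hl.2.1)
  have h3 : a.natAbs = ∏ l ∈ a.natAbs.primeFactors, l ^ a.natAbs.factorization l := by
    conv_lhs => rw [← Nat.prod_factorization_pow_eq_self h1]
    rfl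
  have h4 : NB S.card W a.natAbs := by
    apply NB.of_type (ι := {l // l ∈ S}) (Fintype.card_coe S)
      (fun l => if l.1 ∈ a.natAbs.primeFactors then l.1 else 1)
      (fun l => a.natAbs.factorization l.1)
    · intro l
      split_ifs with hl
      · exact ⟨(Nat.prime_of_mem_primeFactors hl).pos, hS _ l.2⟩
      · exact ⟨one_pos, by push_cast; exact hW⟩
    · conv_lhs => rw [h3]
      rw [Finset.prod_coe_sort S (fun l => (if l ∈ a.natAbs.primeFactors then l else 1) ^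
        a.natAbs.factorization l)]
      have h5 : ∏ l ∈ a.natAbs.primeFactors, l ^ a.natAbs.factorization l =
          ∏ l ∈ a.natAbs.primeFactors, (if l ∈ a.natAbs.primeFactors then l else 1) ^
            a.natAbs.factorization l := by
        apply Finset.prod_congr rfl
        intro l hl
        rw [if_pos hl]
      rw [h5]
      apply Finset.prod_subset h2
      intro l _ hl
      rw [if_neg hl, one_pow]
  exact h4

/-- constants depending on `S` -/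
lemma exists_L (S : Finset ℕ) {η : ℝ} (hη : 0 < η) : ∃ L : ℝ, 1 ≤ L ∧ 2 ≤ L ^ η ∧
    ∀ l ∈ S, (l : ℝ) ≤ L ^ η := by
  have h0 : 0 ≤ ∑ l ∈ S, (l : ℝ) := Finset.sum_nonneg (fun l _ => Nat.cast_nonneg l)
  refine ⟨(2 + ∑ l ∈ S, (l : ℝ)) ^ (1 / η), ?_, ?_, ?_⟩
  · apply Real.one_le_rpow
    · linarith
    · positivity
  · rw [← Real.rpow_mul (by linarith), one_div_mul_cancel hη.ne', Real.rpow_one]
    linarith
  · intro l hl
    rw [← Real.rpow_mul (by linarith), one_div_mul_cancel hη.ne', Real.rpow_one]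
    have := Finset.single_le_sum (f := fun l : ℕ => (l : ℝ))
      (fun l _ => Nat.cast_nonneg l) hl
    linarith

/-- the pair and the triple of terms -/
lemma pr_sum {t : ℤ × ℤ × ℤ} (h : t.1 + t.2.1 = t.2.2) :
    max (max t.1.natAbs t.2.1.natAbs) t.2.2.natAbs = (pr t).1 + (pr t).2 ∧
    (pr t).1 * (pr t).2 * ((pr t).1 + (pr t).2) =
      t.1.natAbs * t.2.1.natAbs * t.2.2.natAbs := by
  unfold pr
  split_ifs with h1 h2
  · simp only
    rw [h1]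
    exact ⟨by omega, rfl⟩
  · simp only
    rw [h2]
    exact ⟨by omega, by ring⟩
  · have h3 : t.2.1.natAbs + t.2.2.natAbs = t.1.natAbs := by omega
    simp only
    rw [h3]
    exact ⟨by omega, by ring⟩

lemma top_eq {t : ℤ × ℤ × ℤ} (h : t.1 + t.2.1 = t.2.2) :
    top t = (((pr t).1 + (pr t).2 : ℕ) : ℝ) := by
  unfold top
  rw [← (pr_sum h).1]
  push_cast
  simp only [Nat.cast_natAbs, Int.cast_abs]

/-- solutions with large terms -/
lemma tall_count (n : ℕ) (ε : ℝ) (hε : 0 < ε) : ∃ K C : ℝ, 0 < K ∧ 0 < C ∧ ∀ Y : ℝ, 1 ≤ Y →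
    ∀ T : Finset (ℤ × ℤ × ℤ), (∀ t ∈ T, t ∈ Tall n K Y) → (T.card : ℝ) ≤ C * Y ^ ε := by
  classical
  obtain ⟨K, C, hK, hC, h⟩ := nt_count (n + 1) ε hε
  refine ⟨K, 12 * C, hK, by positivity, ?_⟩
  intro Y hY T hT
  have h1 := card_terms T (by
    intro t ht
    obtain ⟨a, b, c, x, y, z, p, q, r, hs, rfl, -⟩ := hT t ht
    exact hs.1)
  have h2 := h Y hY (T.image pr) (by
    intro q hq
    rw [Finset.mem_image] at hq
    obtain ⟨t, ht, rfl⟩ := hq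
    obtain ⟨a, b, c, x, y, z, p, q, r, hs, rfl, ha, hb, hc, hB, htop⟩ := hT t ht
    have hfa := fa_terms (R := 0) hs ha hb hc hB (Or.inl ⟨Nat.zero_le _, Nat.zero_le _⟩)
    obtain ⟨n1, n2, n3⟩ := hfa.nb le_rfl
    rw [top_eq hs.1] at htop
    exact ⟨hfa.1, hfa.2.1, hfa.2.2.1, n1, n2, n3, htop⟩)
  have h3 : (T.card : ℝ) ≤ 12 * ((T.image pr).card : ℝ) := by exact_mod_cast h1
  calc (T.card : ℝ) ≤ 12 * ((T.image pr).card : ℝ) := h3
    _ ≤ 12 * (C * Y ^ ε) := by linarith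
    _ = 12 * C * Y ^ ε := by ring

/-- solutions with two large exponents -/
lemma two_count (n : ℕ) (ε : ℝ) (hε : 0 < ε) : ∃ R : ℕ, ∃ C η : ℝ, 0 < C ∧
    0 < η ∧ ∀ Y : ℝ, 1 ≤ Y → ∀ T : Finset (ℤ × ℤ × ℤ),
      (∀ t ∈ T, ∃ (a b c x y z : ℤ) (p q r : ℕ), Solution a b c x y z p q r ∧
        t = (a * x ^ p, b * y ^ q, c * z ^ r) ∧
        Coefficient n (Y ^ η) a ∧ Coefficient n (Y ^ η) b ∧ Coefficient n (Y ^ η) c ∧
        Bases Y x y z ∧ TwoLarge R p q r) →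
      (T.card : ℝ) ≤ C * Y ^ ε := by
  classical
  obtain ⟨R, C, η, hC, hη, h⟩ := fa_count n ε hε
  refine ⟨R, 12 * C, η, by positivity, hη, ?_⟩
  intro Y hY T hT
  have h1 := card_terms T (by
    intro t ht
    obtain ⟨a, b, c, x, y, z, p, q, r, hs, rfl, -⟩ := hT t ht
    exact hs.1)
  have h2 := h Y hY (T.image pr) (by
    intro q hq
    rw [Finset.mem_image] at hq
    obtain ⟨t, ht, rfl⟩ := hq
    obtain ⟨a, b, c, x, y, z, p, q, r, hs, rfl, ha, hb, hc, hB, hR⟩ := hT t ht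
    exact fa_terms hs ha hb hc hB hR)
  have h3 : (T.card : ℝ) ≤ 12 * ((T.image pr).card : ℝ) := by exact_mod_cast h1
  calc (T.card : ℝ) ≤ 12 * ((T.image pr).card : ℝ) := h3
    _ ≤ 12 * (C * Y ^ ε) := by linarith
    _ = 12 * C * Y ^ ε := by ring

lemma Coefficient.mono {n : ℕ} {W W' : ℝ} (h : W ≤ W') {a : ℤ} (ha : Coefficient n W a) :
    Coefficient n W' a := by
  obtain ⟨y, e, hy, hm⟩ := ha
  exact ⟨y, e, fun i => ⟨(hy i).1, (hy i).2.trans h⟩, hm⟩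

/-- the radical of a coefficient -/
lemma rd_le {n : ℕ} {W : ℝ} (hW : 1 ≤ W) {a : ℤ} (ha : Coefficient n W a) :
    (Pool.Agent.Y902.FD.rd a : ℝ) ≤ W ^ n := by
  obtain ⟨y, e, hy, hm⟩ := ha
  have hpos : 0 < ∏ i, y i := Finset.prod_pos (fun i _ => (hy i).1)
  have h1 : Pool.Agent.Y902.FD.rd a ∣ ∏ i, y i := by
    unfold Pool.Agent.Y902.FD.rd
    refine (Finset.prod_dvd_prod_of_subset _ (∏ i, y i).primeFactors _ ?_).trans
      (Nat.prod_primeFactors_dvd _)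
    intro l hl
    rw [Nat.mem_primeFactors] at hl ⊢
    refine ⟨hl.1, ?_, hpos.ne'⟩
    obtain ⟨hl1, hl2, -⟩ := hl
    rw [hm, hl1.prime.dvd_finset_prod_iff] at hl2
    obtain ⟨i, hi, hl3⟩ := hl2
    exact (hl1.dvd_of_dvd_pow hl3).trans (Finset.dvd_prod_of_mem y hi)
  calc (Pool.Agent.Y902.FD.rd a : ℝ) ≤ ((∏ i, y i : ℕ) : ℝ) := by
        exact_mod_cast Nat.le_of_dvd hpos h1
    _ = ∏ i, (y i : ℝ) := by push_cast; rfl
    _ ≤ ∏ _i : Fin n, W := Finset.prod_le_prod (fun i _ => by positivity) (fun i _ => (hy i).2)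
    _ = W ^ n := by rw [Finset.prod_const, Finset.card_univ, Fintype.card_fin]

/-- solutions with one large exponent -/
lemma one_count (n : ℕ) (ε : ℝ) (hε : 0 < ε) : ∃ R : ℕ, ∃ C η : ℝ, 0 < C ∧
    0 < η ∧ ∀ Y : ℝ, 1 ≤ Y → ∀ T : Finset (ℤ × ℤ × ℤ),
      (∀ t ∈ T, ∃ (a b c x y z : ℤ) (p q r : ℕ), Solution a b c x y z p q r ∧
        t = (a * x ^ p, b * y ^ q, c * z ^ r) ∧
        Coefficient n (Y ^ η) a ∧ Coefficient n (Y ^ η) b ∧ Coefficient n (Y ^ η) c ∧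
        Bases Y x y z ∧ OneLarge R p q r) →
      (T.card : ℝ) ≤ C * Y ^ ε := by
  classical
  obtain ⟨K, C1, hK, hC1, h1⟩ := tall_count n ε hε
  obtain ⟨R, δ, Y0, hδ, h2⟩ := Pool.Agent.Y902.FD.rad_one (⌈K⌉₊ + 1) (by omega) ε hε
  obtain ⟨η, hη⟩ : ∃ η : ℝ, η = min 1 (δ / (n + 1)) := ⟨_, rfl⟩
  have hη0 : 0 < η := by rw [hη]; exact lt_min one_pos (by positivity)
  have hη1 : η ≤ 1 := by rw [hη]; exact min_le_left _ _
  have hηδ : η * n ≤ δ := by
    have h3 : η ≤ δ / (n + 1) := by rw [hη]; exact min_le_right _ _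
    rw [le_div_iff₀ (by positivity)] at h3
    nlinarith
  have hev : ∀ᶠ Z : ℝ in Filter.atTop, K * Real.log Z ≤ Z ^ δ := by
    have h3 := (isLittleO_log_rpow_atTop hδ).bound (by positivity : (0 : ℝ) < 1 / K)
    filter_upwards [h3, Filter.eventually_gt_atTop (1 : ℝ)] with Z h4 hZ
    have hl0 : 0 ≤ Real.log Z := Real.log_nonneg hZ.le
    rw [Real.norm_eq_abs, Real.norm_eq_abs, abs_of_nonneg hl0, abs_of_pos (by positivity)] at h4
    calc K * Real.log Z ≤ K * (1 / K * Z ^ δ) := mul_le_mul_of_nonneg_left h4 hK.le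
      _ = Z ^ δ := by field_simp
  obtain ⟨Z1, hZ1⟩ := Filter.eventually_atTop.mp hev
  obtain ⟨L, hL⟩ : ∃ L : ℝ, L = max (max Z1 Y0) 1 := ⟨_, rfl⟩
  have hL1 : 1 ≤ L := by rw [hL]; exact le_max_right _ _
  have hLZ : Z1 ≤ L := by rw [hL]; exact (le_max_left _ _).trans (le_max_left _ _)
  have hLY : (Y0 : ℝ) ≤ L := by rw [hL]; exact (le_max_right _ _).trans (le_max_left _ _)
  refine ⟨R, (C1 + 1) * (2 * L) ^ ε, η, by positivity, hη0, ?_⟩
  intro Y hY T hT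
  obtain ⟨N, hN⟩ : ∃ N : ℕ, N = ⌈L * Y⌉₊ := ⟨_, rfl⟩
  have hNL : L * Y ≤ (N : ℝ) := by rw [hN]; exact Nat.le_ceil _
  have hNU : (N : ℝ) ≤ 2 * L * Y := by
    have h3 : (N : ℝ) < L * Y + 1 := by rw [hN]; exact Nat.ceil_lt_add_one (by positivity)
    nlinarith
  have hYN : Y ≤ (N : ℝ) := by nlinarith
  have hLN : L ≤ (N : ℝ) := by nlinarith
  have hN1 : (1 : ℝ) ≤ (N : ℝ) := by linarith
  have hN0 : (0 : ℝ) < (N : ℝ) := by linarith
  have hYηN : Y ^ η ≤ (N : ℝ) ^ η := Real.rpow_le_rpow (by linarith) hYN hη0.le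
  have hYη1 : 1 ≤ Y ^ η := Real.one_le_rpow hY hη0.le
  have hYη : Y ^ η ≤ (N : ℝ) := by
    calc Y ^ η ≤ Y ^ (1 : ℝ) := Real.rpow_le_rpow_of_exponent_le hY hη1
      _ = Y := Real.rpow_one Y
      _ ≤ (N : ℝ) := hYN
  have hYn : (Y ^ η) ^ n ≤ (N : ℝ) ^ δ := by
    calc (Y ^ η) ^ n ≤ ((N : ℝ) ^ η) ^ n := pow_le_pow_left₀ (by positivity) hYηN _
      _ = (N : ℝ) ^ (η * n) := by rw [← Real.rpow_natCast, ← Real.rpow_mul hN0.le]
      _ ≤ (N : ℝ) ^ δ := Real.rpow_le_rpow_of_exponent_le hN1 hηδ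
  have hNK : (N : ℝ) ^ K ≤ Real.exp ((N : ℝ) ^ δ) := by
    rw [Real.rpow_def_of_pos hN0]
    apply Real.exp_le_exp.mpr
    have := hZ1 N (hLZ.trans hLN)
    linarith
  have c1 := h1 N hN1 (T.filter (fun t => (N : ℝ) ^ K ≤ top t)) (by
    intro t ht
    obtain ⟨ht, hM⟩ := Finset.mem_filter.mp ht
    obtain ⟨a, b, c, x, y, z, p, q, r, hs, hte, ha, hb, hc, hB, -⟩ := hT t ht
    exact ⟨a, b, c, x, y, z, p, q, r, hs, hte, ha.mono hYη, hb.mono hYη, hc.mono hYη,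
      ⟨hB.1.trans hYN, hB.2.1.trans hYN, hB.2.2.trans hYN⟩, hM⟩)
  obtain ⟨hfin, hcount⟩ := h2 N (by exact_mod_cast hLY.trans hLN)
  have hsub : ((T.filter (fun t => ¬ (N : ℝ) ^ K ≤ top t) : Finset (ℤ × ℤ × ℤ)) :
      Set (ℤ × ℤ × ℤ)) ⊆ Pool.Agent.Y902.FD.RadOne N R ((N : ℝ) ^ (⌈K⌉₊ + 1)) ((N : ℝ) ^ δ)
        (Real.exp ((N : ℝ) ^ δ)) := by
    intro t ht
    obtain ⟨ht, hM⟩ := Finset.mem_filter.mp (Finset.mem_coe.mp ht)
    rw [not_le] at hM
    obtain ⟨a, b, c, x, y, z, p, q, r, hs, hte, ha, hb, hc, hB, hR⟩ := hT t ht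
    obtain ⟨heq, ha0, hb0, hc0, hx0, hy0, hz0, hp, hq, hr, hgcd⟩ := hs
    have hKn : (N : ℝ) ^ K ≤ (N : ℝ) ^ (⌈K⌉₊ + 1) := by
      rw [← Real.rpow_natCast]
      apply Real.rpow_le_rpow_of_exponent_le hN1
      push_cast
      have := Nat.le_ceil K
      linarith
    have t1 : |(t.1 : ℝ)| ≤ top t := (le_max_left _ _).trans (le_max_left _ _)
    have t2 : |(t.2.1 : ℝ)| ≤ top t := (le_max_right _ _).trans (le_max_left _ _)
    have t3 : |(t.2.2 : ℝ)| ≤ top t := le_max_right _ _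
    have s1 : ((|t.1| : ℤ) : ℝ) ≤ (N : ℝ) ^ K := by rw [Int.cast_abs]; linarith
    have s2 : ((|t.2.1| : ℤ) : ℝ) ≤ (N : ℝ) ^ K := by rw [Int.cast_abs]; linarith
    have s3 : ((|t.2.2| : ℤ) : ℝ) ≤ (N : ℝ) ^ K := by rw [Int.cast_abs]; linarith
    have hbn : ∀ u : ℤ, |(u : ℝ)| ≤ Y → |u| ≤ (N : ℤ) := by
      intro u hu
      have h5 : ((|u| : ℤ) : ℝ) ≤ ((N : ℤ) : ℝ) := by
        rw [Int.cast_abs, Int.cast_natCast]
        exact hu.trans hYN
      exact_mod_cast h5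
    refine ⟨⟨s1.trans hNK, s2.trans hNK, s3.trans hNK⟩, a, b, c, x, y, z, p, q, r,
      ⟨ha0, hb0, hc0, hx0, hy0, hz0, hbn x hB.1, hbn y hB.2.1, hbn z hB.2.2, ?_, heq⟩,
      hR.1, hR.2.1, hR.2.2.1, hR.2.2.2, ?_, ?_, ?_, (rd_le hYη1 ha).trans hYn,
      (rd_le hYη1 hb).trans hYn, (rd_le hYη1 hc).trans hYn, hte⟩
    · rw [Int.gcd_assoc]
      exact hgcd
    · rw [hte] at s1
      exact (Pool.Agent.Y902.FD.coef_le hx0 s1).trans hKn
    · rw [hte] at s2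
      exact (Pool.Agent.Y902.FD.coef_le hy0 s2).trans hKn
    · rw [hte] at s3
      exact (Pool.Agent.Y902.FD.coef_le hz0 s3).trans hKn
  have c2 : ((T.filter (fun t => ¬ (N : ℝ) ^ K ≤ top t)).card : ℝ) ≤ (N : ℝ) ^ ε := by
    have h5 := Set.ncard_le_ncard hsub hfin
    rw [Set.ncard_coe_finset] at h5
    exact le_trans (by exact_mod_cast h5) hcount
  have hcard : (T.card : ℝ) = (T.filter (fun t => (N : ℝ) ^ K ≤ top t)).card +
      (T.filter (fun t => ¬ (N : ℝ) ^ K ≤ top t)).card := by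
    exact_mod_cast (Finset.card_filter_add_card_filter_not
      (fun t : ℤ × ℤ × ℤ => (N : ℝ) ^ K ≤ top t)).symm
  have hNε : (N : ℝ) ^ ε ≤ (2 * L) ^ ε * Y ^ ε := by
    rw [← Real.mul_rpow (by positivity) (by linarith)]
    exact Real.rpow_le_rpow hN0.le hNU hε.le
  calc (T.card : ℝ) ≤ C1 * (N : ℝ) ^ ε + (N : ℝ) ^ ε := by linarith
    _ = (C1 + 1) * (N : ℝ) ^ ε := by ring
    _ ≤ (C1 + 1) * ((2 * L) ^ ε * Y ^ ε) := mul_le_mul_of_nonneg_left hNε (by positivity)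
    _ = (C1 + 1) * (2 * L) ^ ε * Y ^ ε := by ring

/-- solutions with large exponents -/
lemma general (n : ℕ) (ε : ℝ) (hε : 0 < ε) : ∃ R : ℕ, ∃ C η : ℝ, 0 < C ∧
    0 < η ∧ ∀ Y : ℝ, 1 ≤ Y → ∀ T : Finset (ℤ × ℤ × ℤ), (∀ t ∈ T, t ∈ General n R η Y) →
      (T.card : ℝ) ≤ C * Y ^ ε := by
  classical
  obtain ⟨R1, C1, η1, hC1, hη1, h1⟩ := two_count n ε hε
  obtain ⟨R2, C2, η2, hC2, hη2, h2⟩ := one_count n ε hε
  refine ⟨max R1 R2, C1 + C2, min η1 η2, by positivity, lt_min hη1 hη2, ?_⟩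
  intro Y hY T hT
  have e1 : Y ^ (min η1 η2) ≤ Y ^ η1 := Real.rpow_le_rpow_of_exponent_le hY (min_le_left _ _)
  have e2 : Y ^ (min η1 η2) ≤ Y ^ η2 := Real.rpow_le_rpow_of_exponent_le hY (min_le_right _ _)
  let P : ℤ × ℤ × ℤ → Prop := fun t => ∃ (a b c x y z : ℤ) (p q r : ℕ),
    Solution a b c x y z p q r ∧ t = (a * x ^ p, b * y ^ q, c * z ^ r) ∧
        Coefficient n (Y ^ η1) a ∧ Coefficient n (Y ^ η1) b ∧ Coefficient n (Y ^ η1) c ∧
        Bases Y x y z ∧ TwoLarge R1 p q r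
  have c1 := h1 Y hY (T.filter P) (fun t ht => (Finset.mem_filter.mp ht).2)
  have c2 := h2 Y hY (T.filter (fun t => ¬ P t)) (by
    intro t ht
    obtain ⟨ht, hnP⟩ := Finset.mem_filter.mp ht
    obtain ⟨a, b, c, x, y, z, p, q, r, hs, hte, ha, hb, hc, hB, hR⟩ := hT t ht
    rcases hR with hR | hR
    · exfalso
      apply hnP
      refine ⟨a, b, c, x, y, z, p, q, r, hs, hte, ha.mono e1, hb.mono e1, hc.mono e1, hB, ?_⟩
      unfold TwoLarge at hR ⊢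
      omega
    · refine ⟨a, b, c, x, y, z, p, q, r, hs, hte, ha.mono e2, hb.mono e2, hc.mono e2, hB, ?_⟩
      unfold OneLarge at hR ⊢
      omega)
  have hcard : (T.card : ℝ) = (T.filter P).card + (T.filter (fun t => ¬ P t)).card := by
    exact_mod_cast (Finset.card_filter_add_card_filter_not P).symm
  calc (T.card : ℝ) ≤ C1 * Y ^ ε + C2 * Y ^ ε := by linarith
    _ = (C1 + C2) * Y ^ ε := by ring

/-- **Solutions of the generalised Fermat equation counted by their bases.** -/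
theorem result :
    (∀ (n : ℕ) (ε : ℝ), 0 < ε → ∃ K C : ℝ, 0 < K ∧ 0 < C ∧
      ∀ Y : ℝ, 1 ≤ Y → (Tall n K Y).Finite ∧ ((Tall n K Y).ncard : ℝ) ≤ C * Y ^ ε) ∧
    (∀ (n : ℕ) (ε : ℝ), 0 < ε → ∃ (R : ℕ) (C η : ℝ), 0 < C ∧ 0 < η ∧
      ∀ Y : ℝ, 1 ≤ Y → (General n R η Y).Finite ∧
        ((General n R η Y).ncard : ℝ) ≤ C * Y ^ ε) ∧
    ∀ (S : Finset ℕ) (ε : ℝ), 0 < ε → ∃ (R : ℕ) (C : ℝ), 0 < C ∧
      ∀ Y : ℝ, 1 ≤ Y → (ByBases S R Y).Finite ∧ ((ByBases S R Y).ncard : ℝ) ≤ C * Y ^ ε := by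
  classical
  refine ⟨?_, ?_, ?_⟩
  · intro n ε hε
    obtain ⟨K, C, hK, hC, h⟩ := tall_count n ε hε
    exact ⟨K, C, hK, hC, fun Y hY => finite_bound (h Y hY)⟩
  · intro n ε hε
    obtain ⟨R, C, η, hC, hη, h⟩ := general n ε hε
    exact ⟨R, C, η, hC, hη, fun Y hY => finite_bound (h Y hY)⟩
  · intro S ε hε
    obtain ⟨R, C, η, hC, hη, h⟩ := general S.card ε hε
    obtain ⟨L, hL1, hL2, hL⟩ := exists_L S hη
    refine ⟨R, C * L ^ ε, by positivity, ?_⟩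
    intro Y hY
    have hLY : 1 ≤ L * Y := by nlinarith
    have hYL : Y ≤ L * Y := by nlinarith
    have hLY2 : L ^ η ≤ (L * Y) ^ η := Real.rpow_le_rpow (by linarith) (by nlinarith) hη.le
    have hW1 : 1 ≤ (L * Y) ^ η := by linarith
    have hW : ∀ l ∈ S, (l : ℝ) ≤ (L * Y) ^ η := fun l hl => (hL l hl).trans hLY2
    have hfin : C * (L * Y) ^ ε = C * L ^ ε * Y ^ ε := by
      rw [Real.mul_rpow (by linarith) (by linarith)]
      ring
    rw [← hfin]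
    apply finite_bound
    intro T hT
    apply h (L * Y) hLY T
    intro t ht
    obtain ⟨a, b, c, x, y, z, p, q, r, hs, rfl, hS, hR, hB⟩ := hT t ht
    have hs' := hs
    obtain ⟨heq, ha0, hb0, hc0, hx0, hy0, hz0, hp, hq, hr, hgcd⟩ := hs'
    refine ⟨a, b, c, x, y, z, p, q, r, hs, rfl, ?_, ?_, ?_, ?_, hR⟩
    · exact coeff_of_primes S hW1 hW ha0 (fun l hl hd => hS l hl ((hd.mul_right b).mul_right c))
    · exact coeff_of_primes S hW1 hW hb0 (fun l hl hd => hS l hl ((hd.mul_left a).mul_right c))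
    · exact coeff_of_primes S hW1 hW hc0 (fun l hl hd => hS l hl (hd.mul_left (a * b)))
    · exact ⟨hB.1.trans hYL, hB.2.1.trans hYL, hB.2.2.trans hYL⟩

end Pool.Agent.Q138.AJ.Rbe1fae
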