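import Mathlib
import Pool.Agent.Y729.AE.Rat

/-!
# Violators of Frey's inequality among the Weil restrictions of all elliptic curves

Frey's inequality says that `h_F(A) ≤ (n / 2 + ε) log N_A + c` for all abelian varieties `A` over
`ℚ` of dimension `n`. We count the violators among the Weil restrictions `A = Res_{L/ℚ} E`, where
`L` runs over ALL number fields of degree `n` and `E` over ALL elliptic curves over `L`. Here
`h_F(A) = n h_F(E)` (stable Faltings heights) and `N_A = N_{L/ℚ}(f_E) |D_L| ^ 2` (Milne), where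
`f_E` is the conductor of `E`, so that `N_A` is a multiple of `|D_L| ^ 2` times the product of the
norms of the primes of bad reduction of `E`. The violators are shown to be few, for every slope
`κ > 0` in place of `n / 2 + ε`, and the family is shown to be large.

The proof combines
* for every `E`, a cubic, quadratic or trivial extension `F/L` generated by a point of order two,
  which is unramified at the good primes not dividing `2`, so that its discriminant bounds from
  below the product of the bad primes;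
* a bound of Schmidt's type for the number of extensions `F/L` of degree at most `3`, uniform in `L`,
  and bounds for the number of fields `L` of degree `n` (Schmidt, Lemke Oliver - Thorne);
* a count of the Legendre parameters in the normal closure of `F/L`, uniform in this field;
* for the lower bound, Eisenstein polynomials and the surjectivity of the modular invariant.
-/

set_option autoImplicit false

namespace Pool.Agent.Q138.AJ.Rc59389

open NumberField IsDedekindDomain

/-- the modular invariant `j(τ) = E₄(τ) ^ 3 / Δ(τ) = 1 / q + 744 + ⋯` -/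
noncomputable def jInv (τ : UpperHalfPlane) : ℂ :=
  ModularForm.E₄ τ ^ 3 / ModularForm.discriminant τ

/-- the archimedean term `- log (|Δ(τ)| (Im τ) ^ 6)` of the Faltings height -/
noncomputable def arch (τ : UpperHalfPlane) : ℝ :=
  -Real.log (‖ModularForm.discriminant τ‖ * τ.im ^ 6)

/-- Silverman's formula for the stable Faltings height (up to an additive constant which depends on
the normalisation of the metric only) of an elliptic curve with modular invariant `j ∈ K`, where
`τ w` is a point of the upper half plane with modular invariant `j` at the infinite place `w`: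
`12 [K : ℚ] h_F = ∑_v log max(|j|_v, 1) + ∑_w [K_w : ℝ] arch (τ w)`. -/
noncomputable def faltings {K : Type} [Field K] [NumberField K] (j : K)
    (τ : InfinitePlace K → UpperHalfPlane) : ℝ :=
  (∑ᶠ v : HeightOneSpectrum (𝓞 K), Real.log (max (FinitePlace.mk v j) 1) +
    ∑ w : InfinitePlace K, (w.mult : ℝ) * arch (τ w)) / (12 * Module.finrank ℚ K)

/-- the points `τ w` have modular invariant `j` -/
def IsPeriod {K : Type} [Field K] [NumberField K] (j : K)
    (τ : InfinitePlace K → UpperHalfPlane) : Prop := ∀ w, jInv (τ w) = w.embedding j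

/-- good reduction at `v`: some Weierstrass equation over `K` of the curve is integral at `v` and
has a discriminant which is a unit at `v` -/
def GoodAt {K : Type} [Field K] [NumberField K] (v : HeightOneSpectrum (𝓞 K))
    (E : WeierstrassCurve K) : Prop :=
  ∃ C : WeierstrassCurve.VariableChange K,
    v.valuation K (C • E).a₁ ≤ 1 ∧ v.valuation K (C • E).a₂ ≤ 1 ∧ v.valuation K (C • E).a₃ ≤ 1 ∧
    v.valuation K (C • E).a₄ ≤ 1 ∧ v.valuation K (C • E).a₆ ≤ 1 ∧ v.valuation K (C • E).Δ = 1

/-- the product of the norms of the primes of bad reduction; it divides the norm of the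
conductor -/
noncomputable def badNorm {K : Type} [Field K] [NumberField K] (E : WeierstrassCurve K) : ℝ :=
  ∏ᶠ v ∈ {v : HeightOneSpectrum (𝓞 K) | ¬ GoodAt v E}, (Ideal.absNorm v.asIdeal : ℝ)

/-- The pairs `(L, j)` where `L` is a number field of degree `n` (in the algebraic closure of `ℚ`)
and `j ∈ L` is the modular invariant of an elliptic curve `E` over `L` such that
`A = Res_{L/ℚ} E` has stable Faltings height `h_F(A) = n h_F(E) ≤ log B`. -/
def Family (n : ℕ) (B : ℝ) :
    Set (IntermediateField ℚ (AlgebraicClosure ℚ) × AlgebraicClosure ℚ) :=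
  {p | ∃ (_ : NumberField p.1) (E : WeierstrassCurve p.1) (τ : InfinitePlace p.1 → UpperHalfPlane),
    Module.finrank ℚ p.1 = n ∧ E.Δ ≠ 0 ∧
    ((E.c₄ ^ 3 / E.Δ : p.1) : AlgebraicClosure ℚ) = p.2 ∧
    IsPeriod (E.c₄ ^ 3 / E.Δ) τ ∧ (n : ℝ) * faltings (E.c₄ ^ 3 / E.Δ) τ ≤ Real.log B}

/-- The pairs `(L, j)` for which there is an elliptic curve `E` over `L` as in `Family` such that
moreover `h_F(A) > κ log N + c`, where `N = |D_L| ^ 2 * badNorm E` is a divisor of the conductor of
`A = Res_{L/ℚ} E`. -/
def Violators (n : ℕ) (κ c B : ℝ) :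
    Set (IntermediateField ℚ (AlgebraicClosure ℚ) × AlgebraicClosure ℚ) :=
  {p | ∃ (_ : NumberField p.1) (E : WeierstrassCurve p.1) (τ : InfinitePlace p.1 → UpperHalfPlane),
    Module.finrank ℚ p.1 = n ∧ E.Δ ≠ 0 ∧
    ((E.c₄ ^ 3 / E.Δ : p.1) : AlgebraicClosure ℚ) = p.2 ∧
    IsPeriod (E.c₄ ^ 3 / E.Δ) τ ∧ (n : ℝ) * faltings (E.c₄ ^ 3 / E.Δ) τ ≤ Real.log B ∧
    κ * Real.log (badNorm E * |(discr p.1 : ℝ)| ^ 2) + c <
      (n : ℝ) * faltings (E.c₄ ^ 3 / E.Δ) τ}

/-- The exponent `(n + 2) * (n - 1) / (4 * (n - n / p))`, `p` the least prime factor of `n`; it is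
`1`, `5 / 4`, `9 / 4`, `7 / 4` for `n = 2, 3, 4, 5`, and `(n + 2) / 4` for every prime `n`. -/
noncomputable def expo (n : ℕ) : ℝ :=
  (((n + 2) * (n - 1) : ℕ) : ℝ) / (4 * ((n - n / n.minFac : ℕ) : ℝ))

/-- **Violators of Frey's inequality among the Weil restrictions of all elliptic curves over all
number fields of each degree.** (A) For every `n ≥ 1`, every `κ, δ > 0` and every `c` at most
`M B ^ (a n / κ + δ)` pairs `(L, j)` with `h_F(A) ≤ log B` violate `h_F(A) ≤ κ log N_A + c`, where
`a 1 = 5 / 2`, `a n ≤ max (5 / 2) (15 / 8 + expo n / 2)` for `n ≥ 2` and `a n = O(log ^ 2 n)`.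
(B) The family has at least `b B ^ (6 (n + 1))` members with `h_F(A) ≤ log B`. -/
theorem result :
    (∃ a : ℕ → ℝ,
      (∀ c : ℝ, 1 / (16 * (Real.log 2) ^ 2) < c →
        ∀ᶠ n : ℕ in Filter.atTop, a n ≤ c * (Real.log n) ^ 2) ∧
      a 1 = 5 / 2 ∧ (∀ n : ℕ, 2 ≤ n → a n ≤ max (5 / 2) (15 / 8 + expo n / 2)) ∧
      ∀ n : ℕ, 1 ≤ n → ∀ κ c δ : ℝ, 0 < κ → 0 < δ →
        ∃ M : ℝ, ∀ B : ℝ, 1 ≤ B → (Violators n κ c B).Finite ∧
          ((Violators n κ c B).ncard : ℝ) ≤ M * B ^ (a n / κ + δ)) ∧
    (∀ n : ℕ, 1 ≤ n → ∃ b : ℝ, 0 < b ∧ ∃ B₀ : ℝ, ∀ B : ℝ, B₀ ≤ B →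
      ∃ F : Finset (IntermediateField ℚ (AlgebraicClosure ℚ) × AlgebraicClosure ℚ),
        (F : Set (IntermediateField ℚ (AlgebraicClosure ℚ) × AlgebraicClosure ℚ)) ⊆ Family n B ∧
        b * B ^ (6 * (n + 1)) ≤ F.card) :=
  ⟨Pool.Agent.Y729.AE.final4, Pool.Agent.Y729.AE.lowQ⟩

end Pool.Agent.Q138.AJ.Rc59389
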