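import Mathlib
import Pool.Agent.TH876.HC.Count
import Pool.Agent.TH876.HC.Exc

/-!
Hyperelliptic curves of genus `g ≥ 2` over a number field all of whose Weierstrass points are
rational, counted by their bad primes: `y² = d ∏ (X - e_i)` with `2 g + 1` different roots
`e_0 = 0, e_1, ..., e_{2g}`; the roots up to a common factor are a point of `P^{2g-1}(K)`, the
configuration.

The configurations of height at most `H` one of whose quadratic twists has `M_C ≤ X` are at most
`C H X ^ (7/10 + ε)` in number; so for `κ > 4 g + 2` the configurations of height at most `log B`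
for which the inequality `Δ_C ≤ c M_C ^ κ` fails for some quadratic twist are few.
-/

set_option autoImplicit false

open NumberField Height Finset LinearAlgebra.Projectivization Polynomial
open Pool.Agent.W318 (discNorm badNorm)

namespace Pool.Agent.Q138.AJ.Rca2859b

/-- the roots `0, x_0, ..., x_n` -/
def roots {K : Type} [Field K] {n : ℕ} (x : Fin (n + 1) → K) : Fin (n + 2) → K := Fin.cons 0 x

/-- the right hand side of `y² = d ∏ (X - e_i)`, the `e_i` being the roots -/
noncomputable def curve {K : Type} [Field K] {n : ℕ} (d : K) (x : Fin (n + 1) → K) : K[X] :=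
  C d * ∏ i, (X - C (roots x i))

/-- the absolute logarithmic height of a point of projective space -/
noncomputable def height {K : Type} [Field K] [NumberField K] {n : ℕ}
    (P : ℙ K (Fin (n + 1) → K)) : ℝ := Real.log P.mulHeight / Module.finrank ℚ K

/-- the configurations of height at most `H` with different roots such that `M_C ≤ X` for some
quadratic twist -/
def configurations (K : Type) [Field K] [NumberField K] (g n : ℕ) (X H : ℝ) :
    Set (ℙ K (Fin (n + 1) → K)) :=
  {P | Function.Injective (roots P.rep) ∧ height P ≤ H ∧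
    ∃ d : K, d ≠ 0 ∧ (badNorm g (curve d P.rep) : ℝ) ≤ X}

/-- the configurations of height at most `log B` with different roots for which the inequality
`Δ_C ≤ c M_C ^ κ` fails for some quadratic twist -/
def exceptional (K : Type) [Field K] [NumberField K] (g n : ℕ) (κ c B : ℝ) :
    Set (ℙ K (Fin (n + 1) → K)) :=
  {P | Function.Injective (roots P.rep) ∧ height P ≤ Real.log B ∧
    ∃ d : K, d ≠ 0 ∧ c * (badNorm g (curve d P.rep) : ℝ) ^ κ < discNorm g (curve d P.rep)}

theorem result (K : Type) [Field K] [NumberField K] (g n : ℕ) (hg : 2 ≤ g)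
    (hn : n + 1 = 2 * g) :
    (∀ ε : ℝ, 0 < ε → ∃ C : ℝ, 0 ≤ C ∧ ∀ X H : ℝ, 1 ≤ X → 1 ≤ H →
      (configurations K g n X H).Finite ∧
      ((configurations K g n X H).ncard : ℝ) ≤ C * H * X ^ (7 / 10 + ε)) ∧
    (∀ κ c δ : ℝ, 4 * g + 2 < κ → 0 < c → 0 < δ → ∃ M : ℝ, ∀ B : ℝ, 1 ≤ B →
      (exceptional K g n κ c B).Finite ∧ ((exceptional K g n κ c B).ncard : ℝ) ≤
        M * B ^ (Module.finrank ℚ K * (7 * g * (2 * g + 1) / (5 * (κ - 4 * g - 2))) + δ)) :=
  ⟨fun ε hε => Pool.Agent.TH876.HC.count K g n hg hn ε hε,
   fun κ c δ hκ hc hδ =>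
    Pool.Agent.TH876.HC.exc Pool.Agent.TH876.HC.count K g n hg hn κ c δ hκ hc hδ⟩

end Pool.Agent.Q138.AJ.Rca2859b
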