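import Pool.Agent.Y916.Pri

/-!
# Logarithms of almost all tuples of primes: relations of bounded degree, of arbitrary height
-/

set_option autoImplicit false

namespace Pool.Agent.Q138.AJ.Rd171e3a

/-- For some choice of the logarithms of the numbers `p_i` and some number field `L` of degree at most `d`, some nonzero
polynomial of total degree at most `δ` with coefficients in the `L`-span of `V` vanishes at them. -/
def Related {k : ℕ} (δ d : ℕ) (V : Submodule ℚ ℂ) (p : Fin k → ℕ) : Prop :=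
  ∃ l : Fin k → ℂ, (∀ i, Complex.exp (l i) = p i) ∧
    ∃ L : IntermediateField ℚ ℂ, FiniteDimensional ℚ L ∧ Module.finrank ℚ L ≤ d ∧
      ∃ P : MvPolynomial (Fin k) ℂ, P ≠ 0 ∧ P.totalDegree ≤ δ ∧
        (∀ s, P.coeff s ∈ Submodule.span L (V : Set ℂ)) ∧ MvPolynomial.aeval l P = 0

/-- For all `k`, `δ`, `d`, `D` there are `c > 0` and `C` such that for every `ℚ`-subspace `V` of `ℂ` of dimension at most
`D` and every `T ≥ 1`, at most `C T^(k-c)` of the `k`-tuples of primes `p_i ≤ T` are related. -/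
theorem result (k δ d D : ℕ) :
    ∃ c : ℝ, 0 < c ∧ ∃ C : ℝ, ∀ V : Submodule ℚ ℂ, Module.Finite ℚ V → Module.finrank ℚ V ≤ D → ∀ T : ℕ, 1 ≤ T →
      {p : Fin k → ℕ | (∀ i, (p i).Prime ∧ p i ≤ T) ∧ Related δ d V p}.Finite ∧
      ({p : Fin k → ℕ | (∀ i, (p i).Prime ∧ p i ≤ T) ∧ Related δ d V p}.ncard : ℝ) ≤ C * (T : ℝ) ^ ((k : ℝ) - c) :=
  Pool.Agent.Y916.primes k δ d D

end Pool.Agent.Q138.AJ.Rd171e3a
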