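import Mathlib
import Pool.Agent.Y890.UC.Poly

/-!
# Almost all tuples of primes have logarithms without relations of bounded degree and polynomial height over any `g` numbers

Let `ξ_1, ..., ξ_g` be arbitrary complex numbers. For all but `C N ^ (m - 1 + ε)` of the `m`-tuples `x` of positive
integers up to `N` (for example of primes) the numbers `log x_1, ..., log x_m` satisfy no polynomial relation of degree
at most `d` in each variable whose coefficients are polynomials in `ξ_1, ..., ξ_g` with integer coefficients of absolute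
value at most `N ^ A` and degree at most `d`; even the value of such a polynomial is larger than `N ^ (-B)` times its
largest coefficient. The constants `B`, `C` do not depend on the numbers `ξ`.

The starting file `AlmostAllPrimes` of this problem has `ξ = π` and the exponent `m - 1 + β` with
`β > 1 - 1 / ((d + 1) ^ (m + 1) + 1)`. The proof uses helper120's local theorem (`Pool.Agent.Y120.Loc`) and a lemma
on the flag of a system of constants at a scale (`Pool.Agent.Y890.UC.Flag`) which removes every hypothesis on the constants.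
-/

set_option autoImplicit false

namespace Pool.Agent.Q138.AJ.Rd171e3b

/-- The `m`-tuples `x` of integers in `[1, N]` for which there is a polynomial `P` in `m` variables, of degree at most `d`
in each variable, whose coefficients are polynomials in `g` variables of degree at most `d` in each variable with integer
coefficients of absolute value at most `N ^ A`, such that the absolute value of `P (ξ, log x)` is at most `N ^ (-B)` times
the absolute value of one of the non-zero coefficients of the polynomial `P (ξ, X)`. -/
def Exceptional (m g d N : ℕ) (A B : ℝ) (ξ : Fin g → ℂ) : Set (Fin m → ℕ) :=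
  {x | (∀ j, 1 ≤ x j ∧ x j ≤ N) ∧
    ∃ P : MvPolynomial (Fin m) (MvPolynomial (Fin g) ℤ), (∀ j, P.degreeOf j ≤ d) ∧
      (∀ e i, (P.coeff e).degreeOf i ≤ d) ∧ (∀ e u, |(((P.coeff e).coeff u : ℤ) : ℝ)| ≤ (N : ℝ) ^ A) ∧
      ∃ e, MvPolynomial.aeval ξ (P.coeff e) ≠ 0 ∧
        ‖MvPolynomial.eval₂ (MvPolynomial.aeval ξ).toRingHom (fun j => (Real.log (x j) : ℂ)) P‖ ≤
          (N : ℝ) ^ (-B) * ‖MvPolynomial.aeval ξ (P.coeff e)‖}

/-- **Main result.** -/
theorem result (m g d : ℕ) (hm : 1 ≤ m) (A ε : ℝ) (hε : 0 < ε) : ∃ B C : ℝ, ∀ N : ℕ, 1 ≤ N →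
    ∀ ξ : Fin g → ℂ, (Exceptional m g d N A B ξ).Finite ∧
      ((Exceptional m g d N A B ξ).ncard : ℝ) ≤ C * (N : ℝ) ^ ((m : ℝ) - 1 + ε) := by
  obtain ⟨B, C, h⟩ := Pool.Agent.Y890.UC.excLog_count m g d hm A ε hε
  exact ⟨B, C, fun N hN ξ => ⟨Pool.Agent.Y890.UC.ExcLog_fin m g d N A B ξ, h N hN ξ⟩⟩

end Pool.Agent.Q138.AJ.Rd171e3b
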